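import Pool.Agent.Lib.MP_732f67_ag.G.AtEx
import Pool.Agent.Lib.MP_732f67_ag.N.PeP

/-!
Ratios of sections on `X` and in a finite extension of the function field; intersections of charts.
-/

namespace Pool.Agent.KM

variable {L : Type} [Field L] [Algebra ℂ L] {n r : ℕ} {X : Set (Subalgebra ℂ L)}

/-- If all ratios of generating sections of `m M` are constants then `m M` is trivial. -/
theorem two_of_gens (hX : IsProj X) {M : Subalgebra ℂ L → Lˣ} {m : ℕ} (hm : 1 ≤ m)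
    {T : Finset L} (hT : ∀ O ∈ X, ∃ f ∈ T, Un O (f * (M O : L) ^ m)) (ht : ¬ Triv X M) :
    ∃ f ∈ T, ∃ g ∈ T, g ≠ 0 ∧ Transcendental ℂ (f / g) := by
  by_contra hcon
  push Not at hcon
  apply ht
  obtain ⟨f₀, hf₀, hu₀⟩ := hT ⊤ (GMod.peP_top hX)
  have h0 : f₀ ≠ 0 := left_ne_zero_of_mul hu₀.1
  refine ⟨m, hm, Units.mk0 f₀ h0, fun O hO => ?_⟩
  obtain ⟨f, hf, hu⟩ := hT O hO
  have hf0 : f ≠ 0 := left_ne_zero_of_mul hu.1
  obtain ⟨c, hc⟩ := big_const (hcon f₀ hf₀ f hf hf0)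
  have hc0 : c ≠ 0 := by
    rintro rfl
    rw [map_zero] at hc
    exact div_ne_zero h0 hf0 hc.symm
  have h1 : f₀ = algebraMap ℂ L c * f := by
    rw [hc, div_mul_cancel₀ _ hf0]
  have h2 : Un O (algebraMap ℂ L c) := by
    refine ⟨(map_ne_zero _).2 hc0, O.algebraMap_mem c, ?_⟩
    rw [← map_inv₀]
    exact O.algebraMap_mem _
  rw [Units.val_mul, Units.val_mk0, Units.val_pow_eq_pow_val, h1, mul_assoc]
  exact h2.mul hu

private theorem bigE_int {A : Subalgebra ℂ L} {x : L}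
    (h : ∀ R : ValuationSubring L, (∀ y ∈ A, y ∈ R) → x ∈ R) : IsAlgebraic A x := by
  have h1 : IsIntegral A.toSubring x := _root_.KM.AtGen.integral_of_val fun R hR => h R hR
  have h2 : IsIntegral A x := h1
  exact h2.isAlgebraic

/-- The sum of the divisors `M i` is big.

PROOF. As `bigB_main`. -/
theorem big_of_gens {D : Fin n → Derivation ℂ L L} {m : ℕ} {κ : Subalgebra ℂ L → Lˣ}
    (hX : KltFano X D m κ) {M : Fin r → Subalgebra ℂ L → Lˣ} {m₀ : ℕ} (hm : 1 ≤ m₀)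
    {T : Fin r → Finset L} (hT : ∀ i, ∀ O ∈ X, ∃ f ∈ T i, Un O (f * (M i O : L) ^ m₀))
    {q' : ℕ} (hq : 1 ≤ q') {c : Fin r → ℕ} {u : Lˣ} (hu : QDec X κ q' c u M) (x : L) :
    IsAlgebraic (Algebra.adjoin ℂ {w | ∃ i, ∃ f ∈ T i, ∃ g ∈ T i, g ≠ 0 ∧ w = f / g}) x := by
  obtain ⟨m1, hm1, hF, hP⟩ := hX.fano
  obtain ⟨V1, hV1⟩ := exists_va hX.proj (pol_car_pow (pol_car_inv hX.can.1) m1) hF hP
  have hV2 := VA.pow hX.proj hV1 (d := q' * m₀) (Nat.mul_pos hq hm)
  obtain ⟨Q0, hQ0⟩ := hX.proj.nonempty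
  choose f₀ hf₀ hu₀ using fun i => hT i Q0 hQ0
  have hfne : ∀ i, f₀ i ≠ 0 := fun i => left_ne_zero_of_mul (hu₀ i).1
  set K₁ := Algebra.adjoin ℂ {w | ∃ i, ∃ f ∈ T i, ∃ g ∈ T i, g ≠ 0 ∧ w = f / g} with hK₁
  obtain ⟨S, hS⟩ : ∃ S : L, S = ∏ i, f₀ i ^ (c i * m1) := ⟨_, rfl⟩
  have hS0 : S ≠ 0 := by
    rw [hS]
    exact Finset.prod_ne_zero_iff.2 fun i _ => pow_ne_zero _ (hfne i)
  have key : ∀ w ∈ V1 ^ (q' * m₀), IsAlgebraic K₁ (w * (u : L) ^ (m1 * m₀) / S) := by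
    intro w hw
    refine bigE_int fun R hR => ?_
    obtain ⟨Q, hQ, hQR, -⟩ := hX.proj.exists_center R (fun c => hR _ (K₁.algebraMap_mem c))
    have h1 : w * ((κ Q : L)⁻¹ ^ m1) ^ (q' * m₀) ∈ Q := by
      have h := hV2.sec hw Q hQ
      simpa using h
    have h2 : Un Q ((u : L) * (κ Q : L) ^ q' * ∏ i, (M i Q : L) ^ c i) := by
      have h := hu Q hQ
      simpa using h
    have h3 : ∀ i, (f₀ i * (M i Q : L) ^ m₀)⁻¹ ∈ R := by
      intro i
      obtain ⟨f, hf, h4⟩ := hT i Q hQ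
      have hf0 : f ≠ 0 := left_ne_zero_of_mul h4.1
      have h5 : (f₀ i * (M i Q : L) ^ m₀)⁻¹ = f / f₀ i * (f * (M i Q : L) ^ m₀)⁻¹ := by
        have e2 := hfne i
        have e3 := (M i Q).ne_zero
        field_simp
      rw [h5]
      exact R.mul_mem _ _ (hR _ (Algebra.subset_adjoin ⟨i, f, hf, f₀ i, hf₀ i, hfne i, rfl⟩))
        (hQR _ h4.2.2)
    have h6 : w * (u : L) ^ (m1 * m₀) / S =
        w * ((κ Q : L)⁻¹ ^ m1) ^ (q' * m₀) *
          ((u : L) * (κ Q : L) ^ q' * ∏ i, (M i Q : L) ^ c i) ^ (m1 * m₀) *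
          ∏ i, ((f₀ i * (M i Q : L) ^ m₀)⁻¹) ^ (c i * m1) := by
      have e1 := (κ Q).ne_zero
      have e3 : ∏ i, ((f₀ i * (M i Q : L) ^ m₀)⁻¹) ^ (c i * m1) =
          S⁻¹ * ((∏ i, (M i Q : L) ^ c i) ^ (m1 * m₀))⁻¹ := by
        rw [hS, ← Finset.prod_pow, ← Finset.prod_inv_distrib, ← Finset.prod_inv_distrib,
          ← Finset.prod_mul_distrib]
        refine Finset.prod_congr rfl fun i _ => ?_
        rw [inv_pow, mul_pow, mul_inv, ← pow_mul, ← pow_mul]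
        congr 3
        ring
      have e4 : (∏ i, (M i Q : L) ^ c i) ^ (m1 * m₀) ≠ 0 :=
        pow_ne_zero _ (Finset.prod_ne_zero_iff.2 fun i _ => pow_ne_zero _ (M i Q).ne_zero)
      have e5 : ((κ Q : L)⁻¹ ^ m1) ^ (q' * m₀) * ((κ Q : L) ^ q') ^ (m1 * m₀) = 1 := by
        rw [← pow_mul, ← pow_mul, inv_pow]
        have e6 : q' * (m1 * m₀) = m1 * (q' * m₀) := by ring
        rw [e6]
        exact inv_mul_cancel₀ (pow_ne_zero _ e1)
      rw [e3, mul_pow, mul_pow]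
      calc w * (u : L) ^ (m1 * m₀) / S =
          w * (u : L) ^ (m1 * m₀) * S⁻¹ * 1 * 1 := by rw [mul_one, mul_one, div_eq_mul_inv]
        _ = w * (u : L) ^ (m1 * m₀) * S⁻¹ *
            (((κ Q : L)⁻¹ ^ m1) ^ (q' * m₀) * ((κ Q : L) ^ q') ^ (m1 * m₀)) *
            ((∏ i, (M i Q : L) ^ c i) ^ (m1 * m₀) *
              ((∏ i, (M i Q : L) ^ c i) ^ (m1 * m₀))⁻¹) := by
          rw [e5, mul_inv_cancel₀ e4]
        _ = _ := by ring
    rw [h6]
    refine R.mul_mem _ _ (R.mul_mem _ _ (hQR _ h1) ?_) ?_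
    · exact hQR _ (Q.pow_mem h2.2.1 _)
    · exact prod_mem fun i _ => pow_mem (h3 i) _
  have hratio : ∀ w ∈ V1 ^ (q' * m₀), ∀ w' ∈ V1 ^ (q' * m₀), w' ≠ 0 →
      IsAlgebraic K₁ (w / w') := by
    intro w hw w' hw' hw0
    have hu0 : (u : L) ^ (m1 * m₀) ≠ 0 := pow_ne_zero _ u.ne_zero
    have h1 : w / w' = (w * (u : L) ^ (m1 * m₀) / S) * (w' * (u : L) ^ (m1 * m₀) / S)⁻¹ := by
      field_simp
    rw [h1]
    exact (key w hw).mul (key w' hw').inv
  have hfr := hX.proj.fracEq hQ0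
  have hO' := hQ0
  rw [hV2.eq] at hO'
  obtain ⟨v, hv, hv0, hl⟩ := hO'
  have hcht : ∀ y ∈ cht (V1 ^ (q' * m₀)) v, IsAlgebraic K₁ y := by
    intro y hy
    induction hy using Algebra.adjoin_induction with
    | mem y hy =>
      obtain ⟨w, hw, rfl⟩ := hy
      exact hratio w hw v hv hv0
    | algebraMap c => exact isAlgebraic_algebraMap (algebraMap ℂ K₁ c)
    | add y z _ _ hy hz => exact hy.add hz
    | mul y z _ _ hy hz => exact hy.mul hz
  have hloc : ∀ y ∈ Q0, IsAlgebraic K₁ y := by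
    intro y hy
    obtain ⟨I, -, hI⟩ := hl
    obtain ⟨a, b, -, hab⟩ := (hI y).1 hy
    rw [hab, div_eq_mul_inv]
    exact (hcht _ a.2).mul (hcht _ b.2).inv
  obtain ⟨a, b, -, hab⟩ := hfr x
  rw [hab, div_eq_mul_inv]
  exact (hloc _ a.2).mul (hloc _ b.2).inv

section ext

variable {E : Type} [Field E] [Algebra ℂ E] {i : L →ₐ[ℂ] E}

/-- algebraic elements in a finite extension -/
theorem alg_ext (hi : (i : L →+* E).Finite) {K : Subalgebra ℂ L}
    (hK : ∀ x : L, IsAlgebraic K x) (x : E) : IsAlgebraic (K.map i) x := by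
  let _ : Algebra L E := (i : L →+* E).toAlgebra
  have hfin : Module.Finite L E := hi
  have h1 : Algebra.IsAlgebraic L E := inferInstance
  have h2 : Algebra.IsAlgebraic K L := ⟨hK⟩
  have h4 : Algebra.IsAlgebraic K E := Algebra.IsAlgebraic.trans K L E
  obtain ⟨p, hp0, hp⟩ := h4.isAlgebraic x
  let φ : K →+* K.map i :=
    { toFun := fun y => ⟨i y, y, y.2, rfl⟩
      map_one' := Subtype.ext (map_one i)
      map_mul' := fun _ _ => Subtype.ext (map_mul i _ _)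
      map_zero' := Subtype.ext (map_zero i)
      map_add' := fun _ _ => Subtype.ext (map_add i _ _) }
  have hφ : Function.Injective φ := by
    intro a b hab
    have h5 := congrArg (fun z : K.map i => (z : E)) hab
    exact Subtype.ext (i.injective h5)
  refine ⟨p.map φ, (Polynomial.map_ne_zero_iff hφ).2 hp0, ?_⟩
  rw [Polynomial.aeval_def, Polynomial.eval₂_map]
  exact hp

/-- the images of a transcendence basis -/
theorem tb_ext (hi : (i : L →+* E).Finite) {t : Fin n → L} (ht : IsTranscendenceBasis ℂ t) :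
    IsTranscendenceBasis ℂ fun l => i (t l) := by
  have h1 : AlgebraicIndependent ℂ fun l => i (t l) := ht.1.map' i.injective
  refine h1.isTranscendenceBasis_iff_isAlgebraic.2 ⟨fun x => ?_⟩
  have h2 : ∀ x : L, IsAlgebraic (Algebra.adjoin ℂ (Set.range t)) x := fun x =>
    ht.isAlgebraic.isAlgebraic x
  have h3 := alg_ext hi h2 x
  have h4 : (Algebra.adjoin ℂ (Set.range t)).map i =
      Algebra.adjoin ℂ (Set.range fun l => i (t l)) := by
    rw [AlgHom.map_adjoin, ← Set.range_comp]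
    rfl
  rwa [h4] at h3

/-- An element which belongs to all points of the intersection of a chart `A` of the model with
a chart `B` of `X` belongs to the compositum.

PROOF. A local ring `P` of `A ⊔ i B` at a prime ideal: the center `Q` of `P` on `A` is in `Y'`; the center of
`P` on `B` is dominated by `P.comap i`, as the center of `Q`, so they are equal (`IsProj.eq_of_dom`),
`B ≤ cen Q`, and `i B ≤ Q`. -/
theorem mem_supE {W : Set (Subalgebra ℂ E)} (h : Mor i X W) {A : Subalgebra ℂ E}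
    (hA : ∀ Q, LocAt A Q → Q ∈ W) {B : Subalgebra ℂ L} (hB : ∀ O, LocAt B O → O ∈ X) {w : E}
    (hw : ∀ Q ∈ W, A ≤ Q → B.map i ≤ Q → w ∈ Q) : w ∈ A ⊔ B.map i := by
  refine mem_of_locAt fun P hP => ?_
  have hl := hP.isLocalRing
  have ha : A ≤ P := le_sup_left.trans hP.le
  have hb : B.map i ≤ P := le_sup_right.trans hP.le
  have hQ := hA _ (locAt_locOf ha hl)
  have hQd := dom_locOf ha
  set Q := locOf A P ha
  have hAQ : A ≤ Q := (locAt_locOf ha hl).le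
  have hl' : IsLocalRing (P.comap i) := DmC_local i hl
  have hb' : B ≤ P.comap i := fun x hx => hb ⟨x, hx, rfl⟩
  have hO := hB _ (locAt_locOf hb' hl')
  have hOd := dom_locOf hb'
  have hBO : B ≤ locOf B (P.comap i) hb' := (locAt_locOf hb' hl').le
  set O := locOf B (P.comap i) hb'
  obtain ⟨hc1, hc2⟩ := cen_spec (h.dom Q hQ)
  have hc3 : Dom (cen i X Q) (P.comap i) := by
    refine ⟨fun x hx => hQd.1 (hc2.1 x hx), fun x hx hx' => hc2.2 x hx (hQd.2 _ (hc2.1 x hx) ?_)⟩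
    rw [← map_inv₀]
    exact hx'
  have hceq := h.proj.eq_of_dom hc1 hO hc3 hOd
  refine hQd.1 (hw Q hQ hAQ ?_)
  rintro _ ⟨x, hx, rfl⟩
  refine hc2.1 x ?_
  rw [hceq]
  exact hBO hx

end ext

end Pool.Agent.KM
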