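import Pool.Agent.Lib.MP_732f67_ag.N.PeP
import Pool.Agent.Lib.MP_732f67_ag.N.AmpF
import Pool.Agent.Lib.MP_732f67_ag.N.DmS

/-!
The polarization of a Galois model; finite generating sets of sections.
-/

namespace Pool.Agent.KM

namespace GMod

variable {F : Type} [Field F] [Algebra ℂ F] {d : ℕ} {Y : Set (Subalgebra ℂ F)}
  {G : Subgroup (F ≃ₐ[ℂ] F)} {Δ : Fin d → Derivation ℂ F F} {Φ : Finset F}
  {H : Subalgebra ℂ F → Fˣ} (M : GMod d Y G Δ Φ H)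

/-- `k f^* H - ∑ θ j B j` is ample for large `k`, where all the `θ j` are positive.

PROOF. `h j = oD (P j) (H' (P j))`, `α j = oD (P j) (i a * f^* H ^ l) ≥ 1`; `θ j = N α j - h j` with `N` large.
`f^* H ^ k / ∏ B j ^ θ j` is up to units `f^* H ^ (k - l N) * H' * (i a) ^ (- N)`. -/
theorem exists_polE (hY : Base d Y G Δ) (hH : IsCar Y H) (hA : Amp Y H) :
    ∃ (θ : M.J → ℤ) (k₀ : ℕ), (∀ j, 1 ≤ θ j) ∧ ∀ k : ℕ, k₀ ≤ k →
      Amp M.Y' (pb M.i Y H ^ k / ∏ j, M.B j ^ θ j) := by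
  classical
  have hmor := M.mor hY.proj
  have hHH : IsCar M.Y' (pb M.i Y H) := car_pb hmor hH
  have hD₁ : IsCar M.Y' M.peP_D := car_mul (car_pow hHH _) (car_const _)
  have hexpE := fun O' (hO' : O' ∈ M.Y') => M.exp M.hcar M.hun hO'
  have hexpD := fun O' (hO' : O' ∈ M.Y') => M.exp hD₁ (fun O' hO' h => by
    rw [M.peP_val]
    exact (M.a_un O' hO').1 h) hO'
  obtain ⟨h, hh⟩ : ∃ h : M.J → ℤ, ∀ j, oD (M.P j) (M.H' (M.P j)) = h j := ⟨_, fun _ => rfl⟩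
  obtain ⟨α, hα⟩ : ∃ α : M.J → ℤ, ∀ j, oD (M.P j) (M.peP_D (M.P j)) = α j := ⟨_, fun _ => rfl⟩
  have hα1 : ∀ j, 1 ≤ α j := fun j => by
    rw [← hα]
    exact M.peP_pos hY j
  simp only [hh] at hexpE
  simp only [hα] at hexpD
  obtain ⟨N, hN⟩ : ∃ N : ℕ, ∀ j, h j < N := by
    refine ⟨Finset.univ.sup (fun j => (h j).toNat) + 1, fun j => ?_⟩
    have h1 : (h j).toNat ≤ Finset.univ.sup (fun j => (h j).toNat) :=
      Finset.le_sup (f := fun j => (h j).toNat) (Finset.mem_univ j)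
    have h2 := Int.self_le_toNat (h j)
    have h3 : ((h j).toNat : ℤ) ≤ ((Finset.univ.sup (fun j => (h j).toNat) : ℕ) : ℤ) := by
      exact_mod_cast h1
    push_cast
    linarith
  refine ⟨fun j => N * α j - h j, M.l * N, fun j => ?_, fun k hk => ?_⟩
  · have h1 := hN j
    have h2 : (N : ℤ) * 1 ≤ N * α j := mul_le_mul_of_nonneg_left (hα1 j) (Int.natCast_nonneg N)
    linarith
  obtain ⟨k', rfl⟩ : ∃ k', k = M.l * N + k' := ⟨k - M.l * N, by omega⟩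
  have ha0 : M.i M.a ≠ 0 := (map_ne_zero M.i).2 M.peP_a_ne
  have h1 : Amp M.Y' (M.H' * pb M.i Y H ^ k' * fun _ => ((Units.mk0 (M.i M.a) ha0) ^ N)⁻¹) :=
    amp_const (amp_mul_sf M.base.proj M.hamp (sf_pow (sf_pb hmor (amp_sf hA)) k')) _
  refine amp_congr h1 fun Q hQ => ?_
  have h2 := hexpE Q hQ
  have h3 := (hexpD Q hQ).pow N
  have h4 := h2.div h3
  have e1 : ∏ j, (M.B j Q : M.F') ^ ((N : ℤ) * α j - h j) =
      (∏ j, (M.B j Q : M.F') ^ α j) ^ N / ∏ j, (M.B j Q : M.F') ^ h j := by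
    rw [← Finset.prod_pow, ← Finset.prod_div_distrib]
    refine Finset.prod_congr rfl fun j _ => ?_
    rw [zpow_sub₀ (M.B j Q).ne_zero, mul_comm (N : ℤ), zpow_mul, zpow_natCast]
  have z1 : ∏ j, (M.B j Q : M.F') ^ α j ≠ 0 :=
    Finset.prod_ne_zero_iff.2 fun j _ => zpow_ne_zero _ (M.B j Q).ne_zero
  have z2 : ∏ j, (M.B j Q : M.F') ^ h j ≠ 0 :=
    Finset.prod_ne_zero_iff.2 fun j _ => zpow_ne_zero _ (M.B j Q).ne_zero
  have z3 : (pb M.i Y H Q : M.F') ≠ 0 := Units.ne_zero _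
  have z4 : (M.H' Q : M.F') ≠ 0 := Units.ne_zero _
  have e2 : (((pb M.i Y H ^ (M.l * N + k') / ∏ j, M.B j ^ ((N : ℤ) * α j - h j)) Q : M.F'ˣ) :
      M.F') = (pb M.i Y H Q : M.F') ^ (M.l * N + k') /
        ∏ j, (M.B j Q : M.F') ^ ((N : ℤ) * α j - h j) := by
    rw [Pi.div_apply, Units.val_div_eq_div_val, Pi.pow_apply, Units.val_pow_eq_pow_val,
      Finset.prod_apply, Units.coe_prod]
    congr 1
    refine Finset.prod_congr rfl fun j _ => ?_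
    rw [Pi.pow_apply, Units.val_zpow_eq_zpow_val]
  have e3 : (((M.H' * pb M.i Y H ^ k' * fun _ => ((Units.mk0 (M.i M.a) ha0) ^ N)⁻¹ :
      Subalgebra ℂ M.F' → M.F'ˣ) Q : M.F'ˣ) : M.F') =
      (M.H' Q : M.F') * (pb M.i Y H Q : M.F') ^ k' * ((M.i M.a) ^ N)⁻¹ := by
    rw [Pi.mul_apply, Pi.mul_apply, Pi.pow_apply, Units.val_mul, Units.val_mul,
      Units.val_pow_eq_pow_val, Units.val_inv_eq_inv_val, Units.val_pow_eq_pow_val, Units.val_mk0]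
  have e4 : (M.peP_D Q : M.F') = M.i M.a * (pb M.i Y H Q : M.F') ^ M.l := by
    rw [peP_D, Pi.mul_apply, Pi.pow_apply, Units.val_mul, Units.val_pow_eq_pow_val, Units.val_mk0,
      mul_comm]
  rw [e2, e3, e1]
  rw [e4] at h4
  have h5 : (M.H' Q : M.F') / (∏ j, (M.B j Q : M.F') ^ h j) /
      (M.i M.a * (pb M.i Y H Q : M.F') ^ M.l / ∏ j, (M.B j Q : M.F') ^ α j) ^ N =
      (M.H' Q : M.F') * (pb M.i Y H Q : M.F') ^ k' * ((M.i M.a) ^ N)⁻¹ /
        ((pb M.i Y H Q : M.F') ^ (M.l * N + k') /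
          ((∏ j, (M.B j Q : M.F') ^ α j) ^ N / ∏ j, (M.B j Q : M.F') ^ h j)) := by
    rw [div_pow, mul_pow, ← pow_mul, pow_add]
    field_simp
  rwa [h5] at h4

end GMod

section

variable {L : Type} [Field L] [Algebra ℂ L] {X : Set (Subalgebra ℂ L)} {D : Subalgebra ℂ L → Lˣ}

/-- finitely many generating sections.

PROOF. `exists_bf`, a basis of the space, `ampF_gen`. -/
theorem exists_gensE (hX : IsProj X) (hD : IsCar X D) {m : ℕ} (hF : Free X (D ^ m)) :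
    ∃ T : Finset L, (∀ f ∈ T, f ∈ Sec X (D ^ m)) ∧
      ∀ O ∈ X, ∃ f ∈ T, Un O (f * (D O : L) ^ m) := by
  classical
  obtain ⟨V, hV⟩ := exists_bf hX (car_pow hD m) hF
  obtain ⟨T, hT⟩ := Module.Finite.iff_fg.1 hV.fin
  refine ⟨T, fun f hf => hV.sec (hT ▸ Submodule.subset_span hf), fun O hO => ?_⟩
  obtain ⟨f, hf, hu⟩ := hV.gen O hO
  have h1 : ∀ O, ((D ^ m) O : L) = (D O : L) ^ m := fun O => by
    rw [Pi.pow_apply, Units.val_pow_eq_pow_val]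
  obtain ⟨s, hs, hsu⟩ := ampF_gen (hX.isLocalRing hO) (S := (T : Set L)) (h := ((D ^ m) O : L))
    (f := f) (fun s hs => hV.sec (hT ▸ Submodule.subset_span hs) O hO) (by rw [hT]; exact hf) hu
  refine ⟨s, hs, ?_⟩
  rwa [h1] at hsu

end

end Pool.Agent.KM
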