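import Pool.Agent.Lib.MP_732f67_ag.G2.CanE
import Pool.Agent.Lib.MP_732f67_ag.G2.PolE
import Pool.Agent.Lib.MP_732f67_ag.G2.BigE
import Pool.Agent.Lib.MP_732f67_ag.N.BaE

/-!
The atlas of a Galois model of a klt Fano variety.
-/

namespace Pool.Agent.KM

variable {L : Type} [Field L] [Algebra ℂ L] {n r : ℕ}

/-- `Z` is an atlas of the Galois model `M` of the klt Fano variety `X`, with local equations
`d a i` of the pull backs of the `N i` -/
structure AtM {X : Set (Subalgebra ℂ L)} {D : Fin n → Derivation ℂ L L} {Φ : Finset L}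
    {H : Subalgebra ℂ L → Lˣ} (M : GMod n X ⊥ D Φ H) (N : Fin r → Subalgebra ℂ L → Lˣ) (q : ℕ)
    (c : Fin r → ℕ) (u : Lˣ) (Z : AtD M.F' n (Fin r)) (e : Fin Z.s ≃ M.J) (t : Fin n → L) (y : L) :
    Prop where
  ok : Z.Ok
  N_pos : 0 < Z.N
  q_eq : Z.q = q
  c_eq : Z.c = c
  /-- the local rings of the charts are the points of the model -/
  loc : ∀ a Q, LocAt (Z.A a) Q ↔ Q ∈ M.Y' ∧ Z.A a ≤ Q
  cover : ∀ Q ∈ M.Y', ∃ a, Z.A a ≤ Q
  prim : Prim t y
  t_eq : ∀ l, Z.t l = M.i (t l)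
  ω_eq : Z.ω = M.i (u * (nj D t ^ q)⁻¹)
  eqn : ∀ a j, ∀ Q ∈ M.Y', Z.A a ≤ Q → Un Q ((M.B (e j) Q : M.F') / Z.ε a j)
  d_eq : ∀ a i, ∃ O ∈ X, Z.d a i = M.i (N i O)
  d_un : ∀ a i, ∀ Q ∈ M.Y', Z.A a ≤ Q → Un Q ((pb M.i X (N i) Q : M.F') / Z.d a i)
  S_eq : ∀ i, ∀ f ∈ Z.S i, ∃ g ∈ Sec X (N i ^ Z.m), M.i g = f
  S'_eq : ∀ i, ∀ f ∈ Z.S' i, ∃ g ∈ Sec X (N i ^ (Z.m + 1)), M.i g = f
  S_gen : ∀ i, ∀ O ∈ X, ∃ g, M.i g ∈ Z.S i ∧ Un O (g * (N i O : L) ^ Z.m)
  S'_gen : ∀ i, ∀ O ∈ X, ∃ g, M.i g ∈ Z.S' i ∧ Un O (g * (N i O : L) ^ (Z.m + 1))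
  sec : ∀ (v : Fin r → ℕ) (f : L), (∀ a, M.i f * ∏ i, Z.d a i ^ v i ∈ Z.A a) ↔
    f ∈ Sec X (∏ i, N i ^ v i)

/-- a primitive element for a given transcendence basis -/
theorem exists_prim_of_tb {X : Set (Subalgebra ℂ L)} (hX : IsProj X) {t : Fin n → L}
    (ht : IsTranscendenceBasis ℂ t) : ∃ y : L, Prim t y := by
  obtain ⟨V, hV, hV0, hfr, -⟩ := hX
  obtain ⟨v, hv, hv0⟩ := Submodule.exists_mem_ne_zero_of_ne_bot hV0
  obtain ⟨G, hG⟩ := cht_fg hV v
  have hGtop : IntermediateField.adjoin ℂ (G : Set L) = ⊤ := by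
    rw [eq_top_iff]
    intro x _
    obtain ⟨a, b, hb, rfl⟩ := hfr v hv hv0 x
    have hle : cht V v ≤ (IntermediateField.adjoin ℂ (G : Set L)).toSubalgebra := by
      rw [← hG]
      exact Algebra.adjoin_le (IntermediateField.subset_adjoin ℂ _)
    exact div_mem (show (a : L) ∈ IntermediateField.adjoin ℂ (G : Set L) from hle a.2) (hle b.2)
  exact exists_prim ht G hGtop

theorem pb_prodE {E : Type} [Field E] [Algebra ℂ E] (i : L →ₐ[ℂ] E) (X : Set (Subalgebra ℂ L))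
    (N : Fin r → Subalgebra ℂ L → Lˣ) (v : Fin r → ℕ) :
    pb i X (∏ j, N j ^ v j) = ∏ j, pb i X (N j) ^ v j := by
  funext O'
  show Units.map (i : L →* E) ((∏ j, N j ^ v j) (cen i X O')) = _
  rw [Finset.prod_apply, Finset.prod_apply, map_prod]
  refine Finset.prod_congr rfl fun j _ => ?_
  rw [Pi.pow_apply, map_pow]
  rfl

theorem nj_ext {E : Type} [Field E] [Algebra ℂ E] {i : L →ₐ[ℂ] E} {D : Fin n → Derivation ℂ L L}
    {D' : Fin n → Derivation ℂ E E} (h : ∀ l x, D' l (i x) = i (D l x)) (t : Fin n → L) :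
    nj D' (fun l => i (t l)) = i (nj D t) := by
  unfold nj
  have h1 : (Matrix.of fun k l => D' k (i (t l))) =
      (Matrix.of fun k l => D k (t l)).map (i : L →+* E) := by
    ext k l
    exact h k (t l)
  rw [h1]
  exact (RingHom.map_det (i : L →+* E) _).symm

/-- **the atlas of a Galois model**

PROOF. `exists_polE`, `exists_preE`, `PreE.can`, `PreE.pol`, `GMod.ad_exp`, `GMod.ad_pos`. -/
theorem exists_atM {X : Set (Subalgebra ℂ L)} {D : Fin n → Derivation ℂ L L} {m : ℕ}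
    {κ : Subalgebra ℂ L → Lˣ} (hX : KltFano X D m κ) {Φ : Finset L} (M : GMod n X ⊥ D Φ κ⁻¹)
    (hΦ : ∀ O ∈ X, ∃ t ∈ Φ, Un O ((κ⁻¹ O : L) / t)) {N : Fin r → Subalgebra ℂ L → Lˣ}
    (hN : ∀ i, IsCar X (N i)) (hs : ∀ i, Semi X (N i)) (ht : ∀ i, ¬ Triv X (N i)) {q' : ℕ}
    (hq : 1 ≤ q') {c : Fin r → ℕ} (hc : ∀ i, 0 < c i) {u : Lˣ} (hu : QDec X κ q' c u N) :
    ∃ (Z : AtD M.F' n (Fin r)) (e : Fin Z.s ≃ M.J) (t : Fin n → L) (y : L),
      AtM M N (m * q') c u Z e t y := by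
  classical
  have hmor := M.mor hX.proj
  have hW := M.base.proj
  -- the transcendence basis
  obtain ⟨t, y, hty⟩ := exists_prim_of_proj hX.proj hX.dim
  have htb : IsTranscendenceBasis ℂ fun l => M.i (t l) := tb_ext M.fin hty.basis
  obtain ⟨y0, hp⟩ := exists_prim_of_tb hW htb
  obtain ⟨dd, hdd⟩ := exists_der htb
  set δ : M.F' := M.i (nj D t) with hδ
  have hδ' : nj M.Δ' (fun l => M.i (t l)) = δ := nj_ext M.der t
  have hδ0 : δ ≠ 0 := by
    rw [hδ, map_ne_zero]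
    exact nj_ne hty.basis hX.frame
  have hjc : ∀ x : Fin n → M.F', nj M.Δ' x = δ * (Matrix.of fun i l => dd i (x l)).det := by
    intro x
    rw [← hδ']
    exact det_frame htb hdd x
  -- the sections
  choose m1 hm1 using hs
  set m₀ := (Finset.univ.sup m1) + 1 with hm₀
  have hm0 : ∀ i, m1 i ≤ m₀ := fun i =>
    (Finset.le_sup (f := m1) (Finset.mem_univ i)).trans (Nat.le_succ _)
  have hm₀1 : 1 ≤ m₀ := Nat.le_add_left _ _
  choose T hTs hTg using fun i => exists_gensE hX.proj (hN i) (hm1 i _ (hm0 i))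
  choose T' hT's hT'g using fun i =>
    exists_gensE hX.proj (hN i) (hm1 i _ ((hm0 i).trans (Nat.le_succ _)))
  have hgen : ∀ (k : ℕ) (T : Finset L) (N : Subalgebra ℂ L → Lˣ),
      (∀ O ∈ X, ∃ f ∈ T, Un O (f * (N O : L) ^ k)) → ∀ Q ∈ M.Y', ∃ f ∈ T.image M.i,
        Un Q (f * (pb M.i X N Q : M.F') ^ k) := by
    intro k T N hT Q hQ
    obtain ⟨h1, h2⟩ := cen_spec (hmor.dom Q hQ)
    obtain ⟨f, hf, hu⟩ := hT _ h1
    refine ⟨M.i f, Finset.mem_image_of_mem _ hf, ?_⟩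
    have h3 := h2.un hu
    rwa [map_mul, map_pow] at h3
  -- the polarization
  obtain ⟨θ, k₀, hθ, hamp⟩ := M.exists_polE hX.base (car_inv hX.can.1) hX.amp
  obtain ⟨e', he', hν⟩ := M.ad_exp hX.base hX.pos (car_inv hX.can.1) hΦ
  obtain ⟨K, hK⟩ : ∃ K : ℕ, ∀ j, θ j < K := by
    refine ⟨Finset.univ.sup (fun j => (θ j).toNat) + 1, fun j => ?_⟩
    have h1 : (θ j).toNat ≤ Finset.univ.sup (fun j => (θ j).toNat) :=
      Finset.le_sup (f := fun j => (θ j).toNat) (Finset.mem_univ j)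
    have h2 := Int.self_le_toNat (θ j)
    push_cast
    have h3 : ((θ j).toNat : ℤ) ≤ ((Finset.univ.sup (fun j => (θ j).toNat) : ℕ) : ℤ) := by
      exact_mod_cast h1
    linarith
  set a₁ : ℕ := K + k₀ + 1 with ha₁
  have hk : k₀ ≤ a₁ * q' := by
    have : a₁ * 1 ≤ a₁ * q' := Nat.mul_le_mul_left _ hq
    omega
  obtain ⟨m', hm', V, hV⟩ := hamp _ hk
  obtain ⟨d₁, hd₁, ⟨Y⟩⟩ := exists_preE M.snc (N := fun i => pb M.i X (N i))
    (fun i => car_pb hmor (hN i)) (fun i => hgen m₀ (T i) (N i) (hTg i))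
    (fun i => hgen (m₀ + 1) (T' i) (N i) (hT'g i)) hV
  have hDD : ∀ Q ∈ M.Y', Un Q (((((pb M.i X κ⁻¹ ^ (a₁ * q') / ∏ j, M.B j ^ θ j) ^ m') ^ d₁) Q :
      M.F'ˣ) / ((pb M.i X κ⁻¹ Q : M.F') ^ (a₁ * q') /
        ∏ j, (M.B j Q : M.F') ^ (((1 : ℕ) : ℤ) * θ j)) ^ (m' * d₁)) := by
    intro Q hQ
    have h1 : (((((pb M.i X κ⁻¹ ^ (a₁ * q') / ∏ j, M.B j ^ θ j) ^ m') ^ d₁) Q :
        M.F'ˣ) : M.F') = ((pb M.i X κ⁻¹ Q : M.F') ^ (a₁ * q') /
        ∏ j, (M.B j Q : M.F') ^ (((1 : ℕ) : ℤ) * θ j)) ^ (m' * d₁) := by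
      rw [← pow_mul, Pi.pow_apply, Units.val_pow_eq_pow_val, Pi.div_apply,
        Units.val_div_eq_div_val, Pi.pow_apply, Units.val_pow_eq_pow_val, Finset.prod_apply,
        Units.coe_prod]
      congr 2
      refine Finset.prod_congr rfl fun j _ => ?_
      rw [Pi.pow_apply, Units.val_zpow_eq_zpow_val, Nat.cast_one, one_mul]
    rw [← h1, div_self (Units.ne_zero _)]
    exact Un.one Q
  have huQ : ∀ Q ∈ M.Y', Un Q (M.i u * ((pb M.i X κ⁻¹ Q : M.F') ^ q')⁻¹ *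
      ∏ i, (pb M.i X (N i) Q : M.F') ^ c i) := by
    intro Q hQ
    obtain ⟨h1, h2⟩ := cen_spec (hmor.dom Q hQ)
    have h3 := h2.un (hu _ h1)
    rw [Units.val_mul, Units.val_mul, Units.val_pow_eq_pow_val, Units.coe_prod, map_mul, map_mul,
      map_pow, map_prod] at h3
    have h4 : ((pb M.i X κ⁻¹ Q : M.F') ^ q')⁻¹ = M.i (κ (cen M.i X Q)) ^ q' := by
      rw [pb_val, Pi.inv_apply, Units.val_inv_eq_inv_val, map_inv₀, inv_pow, inv_inv]
    rw [h4]
    have h5 : ∏ i, (pb M.i X (N i) Q : M.F') ^ c i =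
        ∏ i, M.i ((N i (cen M.i X Q) ^ c i : Lˣ) : L) := by
      refine Finset.prod_congr rfl fun i _ => ?_
      rw [pb_val, Units.val_pow_eq_pow_val, map_pow]
    rw [h5]
    exact h3
  have hpos : 0 < m * q' := Nat.mul_pos hX.pos hq
  have hmpos : (0 : ℚ) < m := by exact_mod_cast hX.pos
  have he'gt : ∀ j, -(m : ℤ) < e' j := by
    intro j
    have h1 := M.ad_pos hX.base hX.p j
    have h2 : (-(m : ℚ)) < e' j := by
      rw [he' j]
      nlinarith
    exact_mod_cast h2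
  let ee : Fin (Fintype.card M.J) ≃ M.J := (Fintype.equivFin M.J).symm
  let Z : AtD M.F' n (Fin r) :=
    { t := fun l => M.i (t l)
      y0 := y0
      D := dd
      N := Y.NN
      z := fun i => δ ^ (m' * d₁ * a₁ * (m * q')) * Y.z i
      k := Y.k
      σ := Y.σ
      x := Y.x
      y := Y.y
      u := Y.u
      s := Fintype.card M.J
      co := fun a j => Y.co a (ee j)
      d := Y.d
      q := m * q'
      ω := M.i (u * (nj D t ^ (m * q'))⁻¹)
      c := c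
      e := fun j => q' * e' (ee j)
      a := m' * d₁ * a₁
      b := fun j => ((m' * d₁ : ℕ) : ℤ) * a₁ * (q' * e' (ee j)) -
        ((m' * d₁ : ℕ) : ℤ) * ((1 : ℕ) : ℤ) * θ (ee j)
      m := m₀
      S := fun i => (T i).image M.i
      S' := fun i => (T' i).image M.i }
  have hδk : δ ^ (m' * d₁ * a₁ * (m * q')) ≠ 0 := pow_ne_zero _ hδ0
  have hZA : ∀ a, Z.A a = Y.A a := fun a => chA_mul Y.z hδk (Y.σ a)
  have hsecW : ∀ (k : ℕ) (N : Subalgebra ℂ L → Lˣ) (f : L), f ∈ Sec X (N ^ k) →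
      M.i f ∈ Sec M.Y' (pb M.i X N ^ k) := by
    intro k N f hf
    have h1 := sec_pb hmor hf
    rwa [pb_pow] at h1
  refine ⟨Z, ee, t, y, ?_⟩
  refine
    { ok := ?_
      N_pos := Y.NN_pos hW
      q_eq := rfl
      c_eq := rfl
      loc := fun a Q => by
        rw [hZA]
        exact Y.locAt_iff hW a Q
      cover := fun Q hQ => by
        obtain ⟨a, ha⟩ := Y.exists_le hW hQ
        exact ⟨a, by rw [hZA]; exact ha⟩
      prim := hty
      t_eq := fun _ => rfl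
      ω_eq := rfl
      eqn := fun a j Q hQ ha => (Y.nb a).eqn (ee j) Q hQ (by rwa [hZA] at ha)
      d_eq := fun a i => by
        obtain ⟨Q, hQ, h⟩ := (Y.nb a).d_eq i
        exact ⟨_, (cen_spec (hmor.dom Q hQ)).1, h⟩
      d_un := fun a i Q hQ ha => (Y.nb a).d_un i Q hQ (by rwa [hZA] at ha)
      S_eq := fun i f hf => by
        obtain ⟨g, hg, rfl⟩ := Finset.mem_image.1 hf
        exact ⟨g, hTs i g hg, rfl⟩
      S'_eq := fun i f hf => by
        obtain ⟨g, hg, rfl⟩ := Finset.mem_image.1 hf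
        exact ⟨g, hT's i g hg, rfl⟩
      S_gen := fun i O hO => by
        obtain ⟨g, hg, hu⟩ := hTg i O hO
        exact ⟨g, Finset.mem_image_of_mem _ hg, hu⟩
      S'_gen := fun i O hO => by
        obtain ⟨g, hg, hu⟩ := hT'g i O hO
        exact ⟨g, Finset.mem_image_of_mem _ hg, hu⟩
      sec := ?_ }
  · refine
      { prim := hp
        Dt := hdd
        z_ne := fun j => mul_ne_zero hδk (Y.z_ne j)
        cov := ?_
        ch := ?_
        co_inj := fun a j j' l h1 h2 => ee.injective ((Y.nb a).inj _ _ l h1 h2)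
        ε_trans := ?_
        d_ne := fun a i => Y.d_ne a i
        d_trans := ?_
        q_pos := hpos
        c_pos := hc
        e_gt := ?_
        ω_ne := ?_
        can := ?_
        a_pos := Nat.mul_pos (Nat.mul_pos hm' hd₁) (by omega)
        b_lt := ?_
        b_gt := ?_
        pol := ?_
        m_pos := hm₀1
        S_sec := ?_
        S_gen := ?_
        S'_sec := ?_
        S'_gen := ?_
        two := ?_
        big := ?_ }
    · obtain ⟨M', hM'⟩ := Y.cov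
      exact ⟨M', fun j => cov_mul Y.z Y.σ _ (hM' j)⟩
    · intro a
      rw [hZA]
      exact Y.isCh a
    · intro a b j
      rw [hZA, hZA]
      exact Y.ε_trans hW a b (ee j)
    · intro a b i
      rw [hZA, hZA]
      exact Y.d_trans hW a b i
    · intro j
      show -((m * q' : ℕ) : ℤ) < q' * e' (ee j)
      have h1 := he'gt (ee j)
      have h2 : (0 : ℤ) < q' := by exact_mod_cast hq
      have h3 := mul_lt_mul_of_pos_left h1 h2
      push_cast
      linarith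
    · show M.i _ ≠ 0
      rw [map_ne_zero]
      exact mul_ne_zero u.ne_zero (inv_ne_zero (pow_ne_zero _ (nj_ne hty.basis hX.frame)))
    · intro a
      have h1 := Y.can hW hν huQ a
      rw [hjc, mul_pow, mul_inv] at h1
      rw [hZA]
      convert h1 using 1
      show M.i (u * (nj D t ^ (m * q'))⁻¹) *
        ((Matrix.of fun i l => dd i (Y.x a l)).det ^ (m * q'))⁻¹ *
        (∏ i, Y.d a i ^ c i) * (∏ j, eps (Y.x a) (Y.co a (ee j)) ^ (-((q' : ℤ) * e' (ee j)))) = _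
      rw [Equiv.prod_comp ee fun j => eps (Y.x a) (Y.co a j) ^ (-((q' : ℤ) * e' j)), map_mul,
        map_inv₀, map_pow, ← hδ]
      ring
    · intro j
      show ((m' * d₁ : ℕ) : ℤ) * a₁ * (q' * e' (ee j)) -
        ((m' * d₁ : ℕ) : ℤ) * ((1 : ℕ) : ℤ) * θ (ee j) <
          ((m' * d₁ * a₁ : ℕ) : ℤ) * (q' * e' (ee j))
      have h1 : (0 : ℤ) < ((m' * d₁ : ℕ) : ℤ) := by exact_mod_cast Nat.mul_pos hm' hd₁
      have h2 : (0 : ℤ) < θ (ee j) := lt_of_lt_of_le one_pos (hθ _)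
      have h3 : (0 : ℤ) < ((m' * d₁ : ℕ) : ℤ) * θ (ee j) := mul_pos h1 h2
      rw [Nat.cast_one, mul_one, Nat.cast_mul (m' * d₁) a₁]
      linarith
    · intro j
      obtain ⟨r', h1, h2, h3⟩ := ceil_cond (q := ((m * q' : ℕ) : ℤ)) (e := q' * e' (ee j))
        (θ := θ (ee j)) (a₁ := a₁) (b₁ := ((1 : ℕ) : ℤ)) (d₁ := ((m' * d₁ : ℕ) : ℤ)) (K := K)
        (by exact_mod_cast hpos) (by
          have h1 := he'gt (ee j)
          have h2 : (0 : ℤ) < q' := by exact_mod_cast hq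
          have h3 := mul_lt_mul_of_pos_left h1 h2
          push_cast
          linarith)
        (by exact_mod_cast Nat.mul_pos hm' hd₁) (by norm_num) (hK _) (by
          rw [ha₁]
          push_cast
          have : (0 : ℤ) ≤ k₀ := Int.natCast_nonneg _
          linarith) (Int.natCast_nonneg _)
      refine ⟨r', h1, ?_, h3⟩
      show (r' - 1) * (((m' * d₁ * a₁ : ℕ) : ℤ) * ((m * q' : ℕ) : ℤ)) <
        ((m' * d₁ : ℕ) : ℤ) * a₁ * (q' * e' (ee j)) -
          ((m' * d₁ : ℕ) : ℤ) * ((1 : ℕ) : ℤ) * θ (ee j)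
      rw [Nat.cast_mul (m' * d₁) a₁]
      exact h2
    · intro a
      have h1 := Y.pol hW (θ := θ) hν hDD a
      rw [hjc, mul_pow] at h1
      rw [hZA]
      convert h1 using 1
      show δ ^ (m' * d₁ * a₁ * (m * q')) * Y.z (Y.σ a) *
        (Matrix.of fun i l => dd i (Y.x a l)).det ^ (m' * d₁ * a₁ * (m * q')) *
        (∏ j, eps (Y.x a) (Y.co a (ee j)) ^ (((m' * d₁ : ℕ) : ℤ) * a₁ * (q' * e' (ee j)) -
          ((m' * d₁ : ℕ) : ℤ) * ((1 : ℕ) : ℤ) * θ (ee j))) = _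
      rw [Equiv.prod_comp ee fun j => eps (Y.x a) (Y.co a j) ^
        (((m' * d₁ : ℕ) : ℤ) * a₁ * (q' * e' j) - ((m' * d₁ : ℕ) : ℤ) * ((1 : ℕ) : ℤ) * θ j)]
      ring
    · intro i f hf a
      rw [hZA]
      obtain ⟨g, hg, rfl⟩ := Finset.mem_image.1 hf
      exact Y.sec_mem hW (hsecW m₀ (N i) g (hTs i g hg)) a
    · intro i a
      rw [hZA]
      exact Y.gen_un hW a i
    · intro i f hf a
      rw [hZA]
      obtain ⟨g, hg, rfl⟩ := Finset.mem_image.1 hf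
      exact Y.sec_mem hW (hsecW (m₀ + 1) (N i) g (hT's i g hg)) a
    · intro i a
      rw [hZA]
      exact Y.gen_un' hW a i
    · intro i
      obtain ⟨f, hf, g, hg, hg0, h1⟩ := two_of_gens hX.proj hm₀1 (hTg i) (ht i)
      refine ⟨M.i f, Finset.mem_image_of_mem _ hf, M.i g, Finset.mem_image_of_mem _ hg,
        (map_ne_zero M.i).2 hg0, ?_⟩
      rw [← map_div₀]
      exact fun h2 => h1 ((isAlgebraic_algHom_iff M.i M.i.injective).1 h2)
    · intro x
      have h1 := alg_ext M.fin (big_of_gens hX hm₀1 hTg hq hu) x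
      have h2 : (Algebra.adjoin ℂ {w | ∃ i, ∃ f ∈ T i, ∃ g ∈ T i, g ≠ 0 ∧ w = f / g}).map M.i =
          Algebra.adjoin ℂ {w | ∃ i, ∃ f ∈ Z.S i, ∃ g ∈ Z.S i, g ≠ 0 ∧ w = f / g} := by
        rw [AlgHom.map_adjoin]
        congr 1
        ext w
        constructor
        · rintro ⟨_, ⟨i, f, hf, g, hg, hg0, rfl⟩, rfl⟩
          exact ⟨i, M.i f, Finset.mem_image_of_mem _ hf, M.i g, Finset.mem_image_of_mem _ hg,
            (map_ne_zero M.i).2 hg0, map_div₀ M.i f g⟩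
        · rintro ⟨i, f, hf, g, hg, hg0, rfl⟩
          obtain ⟨f', hf', rfl⟩ := Finset.mem_image.1 hf
          obtain ⟨g', hg', rfl⟩ := Finset.mem_image.1 hg
          exact ⟨f' / g', ⟨i, f', hf', g', hg', fun h => hg0 (by rw [h, map_zero]), rfl⟩,
            map_div₀ M.i f' g'⟩
      rwa [h2] at h1
  · intro v f
    have h1 := Y.sec_iff hW v (M.i f)
    rw [← pb_prodE] at h1
    have h2 : M.i f ∈ Sec M.Y' (pb M.i X (∏ i, N i ^ v i)) ↔ f ∈ Sec X (∏ i, N i ^ v i) :=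
      ⟨sec_of_pb hmor hX.normal (car_prod _ fun i _ => car_pow (hN i) _), sec_pb hmor⟩
    rw [← h2, ← h1]
    exact forall_congr' fun a => by rw [hZA]

end Pool.Agent.KM
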