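import Pool.Agent.Lib.MP_732f67_ag.G2.PreE
import Pool.Agent.Lib.MP_732f67_ag.N.MdX

/-!
The canonical divisor and the polarization on the charts of a Galois model of a klt Fano variety.
-/

namespace Pool.Agent.KM

variable {L : Type} [Field L] [Algebra ℂ L] {n r : ℕ}

section

variable {E : Type} [Field E] [Algebra ℂ E] {J : Type} [Fintype J]
  {W : Set (Subalgebra ℂ E)} {B : J → Subalgebra ℂ E → Eˣ} {Δ : Fin n → Derivation ℂ E E}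
  {κ : Subalgebra ℂ E → Eˣ} {N : Fin r → Subalgebra ℂ E → Eˣ} {m₀ : ℕ}
  {T T' : Fin r → Finset E} {DD : Subalgebra ℂ E → Eˣ} (Y : PreE W B Δ κ N m₀ T T' DD)

include Y in
/-- products of powers of the local equations of the boundary at a point of a chart -/
theorem PreE.un_prod_eps {a : Fin Y.k} {Q : Subalgebra ℂ E} (hQ : Q ∈ W) (ha : Y.A a ≤ Q)
    (e : J → ℤ) : Un Q ((∏ j, (B j Q : E) ^ e j) / ∏ j, eps (Y.x a) (Y.co a j) ^ e j) := by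
  rw [← Finset.prod_div_distrib]
  refine Un.prod _ fun j _ => ?_
  rw [← div_zpow]
  exact ((Y.nb a).eqn j Q hQ ha).zpow _

theorem PreE.un_prod_d {a : Fin Y.k} {Q : Subalgebra ℂ E} (hQ : Q ∈ W) (ha : Y.A a ≤ Q)
    (c : Fin r → ℕ) : Un Q ((∏ i, (N i Q : E) ^ c i) / ∏ i, Y.d a i ^ c i) := by
  rw [← Finset.prod_div_distrib]
  refine Un.prod _ fun i _ => ?_
  rw [← div_pow]
  exact ((Y.nb a).d_un i Q hQ ha).pow _

/-- The form `u η ^ q` has the divisor `- ∑ c i N i + ∑ e j B j`: `ν` is the pull back of `- m K_X` and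
`e j = q' e' j`, where `- f^* m K_X + m K_W = ∑ e' j B j`. -/
theorem PreE.can (hW : IsProj W) {m q' : ℕ} {c : Fin r → ℕ} {u : E}
    {ν : Subalgebra ℂ E → Eˣ} {e' : J → ℤ}
    (hν : ∀ Q ∈ W, Un Q ((ν Q : E) * (κ Q : E) ^ m / ∏ j, (B j Q : E) ^ e' j))
    (hu : ∀ Q ∈ W, Un Q (u * ((ν Q : E) ^ q')⁻¹ * ∏ i, (N i Q : E) ^ c i)) (a : Fin Y.k) :
    Un (Y.A a) (u * (nj Δ (Y.x a) ^ (m * q'))⁻¹ * (∏ i, Y.d a i ^ c i) *
      ∏ j, eps (Y.x a) (Y.co a j) ^ (-(q' * e' j))) := by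
  refine Y.un_of_pt hW a fun Q hQ ha => ?_
  have h1 := (hν Q hQ).pow q'
  have h2 := hu Q hQ
  have h3 := ((Y.nb a).can Q hQ ha).pow (m * q')
  have h4 := Y.un_prod_d hQ ha c
  have h5 := Y.un_prod_eps hQ ha fun j => q' * e' j
  have hB : ∏ j, (B j Q : E) ^ ((q' : ℤ) * e' j) = (∏ j, (B j Q : E) ^ e' j) ^ q' := by
    rw [← Finset.prod_pow]
    refine Finset.prod_congr rfl fun j _ => ?_
    rw [mul_comm, zpow_mul, zpow_natCast]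
  have hε : ∏ j, eps (Y.x a) (Y.co a j) ^ (-((q' : ℤ) * e' j)) =
      (∏ j, eps (Y.x a) (Y.co a j) ^ ((q' : ℤ) * e' j))⁻¹ := by
    rw [← Finset.prod_inv_distrib]
    refine Finset.prod_congr rfl fun j _ => ?_
    rw [zpow_neg]
  have z1 : ∏ j, (B j Q : E) ^ e' j ≠ 0 :=
    Finset.prod_ne_zero_iff.2 fun j _ => zpow_ne_zero _ (B j Q).ne_zero
  have z2 : ∏ i, (N i Q : E) ^ c i ≠ 0 :=
    Finset.prod_ne_zero_iff.2 fun i _ => pow_ne_zero _ (N i Q).ne_zero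
  have z3 : ∏ i, Y.d a i ^ c i ≠ 0 :=
    Finset.prod_ne_zero_iff.2 fun i _ => pow_ne_zero _ (Y.d_ne a i)
  have z4 : ∏ j, eps (Y.x a) (Y.co a j) ^ ((q' : ℤ) * e' j) ≠ 0 :=
    Finset.prod_ne_zero_iff.2 fun j _ => zpow_ne_zero _ (Y.eps_ne hW a j)
  have z5 := (ν Q).ne_zero
  have z6 := (κ Q).ne_zero
  have z7 : nj Δ (Y.x a) ≠ 0 := right_ne_zero_of_mul ((Y.nb a).can Q hQ ha).1
  have h6 := (((h2.mul h1).div h3).div h4).mul h5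
  rw [hB] at h6
  rw [hε]
  have h7 : u * ((ν Q : E) ^ q')⁻¹ * (∏ i, (N i Q : E) ^ c i) *
      ((ν Q : E) * (κ Q : E) ^ m / ∏ j, (B j Q : E) ^ e' j) ^ q' /
      ((κ Q : E) * nj Δ (Y.x a)) ^ (m * q') /
      ((∏ i, (N i Q : E) ^ c i) / ∏ i, Y.d a i ^ c i) *
      ((∏ j, (B j Q : E) ^ e' j) ^ q' /
        ∏ j, eps (Y.x a) (Y.co a j) ^ ((q' : ℤ) * e' j)) =
      u * (nj Δ (Y.x a) ^ (m * q'))⁻¹ * (∏ i, Y.d a i ^ c i) *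
        (∏ j, eps (Y.x a) (Y.co a j) ^ ((q' : ℤ) * e' j))⁻¹ := by
    rw [div_pow, mul_pow, mul_pow, ← pow_mul (κ Q : E)]
    field_simp
  rwa [h7] at h6

/-- The polarization on the charts, `DD = (ν ^ (a q') / ∏ B j ^ (b θ j)) ^ d`. -/
theorem PreE.pol (hW : IsProj W) {m q' : ℕ} {ν : Subalgebra ℂ E → Eˣ} {e' θ : J → ℤ}
    (hν : ∀ Q ∈ W, Un Q ((ν Q : E) * (κ Q : E) ^ m / ∏ j, (B j Q : E) ^ e' j))
    {a₁ b₁ d₁ : ℕ}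
    (hDD : ∀ Q ∈ W, Un Q ((DD Q : E) /
      ((ν Q : E) ^ (a₁ * q') / ∏ j, (B j Q : E) ^ (b₁ * θ j)) ^ d₁)) (a : Fin Y.k) :
    Un (Y.A a) (Y.z (Y.σ a) * nj Δ (Y.x a) ^ (d₁ * a₁ * (m * q')) *
      ∏ j, eps (Y.x a) (Y.co a j) ^ (d₁ * a₁ * (q' * e' j) - d₁ * b₁ * θ j)) := by
  refine Y.un_of_pt hW a fun Q hQ ha => ?_
  have h0 := Y.z_un a hQ ha
  have h1 := (hν Q hQ).pow (d₁ * a₁ * q')
  have h2 := hDD Q hQ
  have h3 := ((Y.nb a).can Q hQ ha).pow (d₁ * a₁ * (m * q'))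
  have h5 := Y.un_prod_eps hQ ha fun j => d₁ * a₁ * (q' * e' j) - d₁ * b₁ * θ j
  have z1 : ∏ j, (B j Q : E) ^ e' j ≠ 0 :=
    Finset.prod_ne_zero_iff.2 fun j _ => zpow_ne_zero _ (B j Q).ne_zero
  have z2 : ∏ j, (B j Q : E) ^ ((b₁ : ℤ) * θ j) ≠ 0 :=
    Finset.prod_ne_zero_iff.2 fun j _ => zpow_ne_zero _ (B j Q).ne_zero
  have z4 : ∏ j, eps (Y.x a) (Y.co a j) ^ ((d₁ : ℤ) * a₁ * (q' * e' j) - d₁ * b₁ * θ j) ≠ 0 :=
    Finset.prod_ne_zero_iff.2 fun j _ => zpow_ne_zero _ (Y.eps_ne hW a j)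
  have z5 := (ν Q).ne_zero
  have z6 := (κ Q).ne_zero
  have z7 : nj Δ (Y.x a) ≠ 0 := right_ne_zero_of_mul ((Y.nb a).can Q hQ ha).1
  have z8 := (DD Q).ne_zero
  have hB : ∏ j, (B j Q : E) ^ ((d₁ : ℤ) * a₁ * (q' * e' j) - d₁ * b₁ * θ j) =
      (∏ j, (B j Q : E) ^ e' j) ^ (d₁ * a₁ * q') /
        (∏ j, (B j Q : E) ^ ((b₁ : ℤ) * θ j)) ^ d₁ := by
    rw [← Finset.prod_pow, ← Finset.prod_pow, ← Finset.prod_div_distrib]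
    refine Finset.prod_congr rfl fun j _ => ?_
    rw [← zpow_natCast, ← zpow_natCast, ← zpow_mul, ← zpow_mul,
      ← zpow_sub₀ (B j Q).ne_zero]
    congr 1
    push_cast
    ring
  have h6 := (((h0.div h2).div h1).mul h3).div h5
  rw [hB] at h6
  have h7 : Y.z (Y.σ a) * (DD Q : E) /
      ((DD Q : E) / ((ν Q : E) ^ (a₁ * q') / ∏ j, (B j Q : E) ^ ((b₁ : ℤ) * θ j)) ^ d₁) /
      ((ν Q : E) * (κ Q : E) ^ m / ∏ j, (B j Q : E) ^ e' j) ^ (d₁ * a₁ * q') *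
      ((κ Q : E) * nj Δ (Y.x a)) ^ (d₁ * a₁ * (m * q')) /
      ((∏ j, (B j Q : E) ^ e' j) ^ (d₁ * a₁ * q') /
        (∏ j, (B j Q : E) ^ ((b₁ : ℤ) * θ j)) ^ d₁ /
        ∏ j, eps (Y.x a) (Y.co a j) ^ ((d₁ : ℤ) * a₁ * (q' * e' j) - d₁ * b₁ * θ j)) =
      Y.z (Y.σ a) * nj Δ (Y.x a) ^ (d₁ * a₁ * (m * q')) *
        ∏ j, eps (Y.x a) (Y.co a j) ^ ((d₁ : ℤ) * a₁ * (q' * e' j) - d₁ * b₁ * θ j) := by
    have e1 : ((ν Q : E) ^ (a₁ * q')) ^ d₁ = (ν Q : E) ^ (d₁ * a₁ * q') := by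
      rw [← pow_mul]
      congr 1
      ring
    have e2 : ((κ Q : E) ^ m) ^ (d₁ * a₁ * q') = (κ Q : E) ^ (d₁ * a₁ * (m * q')) := by
      rw [← pow_mul]
      congr 1
      ring
    rw [div_pow, div_pow, mul_pow, mul_pow, e1, e2]
    field_simp
  rwa [h7] at h6

end

end Pool.Agent.KM
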