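import Pool.Agent.Lib.MP_732f67_ag.G.VA

/-!
# Project KM: certificates from the nullstellensatz
-/

namespace Pool.Agent.KM

variable {E : Type} [Field E] [Algebra ℂ E]

/-- the local ring of `A` at the prime ideal `q` -/
def certLoc (A : Subalgebra ℂ E) (q : Ideal A) (hq : q.IsPrime) : Subalgebra ℂ E where
  carrier := {x | ∃ a b : A, b ∉ q ∧ x = a / b}
  mul_mem' := by
    rintro _ _ ⟨a, b, hb, rfl⟩ ⟨c, d, hd, rfl⟩
    exact ⟨a * c, b * d, fun h => (hq.mem_or_mem h).elim hb hd, by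
      rw [MulMemClass.coe_mul, MulMemClass.coe_mul, div_mul_div_comm]⟩
  add_mem' := by
    rintro _ _ ⟨a, b, hb, rfl⟩ ⟨c, d, hd, rfl⟩
    have hne : ∀ z : A, z ∉ q → (z : E) ≠ 0 := fun z hz h0 => hz (by
      have : z = 0 := Subtype.ext h0
      rw [this]
      exact q.zero_mem)
    exact ⟨a * d + b * c, b * d, fun h => (hq.mem_or_mem h).elim hb hd, by
      rw [AddMemClass.coe_add, MulMemClass.coe_mul, MulMemClass.coe_mul, MulMemClass.coe_mul,
        div_add_div _ _ (hne b hb) (hne d hd)]⟩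
  algebraMap_mem' c := ⟨algebraMap ℂ A c, 1, fun h => hq.ne_top (q.eq_top_of_isUnit_mem h isUnit_one),
    by rw [OneMemClass.coe_one, div_one]; rfl⟩

theorem certLoc_locAt (A : Subalgebra ℂ E) (q : Ideal A) (hq : q.IsPrime) :
    LocAt A (certLoc A q hq) := ⟨q, hq, fun _ => Iff.rfl⟩

theorem certLoc_un {A : Subalgebra ℂ E} {q : Ideal A} (hq : q.IsPrime) (a : A) :
    Un (certLoc A q hq) (a : E) ↔ a ∉ q := by
  constructor
  · rintro ⟨h1, -, c, d, hd, h⟩ ha
    apply hd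
    have hd0 : (d : E) ≠ 0 := fun h0 => hd (by
      have : d = 0 := Subtype.ext h0
      rw [this]
      exact q.zero_mem)
    have h2 : d = a * c := Subtype.ext (by
      rw [MulMemClass.coe_mul]
      field_simp at h
      rw [h])
    rw [h2]
    exact q.mul_mem_right _ ha
  · intro ha
    have h0 : (a : E) ≠ 0 := fun h0 => ha (by
      have : a = 0 := Subtype.ext h0
      rw [this]
      exact q.zero_mem)
    refine ⟨h0, ⟨a, 1, fun h => hq.ne_top (q.eq_top_of_isUnit_mem h isUnit_one), ?_⟩,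
      ⟨1, a, ha, ?_⟩⟩
    · rw [OneMemClass.coe_one, div_one]
    · rw [OneMemClass.coe_one, one_div]

/-- PROOF. `A` is noetherian. Let `I` be the ideal of `A` generated by the `g j`, `j ∈ s`. If `I = ⊤`
take `P = 1`. There are finitely many minimal primes `𝔮` of `I`
(`Ideal.finite_minimalPrimes_of_isNoetherianRing`), and `√I` is their intersection
(`Ideal.sInf_minimalPrimes`). For each of them the local ring `Q` of `A` at `𝔮` satisfies the hypothesis
of `h`: there is `P_𝔮 ≠ 0` such that `P_𝔮(r)` is not a unit of `Q`, so `P_𝔮(r) ∈ 𝔮`. The product `P` of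
the `P_𝔮` has `P(r) ∈ √I`, and a power of it has value in `I`
(`Submodule.mem_span_finset` or `Ideal.mem_span_range`). -/
theorem exists_cert {A : Subalgebra ℂ E} (hA : A.FG) {m : ℕ} {r : Fin m → E} (hr : ∀ k, r k ∈ A)
    {ι : Type} (s : Finset ι) {g : ι → E} (hg : ∀ j ∈ s, g j ∈ A)
    (h : ∀ Q, LocAt A Q → (∀ j ∈ s, ¬ Un Q (g j)) →
      ∃ P : MvPolynomial (Fin m) ℂ, P ≠ 0 ∧ ¬ Un Q (MvPolynomial.aeval r P)) :
    ∃ P : MvPolynomial (Fin m) ℂ, P ≠ 0 ∧ ∃ w : ι → E, (∀ j, w j ∈ A) ∧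
      MvPolynomial.aeval r P = ∑ j ∈ s, g j * w j := by
  classical
  have hN : IsNoetherianRing A := isNoetherianRing_of_fg hA
  set I : Ideal A := Ideal.span (Set.range fun j : s => (⟨g j, hg j j.2⟩ : A)) with hI
  have hfin : I.minimalPrimes.Finite := Ideal.finite_minimalPrimes_of_isNoetherianRing A I
  have hval : ∀ P : MvPolynomial (Fin m) ℂ,
      ((MvPolynomial.aeval (fun k => (⟨r k, hr k⟩ : A)) P : A) : E) = MvPolynomial.aeval r P := by
    intro P
    have h1 := MvPolynomial.aeval_algebraMap_apply (A := A) E (fun k => (⟨r k, hr k⟩ : A)) P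
    exact h1.symm
  have hex : ∀ q ∈ I.minimalPrimes, ∃ P : MvPolynomial (Fin m) ℂ, P ≠ 0 ∧
      MvPolynomial.aeval (fun k => (⟨r k, hr k⟩ : A)) P ∈ q := by
    intro q hq
    have hqp : q.IsPrime := hq.1.1
    obtain ⟨P, hP, hPu⟩ := h _ (certLoc_locAt A q hqp) (fun j hj hu => by
      have h2 := (certLoc_un hqp (⟨g j, hg j hj⟩ : A)).1 hu
      exact h2 (hq.1.2 (Ideal.subset_span ⟨⟨j, hj⟩, rfl⟩)))
    refine ⟨P, hP, ?_⟩
    by_contra hc
    apply hPu
    rw [← hval]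
    exact (certLoc_un hqp _).2 hc
  choose! Pq hPq0 hPq using hex
  set P₁ := ∏ q ∈ hfin.toFinset, Pq q with hP₁
  have hP₁0 : P₁ ≠ 0 := Finset.prod_ne_zero_iff.2 fun q hq => hPq0 q (hfin.mem_toFinset.1 hq)
  have hrad : MvPolynomial.aeval (fun k => (⟨r k, hr k⟩ : A)) P₁ ∈ I.radical := by
    rw [← Ideal.sInf_minimalPrimes, Submodule.mem_sInf]
    intro q hq
    rw [hP₁, map_prod]
    exact Ideal.prod_mem _ (hfin.mem_toFinset.2 hq) (hPq q hq)
  obtain ⟨N, hNI⟩ := hrad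
  rw [← map_pow, hI, Ideal.mem_span_range_iff_exists_fun] at hNI
  obtain ⟨c, hc⟩ := hNI
  refine ⟨P₁ ^ N, pow_ne_zero _ hP₁0, fun j => if hj : j ∈ s then (c ⟨j, hj⟩ : E) else 0, ?_, ?_⟩
  · intro j
    dsimp only
    split_ifs with hj
    · exact (c ⟨j, hj⟩).2
    · exact A.zero_mem
  · rw [← hval, ← hc, AddSubmonoidClass.coe_finsetSum]
    refine (Finset.sum_congr rfl fun j _ => ?_).trans
      (Finset.sum_coe_sort s fun j => g j * (if hj : j ∈ s then (c ⟨j, hj⟩ : E) else 0))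
    rw [MulMemClass.coe_mul, dif_pos j.2, mul_comm]

end Pool.Agent.KM
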