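import Pool.Agent.Lib.MP_732f67_ag.G2.RiL
import Pool.Agent.Lib.MP_732f67_ag.G2.Cert
import Pool.Agent.Lib.MP_732f67_ag.N.SnL

/-!
# Project KM: the boundary outside the charts of `X` is contracted
-/

namespace Pool.Agent.KM

variable {F : Type} [Field F] [Algebra ℂ F] {X : Set (Subalgebra ℂ F)}
  {G : Subgroup (F ≃ₐ[ℂ] F)} {n : ℕ} {D : Fin (n + 1) → Derivation ℂ F F} {Φ : Finset F}
  {H : Subalgebra ℂ F → Fˣ}

/-- PROOF. `exists_cert` for `ι = Option (M.F' × κ)`, `s = insertNone Hs`, `g none = ∏ j, ε j`,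
`g (some e) = e.1`. Let `Q` be a local ring of `A`, `Q ∈ M.Y'`, such that `∏ ε j` and the `e.1` are
non-units of `Q`, and suppose that all `aeval r P`, `P ≠ 0`, are units of `Q`: `RI Q r`. Some `ε j` is a
non-unit of `Q`, so `B j Q` is a non-unit (`hε`), so `Q ≤ M.P j` (`bd_le`, N/SnL), and
`LocAt Q (M.P j)` (`IsProj.locAt_of_le`). `ri_loc` (`Q` is local: `IsProj.isLocalRing`; the field `M.F'` has
transcendence degree `n + 1`: `M.base.dim`) gives `Q = M.P j`. Now `r k = M.i (ρ k)` with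
`ρ k ∈ cen M.i X Q`, so by `cen_prim` the center of `M.P j` is a prime divisor, and by `hlink` some
`e ∈ Hs` has `e.1` a unit of `M.P j = Q`, contradiction. (`M.mor : IsProj X → Mor M.i X M.Y'`.) -/
theorem codE (M : GMod (n + 1) X G D Φ H) (hX : IsProj X) (hn : Normal X)
    (hd : Algebra.trdeg ℂ F = (n + 1 : ℕ)) {A : Subalgebra ℂ M.F'} (hAfg : A.FG)
    (hA : ∀ Q, LocAt A Q ↔ Q ∈ M.Y' ∧ A ≤ Q) {ε : M.J → M.F'} (hεA : ∀ j, ε j ∈ A)
    (hε : ∀ j, ∀ Q ∈ M.Y', A ≤ Q → Un Q ((M.B j Q : M.F') / ε j))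
    {κ : Type} (Hs : Finset (M.F' × κ)) (hHs : ∀ e ∈ Hs, e.1 ∈ A)
    (hlink : ∀ j, A ≤ M.P j → PrimDiv (cen M.i X (M.P j)) → ∃ e ∈ Hs, Un (M.P j) e.1)
    {r : Fin n → M.F'} (hrA : ∀ k, r k ∈ A)
    (hr : ∀ k, ∃ ρ, r k = M.i ρ ∧ ∀ Q ∈ M.Y', A ≤ Q → ρ ∈ cen M.i X Q) :
    ∃ P : MvPolynomial (Fin n) ℂ, P ≠ 0 ∧ ∃ w₀ ∈ A, ∃ w : M.F' × κ → M.F', (∀ e, w e ∈ A) ∧
      MvPolynomial.aeval r P = (∏ j, ε j) * w₀ + ∑ e ∈ Hs, e.1 * w e := by
  classical
  let g : Option (M.F' × κ) → M.F' := fun o => o.elim (∏ j, ε j) fun e => e.1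
  have hg : ∀ o ∈ Finset.insertNone Hs, g o ∈ A := by
    rintro (_ | e) ho
    · exact A.prod_mem fun j _ => hεA j
    · exact hHs e (Finset.some_mem_insertNone.1 ho)
  obtain ⟨P, hP, w, hw, hval⟩ := exists_cert hAfg hrA (Finset.insertNone Hs) hg (by
    intro Q hQA hnu
    by_contra hcon
    have hri : RI Q r := by
      intro P hP
      by_contra hu
      exact hcon ⟨P, hP, hu⟩
    obtain ⟨hQ, hAQ⟩ := (hA Q).1 hQA
    have h0 : ¬ Un Q (∏ j, ε j) := hnu none (Finset.none_mem_insertNone)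
    obtain ⟨j, hj⟩ : ∃ j, ¬ Un Q (ε j) := by
      by_contra hc
      refine h0 (Un.prod _ fun j _ => ?_)
      by_contra hu
      exact hc ⟨j, hu⟩
    have hB : ¬ Un Q (M.B j Q) := by
      intro hu
      have h1 := hε j Q hQ hAQ
      have h2 := hu.div h1
      rw [div_div_cancel₀ (M.B j Q).ne_zero] at h2
      exact hj h2
    have hle : Q ≤ M.P j := ((bd_le M.bd M.snc hQ j).1).1 hB
    obtain ⟨hPj, hpj⟩ := M.bd.mem j
    have hprY := M.base.proj
    have hdim : Algebra.trdeg ℂ M.F' = (n + 1 : ℕ) := M.base.dim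
    have heq : Q = M.P j := ri_loc hdim (hprY.isLocalRing hQ) (hprY.locAt_of_le hQ hPj hle) hpj hri
    choose ρ hρ hρc using hr
    have hr' : r = fun k => M.i (ρ k) := funext hρ
    have hcp : PrimDiv (cen M.i X (M.P j)) := by
      refine cen_prim (M.mor hX) hn hd hPj hpj (ρ := ρ) (fun k => ?_) ?_
      · rw [← heq]
        exact hρc k Q hQ hAQ
      · rw [← heq, ← hr']
        exact hri
    obtain ⟨e, he, hu⟩ := hlink j (hAQ.trans hle) hcp
    refine hnu (some e) (Finset.some_mem_insertNone.2 he) ?_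
    rw [heq]
    exact hu)
  refine ⟨P, hP, w none, hw none, fun e => w (some e), fun e => hw (some e), ?_⟩
  rw [hval, Finset.sum_insertNone]
  rfl

end Pool.Agent.KM
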