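import Pool.Agent.Lib.MP_732f67_ag.T.AtY
import Pool.Agent.Lib.MP_732f67_ag.G.EqB

/-!
The atlas of a smooth Galois model of a klt Fano variety: definitions.

`E` is the function field of the model `Y'`, the subfield `L` is the function field of the klt Fano
variety `X`. The atlas `Y : AtD E n I` is the atlas of `Y'`, with the transcendence basis `t`, the
pluricanonical form, the local equations of the `M i` and their sections in `L`. In addition there are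
finitely many standard étale charts of `L`, without boundary: neighbourhoods of the generic
points of the prime divisors of `X` which are the images of the boundary divisors.
-/

namespace Pool.Agent.KM

open Polynomial

open Pool.Agent.Lib.MP_732f67_ag.KC (AJ)

variable {E : Type} [Field E] [Algebra ℂ E] {n : ℕ} {I : Type}

/-- `y` is a primitive element of `L` over `ℂ(t)`, integral over `ℂ[t]` -/
structure PrimL (L : IntermediateField ℂ E) (t : Fin n → E) (y : E) : Prop where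
  t_mem : ∀ i, t i ∈ L
  y_mem : y ∈ L
  int : ∃ f : (MvPolynomial (Fin n) ℂ)[X], f.Monic ∧ ev t y f = 0 ∧ ∀ g, ev t y g = 0 → f ∣ g
  gen : ∀ x ∈ L, ∃ (q : MvPolynomial (Fin n) ℂ) (g : (MvPolynomial (Fin n) ℂ)[X]), q ≠ 0 ∧
    MvPolynomial.aeval t q * x = ev t y g

/-- `A = k[x, y, u]` is a standard étale chart with field of fractions `L` -/
structure IsChL (L : IntermediateField ℂ E) (A : Subalgebra ℂ E) (x : Fin n → E) (y u : E) :
    Prop where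
  x_mem : ∀ i, x i ∈ L
  y_mem : y ∈ L
  ind : AlgebraicIndependent ℂ x
  pol : ∃ f : (MvPolynomial (Fin n) ℂ)[X], f.Monic ∧ Irreducible f ∧ ev x y f = 0 ∧
    ev x y f.derivative ≠ 0 ∧ (ev x y f.derivative)⁻¹ ∈ A
  u_ne : u ≠ 0
  u_inv : u⁻¹ ∈ Algebra.adjoin ℂ (Set.range x ∪ {y})
  A_eq : A = Algebra.adjoin ℂ (Set.range x ∪ {y, u})
  gen : ∀ a ∈ L, ∃ b ∈ Algebra.adjoin ℂ (Set.range x ∪ {y}),
    ∃ c ∈ Algebra.adjoin ℂ (Set.range x ∪ {y}), c ≠ 0 ∧ a = b / c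

/-- the additional data: the subfield `L`, a primitive element, the charts of `L` without boundary;
`H a` is a finite set of pairs `(h, b)`: the chart `a` localized at `h` lies over the chart `b` of `L` -/
structure AtL (Y : AtD E n I) where
  L : IntermediateField ℂ E
  yL : E
  k' : ℕ
  x' : Fin k' → Fin n → E
  y' : Fin k' → E
  u' : Fin k' → E
  d' : Fin k' → I → E
  H : Fin Y.k → Finset (E × Fin k')

namespace AtL

variable {Y : AtD E n I} (S : AtL Y)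

/-- the ring of the chart `b` of `L` -/
def A' (b : Fin S.k') : Subalgebra ℂ E :=
  Algebra.adjoin ℂ (Set.range (S.x' b) ∪ {S.y' b, S.u' b})

/-- `dx'_1 ∧ ... ∧ dx'_n = jac' * dt_1 ∧ ... ∧ dt_n` -/
noncomputable def jac' (b : Fin S.k') : E := (Matrix.of fun i l => Y.D i (S.x' b l)).det

/-- the properties of the additional data -/
structure Ok [Fintype I] : Prop where
  ok : Y.Ok
  fin : Module.Finite S.L E
  prim : PrimL S.L Y.t S.yL
  ω_mem : Y.ω ∈ S.L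
  d_mem : ∀ a i, Y.d a i ∈ S.L
  S_mem : ∀ i, ∀ f ∈ Y.S i, f ∈ S.L
  S'_mem : ∀ i, ∀ f ∈ Y.S' i, f ∈ S.L
  ch : ∀ b, IsChL S.L (S.A' b) (S.x' b) (S.y' b) (S.u' b)
  d'_ne : ∀ b i, S.d' b i ≠ 0
  d'_mem : ∀ b i, S.d' b i ∈ S.L
  can : ∀ b, Un (S.A' b) (Y.ω * (S.jac' b ^ Y.q)⁻¹ * ∏ i, S.d' b i ^ Y.c i)
  H_mem : ∀ a, ∀ e ∈ S.H a, e.1 ≠ 0 ∧ e.1 ∈ Y.A a
  H_le : ∀ a, ∀ e ∈ S.H a, ∀ f ∈ S.A' e.2, ∃ N : ℕ, f * e.1 ^ N ∈ Y.A a
  d'_trans : ∀ a b i, S.d' b i / Y.d a i ∈ Y.A a ⊔ S.A' b ∧ Y.d a i / S.d' b i ∈ Y.A a ⊔ S.A' b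
  /-- the part of the boundary outside the charts of `L` is contracted to codimension at least
  two -/
  cod : ∀ a, ∀ r : Fin (n - 1) → E,
    (∀ i, ∃ i' : I, ∃ f ∈ Y.S i', ∃ g ∈ Y.S i', Un (Y.A a) (g * Y.d a i' ^ Y.m) ∧ r i = f / g) →
    ∃ P : MvPolynomial (Fin (n - 1)) ℂ, P ≠ 0 ∧ ∃ w₀ ∈ Y.A a, ∃ w : E × Fin S.k' → E,
      (∀ e, w e ∈ Y.A a) ∧ MvPolynomial.aeval r P = (∏ j, Y.ε a j) * w₀ + ∑ e ∈ S.H a, e.1 * w e

end AtL

/-- the image of `L` modulo `p` -/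
def Lp {t : Fin n → E} {y0 : E} (R : Red E t y0) (yL : E) : Subfield R.F :=
  Subfield.closure (Set.range (algebraMap (ZMod R.p) R.F) ∪
    insert (R.r yL) (Set.range fun i => R.r (t i)))

/-- the equality data for one reduction, over the field `Lp R yL` -/
def EqDataL [Fintype I] [DecidableEq I] (Y : AtD E n I) (S : AtL Y) (J : Finset I)
    (R : Red E Y.t Y.y0) : Prop :=
  ∃ (K : Subfield (Lp R S.yL)) (Z : _root_.KM.Atl K (Fin Y.k) I),
    (∀ a (x : Lp R S.yL), x ∈ Z.A a ↔ (x : R.F) ∈ AJ (fun j => R.r (Y.z j)) Y.σ {a}) ∧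
    (∀ a i, (Z.d a i : R.F) = R.r (Y.d a i)) ∧
    (∀ i, ∃ j ∈ J, ∃ g, g ≠ 0 ∧ g ∈ Z.V (_root_.KM.e i 1 - _root_.KM.e j 1) ∧
      g⁻¹ ∈ Z.V (_root_.KM.e j 1 - _root_.KM.e i 1)) ∧
    (∀ u ∈ _root_.KM.Nn J, Module.finrank K (Z.V u) = ∏ j ∈ J, ((u j).toNat + 1)) ∧
    ∀ s₀ s₁ : I → Lp R S.yL, (∀ j ∈ J, s₀ j ∈ Z.V (_root_.KM.e j 1) ∧
      s₁ j ∈ Z.V (_root_.KM.e j 1) ∧ s₀ j ≠ 0 ∧ s₁ j / s₀ j ∉ K) →
      AlgebraicIndependent K (fun j : J => s₁ j / s₀ j)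

/-- the theorem on the atlas -/
def TThmL : Prop :=
  ∀ (E : Type) [Field E] [Algebra ℂ E] (n r : ℕ) (Y : AtD E n (Fin r)) (S : AtL Y), S.Ok → 0 < Y.N →
    ∑ i, (Y.c i : ℝ) / Y.q ≤ 2 * n ∧ (∑ i, (Y.c i : ℝ) / Y.q = 2 * n →
      ∀ P, Ev Y.t Y.y0 P → ∃ R, P R ∧ ∃ J : Finset (Fin r), J.card = n ∧ EqDataL Y S J R)

/-- the sections of `∑ v i M i` over `ℂ`, in the field `L` -/
def V0L [Fintype I] (Y : AtD E n I) (L : IntermediateField ℂ E) (v : I → ℤ) : Submodule ℂ E :=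
  V0 Y v ⊓ Subalgebra.toSubmodule L.toSubalgebra

/-- the sections modulo `p` in the image of `L` -/
def VRL [Fintype I] (Y : AtD E n I) (yL : E) (R : Red E Y.t Y.y0) (v : I → ℤ) : Set R.F :=
  VR Y R v ∩ Lp R yL

end Pool.Agent.KM
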