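import Pool.Agent.Lib.MP_732f67_ag.G2.DvS
import Pool.Agent.Lib.MP_732f67_ag.G.AtEx

/-!
# Project KM: standard étale charts at the prime divisors of a normal variety
-/

namespace Pool.Agent.KM

/-- the local rings of a basic open set -/
theorem Bn.loc {L : Type} [Field L] [Algebra ℂ L] {V : Submodule ℂ L} {O A : Subalgebra ℂ L}
    (h : Bn V O A) (O' : Subalgebra ℂ L) : LocAt A O' ↔ O' ∈ Pts V ∧ A ≤ O' := by
  obtain ⟨e, g, he, hg, hg0, rfl, hle⟩ := h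
  constructor
  · intro h1
    refine ⟨?_, h1.le⟩
    rw [← Pts_pow V he]
    exact ⟨g, hg, hg0, h1⟩
  · rintro ⟨h1, h2⟩
    exact Bn.locAt h1 ⟨e, g, he, hg, hg0, rfl, h2⟩

variable {F : Type} [Field F] [Algebra ℂ F] {X : Set (Subalgebra ℂ F)} {O : Subalgebra ℂ F} {n : ℕ}

/-- a standard étale chart at a prime divisor of `X`, which contains given elements of `O` -/
theorem exists_dvb (hX : IsProj X) (hd : Algebra.trdeg ℂ F = (n + 1 : ℕ)) (hO : O ∈ X)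
    (hp : PrimDiv O) {π : F} (hπ : Unif O π) {t : Fin n → F} (ht : RI O t) (T : Finset F)
    (hT : ∀ s ∈ T, s ∈ O) :
    ∃ (A : Subalgebra ℂ F) (y u : F), IsCh A (Fin.cons π t : Fin (n + 1) → F) y u ∧ A ≤ O ∧
      A.FG ∧ (∀ s ∈ T, s ∈ A) ∧ ∀ Q, LocAt A Q ↔ Q ∈ X ∧ A ≤ Q := by
  classical
  obtain ⟨W, hW, hW0, hWfr, rfl⟩ := id hX
  obtain ⟨hsm, x, hx, b, hb⟩ := prim_smooth hd hp hπ ht
  have hxx : (fun i => (x i : F)) = (Fin.cons π t : Fin (n + 1) → F) := funext hx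
  obtain ⟨w, A0, hw, hw0, hA0, hBn0, hloc0⟩ := exists_bn hO
  have hA0fg : A0.FG := hA0 ▸ cht_fg hW w
  have hfr0 : FracEq A0 := nb_frac hloc0 (hX.fracEq hO)
  obtain ⟨h, hh, hh0, hhO, y, v, hch⟩ := exists_isCh hA0fg hfr0 hloc0 hsm x b hb
  rw [hxx] at hch
  have hBn1 := hBn0.away hh hh0 hhO
  set A1 : Subalgebra ℂ F := Algebra.adjoin ℂ ((A0 : Set F) ∪ {h⁻¹}) with hA1
  obtain ⟨q, hq1, hq0, hqO, hqT⟩ := hBn1.shrink hO T hT
  have hBn2 := hBn1.away hq1 hq0 hqO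
  obtain ⟨v', hch'⟩ := hch.away hq1 hq0
  obtain ⟨e, g, he, hg, hg0, hAg, hAO⟩ := id hBn2
  refine ⟨_, y, v', hch', hAO, ?_, hqT, hBn2.loc⟩
  rw [hch'.A_eq]
  exact Subalgebra.fg_def.2 ⟨_, (Set.finite_range _).union (Set.toFinite _), rfl⟩

/-- a chart at a prime divisor of `X`, with local equations `δ i` of the `M i`, where the canonical
equation holds -/
theorem exists_dvk {r : ℕ} (hX : IsProj X) (hd : Algebra.trdeg ℂ F = (n + 1 : ℕ))
    {D : Fin (n + 1) → Derivation ℂ F F} (hD : LinearIndependent F D) {m : ℕ}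
    {κ : Subalgebra ℂ F → Fˣ} (hκ : IsCan X D m κ) {M : Fin r → Subalgebra ℂ F → Fˣ}
    (hM : ∀ i, IsCar X (M i)) {q' : ℕ} {c : Fin r → ℕ} {u : Fˣ} (hu : QDec X κ q' c u M)
    (hO : O ∈ X) (hp : PrimDiv O) :
    ∃ (A : Subalgebra ℂ F) (x : Fin (n + 1) → F) (y v : F) (δ : Fin r → F), IsCh A x y v ∧ A ≤ O ∧
      A.FG ∧ (∀ Q, LocAt A Q ↔ Q ∈ X ∧ A ≤ Q) ∧ (∀ i, δ i ≠ 0) ∧
      (∀ i, ∀ Q ∈ X, A ≤ Q → Un Q ((M i Q : F) / δ i)) ∧
      Un A ((u : F) * (nj D x ^ (m * q'))⁻¹ * ∏ i, δ i ^ c i) := by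
  classical
  obtain ⟨π, hπ⟩ : ∃ π, Unif O π := by
    obtain ⟨x, hx0, hx⟩ := exists_oD hp 1
    obtain ⟨π, hπ, -⟩ := oD_spec hp hx0
    exact ⟨π, hπ⟩
  obtain ⟨t, ht⟩ := exists_ri hd hp
  set x : Fin (n + 1) → F := Fin.cons π t with hx
  have hj : nj D x ≠ 0 := nj_ne (tb_of_ri hd hπ ht) hD
  have hcan : Un O ((κ O : F) * nj D x ^ m) := by
    have h2 := hκ.2 O hO hp _ (ordF_of_ri hd hp hπ ht hD)
    have hκ0 := (κ O).ne_zero
    rw [← oD_zero hp (mul_ne_zero hκ0 (pow_ne_zero _ hj)), oD_mul hp hκ0 (pow_ne_zero _ hj),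
      oD_pow hp hj, oD_eq hp h2]
    ring
  choose S hS1 hS2 using fun i => hM i O hO
  set φ : F := (u : F) * (nj D x ^ (m * q'))⁻¹ * ∏ i, (M i O : F) ^ c i with hφ
  have hφu : Un O φ := by
    have h3 := (hu O hO).mul (hcan.pow q').inv
    have h4 : φ = ((u * κ O ^ q' * ∏ i, M i O ^ c i : Fˣ) : F) *
        ((((κ O : F) * nj D x ^ m) ^ q'))⁻¹ := by
      have hκ0 := (κ O).ne_zero
      rw [hφ]
      push_cast
      rw [mul_pow, ← pow_mul]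
      field_simp
    rw [h4]
    exact h3
  obtain ⟨A, y, v, hch, hAO, hfg, hT, hloc⟩ := exists_dvb hX hd hO hp hπ ht
    ((Finset.univ.biUnion S) ∪ {φ, φ⁻¹}) (by
      intro s hs
      simp only [Finset.mem_union, Finset.mem_biUnion, Finset.mem_univ, true_and,
        Finset.mem_insert, Finset.mem_singleton] at hs
      rcases hs with ⟨i, hi⟩ | rfl | rfl
      · exact hS1 i s hi
      · exact hφu.2.1
      · exact hφu.2.2)
  refine ⟨A, x, y, v, fun i => (M i O : F), hch, hAO, hfg, hloc, fun i => (M i O).ne_zero, ?_,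
    ?_⟩
  · intro i Q hQ hAQ
    have h1 : Un Q ((M i O / M i Q : Fˣ) : F) := by
      refine hS2 i Q hQ fun s hs => hAQ (hT s ?_)
      simp only [Finset.mem_union, Finset.mem_biUnion, Finset.mem_univ, true_and]
      exact Or.inl ⟨i, hs⟩
    have h2 := h1.inv
    rwa [Units.val_div_eq_div_val, inv_div] at h2
  · show Un A φ
    refine ⟨hφu.1, hT _ ?_, hT _ ?_⟩
    · simp
    · simp

end Pool.Agent.KM
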