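import Pool.Agent.Lib.MP_732f67_ag.G2.PdS
import Pool.Agent.Lib.MP_732f67_ag.N.FrO
import Pool.Agent.Lib.MP_732f67_ag.N.PrC

/-!
# Project KM: a prime divisor is smooth over `ℂ`
-/

namespace Pool.Agent.KM

open scoped KaehlerDifferential

variable {F : Type} [Field F] [Algebra ℂ F] {O : Subalgebra ℂ F} {n : ℕ}

/-- **a prime divisor is étale over the affine space**, with the coordinates `π` (a uniformizer) and
`t` (residually algebraically independent) -/
theorem dv_smooth (hd : Algebra.trdeg ℂ F = (n + 1 : ℕ)) (hO : PrimDiv O) {π : F} (hπ : Unif O π)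
    {t : Fin n → F} (ht : RI O t) :
    Algebra.FormallySmooth ℂ O ∧
      ∃ x : Fin (n + 1) → O, (∀ l, (x l : F) = (Fin.cons π t : Fin (n + 1) → F) l) ∧
        ∃ b : Module.Basis (Fin (n + 1)) O Ω[O⁄ℂ], ∀ l, b l = KaehlerDifferential.D ℂ O (x l) :=
  prim_smooth hd hO hπ ht

end Pool.Agent.KM
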