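import Pool.Agent.Lib.MP_732f67_ag.G2.EqLift
import Pool.Agent.Lib.MP_732f67_ag.G.EqD

/-!
The equality case over the subfield `L`: from the equality data modulo `p` to the sections in `L`.
-/

namespace Pool.Agent.KM

open Pool.Agent.Lib.MP_732f67_ag
open Pool.Agent.Lib.MP_732f67_ag.KC (AJ)

variable {E : Type} [Field E] [Algebra ℂ E] {n : ℕ} {I : Type} [Fintype I] [DecidableEq I]
  {Y : AtD E n I} {S : AtL Y} {J : Finset I}

omit [DecidableEq I] in
theorem V0L.mul (hY : Y.Ok) {L : IntermediateField ℂ E} {v w : I → ℤ} {f g : E}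
    (hf : f ∈ V0L Y L v) (hg : g ∈ V0L Y L w) : f * g ∈ V0L Y L (v + w) :=
  ⟨V0.mul hY hf.1 hg.1, L.mul_mem hf.2 hg.2⟩

omit [DecidableEq I] in
/-- the reduction of a section in `L` -/
theorem ev_V0L (hS : S.Ok) {v : I → ℤ} {f : E} (hf : f ∈ V0L Y S.L v) :
    Ev Y.t Y.y0 fun R => R.r f ∈ VRL Y S.yL R v :=
  ((ev_V0 hS.ok hf.1).and (ev_memLp hS.ok.prim.basis hS.prim hf.2)).mono fun _ hR => hR

/-- the equality data in characteristic zero -/
structure EqCL (Y : AtD E n I) (L : IntermediateField ℂ E) (J : Finset I) (s₀ s₁ : I → E) :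
    Prop where
  ne : ∀ j ∈ J, s₀ j ≠ 0
  mem : ∀ j ∈ J, s₀ j ∈ L ∧ s₁ j ∈ L
  alg : AlgebraicIndependent ℂ (fun j : J => s₁ j / s₀ j)
  sec : ∀ u : I → ℕ, (∀ i ∉ J, u i = 0) →
    V0L Y L (fun i => (u i : ℤ)) = ∏ j ∈ J, (Submodule.span ℂ {s₀ j, s₁ j}) ^ u j
  link : ∀ i, ∃ j ∈ J, ∃ g, g ≠ 0 ∧ g ∈ V0L Y L (_root_.KM.e i 1 - _root_.KM.e j 1) ∧
    g⁻¹ ∈ V0L Y L (_root_.KM.e j 1 - _root_.KM.e i 1)

/-- independence and generation over a prime field `K`, in a subfield -/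
theorem prime_spanL {F : Type*} [Field F] {p : ℕ} [Fact p.Prime] [Algebra (ZMod p) F]
    {Q : Subfield F} {K : Subfield Q}
    (hK : ∀ x ∈ K, ∃ c : ZMod p, (x : F) = algebraMap (ZMod p) F c) {s : ℕ} {w : Fin s → Q}
    (hw : LinearIndependent (ZMod p) fun i => (w i : F)) {V : Submodule K Q} (hV : ∀ i, w i ∈ V)
    (hV' : ∀ f ∈ V, (f : F) ∈ Submodule.span (ZMod p) (Set.range fun i => (w i : F))) :
    LinearIndependent K w ∧ V = Submodule.span K (Set.range w) := by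
  have hmem : ∀ c : ZMod p, ∃ x ∈ K, (x : F) = algebraMap (ZMod p) F c := fun c => by
    obtain ⟨k, rfl⟩ := ZMod.intCast_surjective c
    refine ⟨(k : Q), intCast_mem K k, ?_⟩
    rw [map_intCast]
    rfl
  constructor
  · rw [Fintype.linearIndependent_iff]
    intro g hg i
    choose c hc using fun i => hK (g i) (g i).2
    have h1 : ∑ i, c i • (w i : F) = 0 := by
      have h3 := congrArg (Subfield.subtype Q) hg
      rw [map_sum, map_zero] at h3
      rw [← h3]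
      refine Finset.sum_congr rfl fun i _ => ?_
      rw [Algebra.smul_def, ← hc i]
      rfl
    have h2 := Fintype.linearIndependent_iff.1 hw c h1 i
    apply Subtype.ext
    apply Subtype.ext
    rw [hc i, h2, map_zero]
    rfl
  · apply le_antisymm
    · intro f hf
      obtain ⟨c, hc⟩ := (Submodule.mem_span_range_iff_exists_fun (ZMod p)).1 (hV' f hf)
      choose x hxK hx using fun i => hmem (c i)
      have h2 : f = ∑ i, (⟨x i, hxK i⟩ : K) • w i := by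
        apply Subtype.ext
        rw [← hc, ← Subfield.coe_subtype, map_sum]
        refine Finset.sum_congr rfl fun i _ => ?_
        rw [Algebra.smul_def, ← hx i]
        rfl
      rw [h2]
      exact Submodule.sum_mem _ fun i _ => Submodule.smul_mem _ _
        (Submodule.subset_span ⟨i, rfl⟩)
    · rw [Submodule.span_le]
      rintro _ ⟨i, rfl⟩
      exact hV i

/-- algebraic independence over the prime field, in a subfield -/
theorem algInd_primeL {F : Type*} [Field F] {p : ℕ} [Fact p.Prime] [Algebra (ZMod p) F]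
    {Q : Subfield F} {K : Subfield Q} {ι : Type*} {x : ι → Q} (h : AlgebraicIndependent K x) :
    AlgebraicIndependent (ZMod p) fun i => (x i : F) := by
  have hmem : ∀ c : ZMod p, algebraMap (ZMod p) F c ∈ Q := fun c => by
    obtain ⟨k, rfl⟩ := ZMod.intCast_surjective c
    rw [map_intCast]
    exact intCast_mem Q k
  let φ₀ : ZMod p →+* Q := (algebraMap (ZMod p) F).codRestrict Q hmem
  have hmem' : ∀ c : ZMod p, φ₀ c ∈ K := fun c => by
    obtain ⟨k, rfl⟩ := ZMod.intCast_surjective c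
    rw [map_intCast]
    exact intCast_mem K k
  let φ : ZMod p →+* K := φ₀.codRestrict K hmem'
  have h1 : ∀ P : MvPolynomial ι (ZMod p), MvPolynomial.aeval (fun i => (x i : F)) P =
      ((MvPolynomial.aeval x (MvPolynomial.map φ P) : Q) : F) := fun P => by
    rw [MvPolynomial.aeval_def, MvPolynomial.aeval_def, MvPolynomial.eval₂_map,
      ← Subfield.coe_subtype, MvPolynomial.hom_eval₂]
    rfl
  rw [algebraicIndependent_iff]
  intro P hP
  rw [h1] at hP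
  have h2 := algebraicIndependent_iff.1 h _ (Subtype.ext hP)
  exact MvPolynomial.map_injective φ φ.injective (by rw [h2, map_zero])

omit [DecidableEq I] in
/-- a section of the atlas modulo `p` -/
theorem mem_ZL_iff {R : Red E Y.t Y.y0} {K : Subfield (Lp R S.yL)}
    {Z : _root_.KM.Atl K (Fin Y.k) I}
    (hA : ∀ a (x : Lp R S.yL), x ∈ Z.A a ↔ (x : R.F) ∈ AJ (fun j => R.r (Y.z j)) Y.σ {a})
    (hd : ∀ a i, (Z.d a i : R.F) = R.r (Y.d a i)) (v : I → ℤ) (f : Lp R S.yL) :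
    f ∈ Z.V v ↔ (f : R.F) ∈ VR Y R v := by
  have h1 : ∀ a, ((f * ∏ j, Z.d a j ^ v j : Lp R S.yL) : R.F) =
      (f : R.F) * ∏ i, R.r (Y.d a i) ^ v i := by
    intro a
    rw [← Subfield.coe_subtype, map_mul, map_prod]
    congr 1
    refine Finset.prod_congr rfl fun j _ => ?_
    rw [map_zpow₀, Subfield.coe_subtype, hd]
  show (∀ a, f * ∏ j, Z.d a j ^ v j ∈ Z.A a) ↔
    ∀ a, (f : R.F) * ∏ i, R.r (Y.d a i) ^ v i ∈ AJ (fun j => R.r (Y.z j)) Y.σ {a}
  refine forall_congr' fun a => ?_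
  rw [hA, h1]

omit [DecidableEq I] in
/-- the field `K` is the prime field -/
theorem prime_ofL {R : Red E Y.t Y.y0} {K : Subfield (Lp R S.yL)}
    {Z : _root_.KM.Atl K (Fin Y.k) I}
    (hA : ∀ a (x : Lp R S.yL), x ∈ Z.A a ↔ (x : R.F) ∈ AJ (fun j => R.r (Y.z j)) Y.σ {a})
    (hd : ∀ a i, (Z.d a i : R.F) = R.r (Y.d a i))
    (h0 : ∀ f ∈ VR Y R 0, ∃ c : ZMod R.p, f = algebraMap (ZMod R.p) R.F c) :
    ∀ x ∈ K, ∃ c : ZMod R.p, (x : R.F) = algebraMap (ZMod R.p) R.F c := by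
  intro x hx
  apply h0 x
  rw [← mem_ZL_iff hA hd]
  intro a
  have h1 : Z.eq a 0 = 1 := by
    unfold _root_.KM.Atl.eq
    exact Finset.prod_eq_one fun j _ => by rw [Pi.zero_apply, zpow_zero]
  rw [h1, mul_one]
  exact Z.le a x hx

/-- the dimension over `ℂ` is the dimension modulo `p` -/
theorem finrank_V0L (hS : S.Ok) (hN : 0 < Y.N)
    (h : ∀ P, Ev Y.t Y.y0 P → ∃ R, P R ∧ EqDataL Y S J R) {u : I → ℤ} (hu : u ∈ _root_.KM.Nn J) :
    Module.finrank ℂ (V0L Y S.L u) = ∏ j ∈ J, ((u j).toNat + 1) := by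
  obtain ⟨s, w, hw, hspan, hev⟩ := exists_liftL hS hN u
  have hwV : ∀ i, w i ∈ V0L Y S.L u := fun i => by
    rw [← hspan]
    exact Submodule.subset_span ⟨i, rfl⟩
  obtain ⟨R, ⟨⟨hli, hgen⟩, h0, hwR⟩, K, Z, hA, hd, -, h2, -⟩ := h _ (hev.and
    ((ev_VR_zero hS.ok hN).and (Ev.all fun i => ev_V0L hS (hwV i))))
  have hK := prime_ofL hA hd h0
  let w' : Fin s → Lp R S.yL := fun i => ⟨R.r (w i), (hwR i).2⟩
  obtain ⟨hl, hZ⟩ := prime_spanL hK (w := w') hli (V := Z.V u)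
    (fun i => (mem_ZL_iff hA hd u _).2 (hwR i).1)
    fun f hf => hgen f ⟨(mem_ZL_iff hA hd u f).1 hf, f.2⟩
  rw [← h2 u hu, hZ, finrank_span_eq_card hl, ← hspan, finrank_span_eq_card hw]

theorem exists_twoL (hS : S.Ok) (hN : 0 < Y.N)
    (h : ∀ P, Ev Y.t Y.y0 P → ∃ R, P R ∧ EqDataL Y S J R) {j : I} (hj : j ∈ J) :
    ∃ s₀ s₁ : E, V0L Y S.L (_root_.KM.e j 1) = Submodule.span ℂ {s₀, s₁} ∧ s₀ ≠ 0 ∧
      LinearIndependent ℂ ![s₀, s₁] := by
  obtain ⟨s, w, hw, hspan, -⟩ := exists_liftL hS hN (_root_.KM.e j 1)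
  have hu : (_root_.KM.e j 1 : I → ℤ) ∈ _root_.KM.Nn J := by
    refine ⟨fun i => ?_, fun i hi => ?_⟩
    · by_cases hij : i = j
      · subst hij
        rw [eqC_same]
        exact zero_le_one
      · rw [eqC_ne hij]
    · rw [eqC_ne]
      rintro rfl
      exact hi hj
  have h1 := finrank_V0L hS hN h hu
  rw [← hspan, finrank_span_eq_card hw, Fintype.card_fin, Finset.prod_eq_single j] at h1
  · rw [eqC_same] at h1
    subst h1
    refine ⟨w 0, w 1, ?_, hw.ne_zero 0, ?_⟩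
    · rw [← hspan]
      congr 1
      ext x
      simp [Fin.exists_fin_two, eq_comm]
    · have h2 : ![w 0, w 1] = w := by
        funext i
        fin_cases i <;> rfl
      rw [h2]
      exact hw
  · intro i _ hij
    rw [eqC_ne hij]
    rfl
  · exact fun h2 => absurd hj h2

theorem algInd_twoL (hS : S.Ok) (hN : 0 < Y.N)
    (h : ∀ P, Ev Y.t Y.y0 P → ∃ R, P R ∧ EqDataL Y S J R) {s₀ s₁ : I → E}
    (hs : ∀ j ∈ J, V0L Y S.L (_root_.KM.e j 1) = Submodule.span ℂ {s₀ j, s₁ j} ∧ s₀ j ≠ 0 ∧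
      LinearIndependent ℂ ![s₀ j, s₁ j]) :
    AlgebraicIndependent ℂ (fun j : J => s₁ j / s₀ j) := by
  classical
  have htr : ∀ j ∈ J, Transcendental ℂ (s₁ j / s₀ j) := by
    intro j hj
    by_contra hcon
    have h1 : IsAlgebraic ℂ (s₁ j / s₀ j) := not_not.1 hcon
    obtain ⟨c, hc⟩ := minpoly.mem_range_of_degree_eq_one ℂ _
      (IsAlgClosed.degree_eq_one_of_irreducible ℂ (minpoly.irreducible h1.isIntegral))
    have h2 := (LinearIndependent.pair_iff.1 (hs j hj).2.2) (-c) 1 (by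
      rw [Algebra.smul_def, map_neg, one_smul, hc]
      have := (hs j hj).2.1
      field_simp
      ring)
    exact one_ne_zero h2.2
  refine algInd_of (t := Y.t) (y := Y.y0) fun P hP => ?_
  have e1 : Ev Y.t Y.y0 fun R => ∀ j : J, R.r (s₀ j) ∈ VRL Y S.yL R (_root_.KM.e (j : I) 1) ∧
      R.r (s₁ j) ∈ VRL Y S.yL R (_root_.KM.e (j : I) 1) ∧ R.r (s₀ j) ≠ 0 ∧
      R.r (s₁ j / s₀ j) = R.r (s₁ j) / R.r (s₀ j) ∧
      Transcendental (ZMod R.p) (R.r (s₁ j / s₀ j)) := by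
    refine Ev.all fun j => ?_
    obtain ⟨h1, h2, -⟩ := hs j j.2
    have hm0 : s₀ j ∈ V0L Y S.L (_root_.KM.e (j : I) 1) := by
      rw [h1]
      exact Submodule.subset_span (by simp)
    have hm1 : s₁ j ∈ V0L Y S.L (_root_.KM.e (j : I) 1) := by
      rw [h1]
      exact Submodule.subset_span (by simp)
    refine (((ev_V0L hS hm0).and (ev_V0L hS hm1)).and (((ev_ne h2).and (ev_mem (s₁ j))).and
      (Pool.Agent.Lib.MP_732f67_ag.T.ev_transc hS.ok.prim.basis (htr j j.2)))).mono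
        fun R hR => ?_
    obtain ⟨⟨a1, a2⟩, ⟨⟨b1, b2, b3⟩, c1⟩, d1⟩ := hR
    refine ⟨a1, a2, b3, ?_, d1⟩
    rw [div_eq_mul_inv, div_eq_mul_inv, R.r_mul c1 b2, R.r_inv h2 b1 b2]
  obtain ⟨R, ⟨hPR, h0, hR⟩, K, Z, hA, hd, -, -, h3⟩ :=
    h _ (hP.and ((ev_VR_zero hS.ok hN).and e1))
  refine ⟨R, hPR, ?_⟩
  have hK := prime_ofL hA hd h0
  let σ₀ : I → Lp R S.yL := fun j => if hj : j ∈ J then ⟨R.r (s₀ j), (hR ⟨j, hj⟩).1.2⟩ else 0
  let σ₁ : I → Lp R S.yL := fun j => if hj : j ∈ J then ⟨R.r (s₁ j), (hR ⟨j, hj⟩).2.1.2⟩ else 0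
  have hσ₀ : ∀ j : J, (σ₀ j : R.F) = R.r (s₀ j) := fun j => by
    simp only [σ₀, dif_pos j.2]
  have hσ₁ : ∀ j : J, (σ₁ j : R.F) = R.r (s₁ j) := fun j => by
    simp only [σ₁, dif_pos j.2]
  have h4 := h3 σ₀ σ₁ fun j hj => by
    obtain ⟨a1, a2, a3, a4, a5⟩ := hR ⟨j, hj⟩
    refine ⟨(mem_ZL_iff hA hd _ _).2 ?_, (mem_ZL_iff hA hd _ _).2 ?_, ?_, fun h5 => ?_⟩
    · rw [hσ₀ ⟨j, hj⟩]
      exact a1.1
    · rw [hσ₁ ⟨j, hj⟩]
      exact a2.1
    · intro h5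
      apply a3
      rw [← hσ₀ ⟨j, hj⟩]
      show ((σ₀ j : Lp R S.yL) : R.F) = 0
      rw [h5]
      rfl
    · obtain ⟨c, hc⟩ := hK _ h5
      have h7 : R.r (s₁ j / s₀ j) = algebraMap (ZMod R.p) R.F c := by
        rw [a4, ← hσ₀ ⟨j, hj⟩, ← hσ₁ ⟨j, hj⟩]
        exact hc
      dsimp only at a5
      rw [h7] at a5
      exact a5 (isAlgebraic_algebraMap c)
  have h5 := algInd_primeL (p := R.p) h4
  have h7 : (fun j : J => R.r (s₁ j / s₀ j)) =
      fun j : J => ((σ₁ j / σ₀ j : Lp R S.yL) : R.F) := by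
    funext j
    rw [(hR j).2.2.2.1, ← hσ₀ j, ← hσ₁ j]
    rfl
  rw [h7]
  exact h5

/-- PROOF. `V0L.mul` gives `≥`; `finrank_V0L` and `finrank_prod_le` (a finite dimensional space). -/
theorem V0L_eq_prod (hS : S.Ok) (hN : 0 < Y.N)
    (h : ∀ P, Ev Y.t Y.y0 P → ∃ R, P R ∧ EqDataL Y S J R) {s₀ s₁ : I → E}
    (hs : ∀ j ∈ J, V0L Y S.L (_root_.KM.e j 1) = Submodule.span ℂ {s₀ j, s₁ j} ∧ s₀ j ≠ 0 ∧
      LinearIndependent ℂ ![s₀ j, s₁ j]) {u : I → ℕ} (hu : ∀ i ∉ J, u i = 0) :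
    V0L Y S.L (fun i => (u i : ℤ)) = ∏ j ∈ J, (Submodule.span ℂ {s₀ j, s₁ j}) ^ u j := by
  have hY := hS.ok
  have hfin : Module.Finite ℂ (V0L Y S.L fun i => (u i : ℤ)) := by
    obtain ⟨s, w, -, hspan, -⟩ := exists_liftL hS hN fun i => (u i : ℤ)
    rw [Module.Finite.iff_fg, ← hspan]
    exact Submodule.fg_span (Set.finite_range w)
  have hmul : ∀ (A B : Submodule ℂ E) (v w : I → ℤ), A ≤ V0L Y S.L v → B ≤ V0L Y S.L w →
      A * B ≤ V0L Y S.L (v + w) := fun A B v w hA hB =>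
    Submodule.mul_le.2 fun f hf g hg => V0L.mul hY (hA hf) (hB hg)
  have hone : (1 : Submodule ℂ E) ≤ V0L Y S.L 0 := by
    rw [Submodule.one_le]
    refine ⟨fun a => ?_, S.L.one_mem⟩
    have h1 : ∏ i, Y.d a i ^ ((0 : I → ℤ) i) = 1 :=
      Finset.prod_eq_one fun j _ => by rw [Pi.zero_apply, zpow_zero]
    rw [h1, mul_one]
    exact (Y.A a).one_mem
  have hpow : ∀ (A : Submodule ℂ E) (v : I → ℤ), A ≤ V0L Y S.L v →
      ∀ k : ℕ, A ^ k ≤ V0L Y S.L (k • v) := by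
    intro A v hA k
    induction k with
    | zero =>
      rw [pow_zero, zero_smul]
      exact hone
    | succ k ih =>
      rw [pow_succ, succ_nsmul]
      exact hmul _ _ _ _ ih hA
  have hprod : ∀ J' : Finset I, J' ⊆ J → (∏ j ∈ J', (Submodule.span ℂ {s₀ j, s₁ j}) ^ u j :
      Submodule ℂ E) ≤ V0L Y S.L (∑ j ∈ J', u j • (_root_.KM.e j 1 : I → ℤ)) := by
    intro J' hJ'
    induction J' using Finset.induction_on with
    | empty =>
      rw [Finset.prod_empty, Finset.sum_empty]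
      exact hone
    | insert j J' hj ih =>
      rw [Finset.prod_insert hj, Finset.sum_insert hj]
      exact hmul _ _ _ _ (hpow _ _ (hs j (hJ' (Finset.mem_insert_self j J'))).1.ge _)
        (ih ((Finset.subset_insert j J').trans hJ'))
  have hle := hprod J subset_rfl
  have hsum : ∑ j ∈ J, u j • (_root_.KM.e j 1 : I → ℤ) = fun i => (u i : ℤ) := by
    funext i
    rw [Finset.sum_apply]
    by_cases hi : i ∈ J
    · rw [Finset.sum_eq_single i]
      · rw [Pi.smul_apply, eqC_same]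
        simp
      · intro j _ hji
        rw [Pi.smul_apply, eqC_ne (Ne.symm hji), smul_zero]
      · exact fun h1 => absurd hi h1
    · rw [hu i hi, Finset.sum_eq_zero]
      · rfl
      · intro j hj
        have hij : i ≠ j := fun h1 => hi (h1 ▸ hj)
        rw [Pi.smul_apply, eqC_ne hij, smul_zero]
  rw [hsum] at hle
  symm
  apply Submodule.eq_of_le_of_finrank_le hle
  rw [finrank_V0L hS hN h (u := fun i => (u i : ℤ)) ⟨fun i => Int.natCast_nonneg _,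
    fun i hi => by
      show (u i : ℤ) = 0
      rw [hu i hi]
      rfl⟩]
  refine le_trans (le_of_eq ?_) (finrank_prod_le (fun j hj => (hs j hj).2.1)
    (algInd_twoL hS hN h hs) u)
  exact Finset.prod_congr rfl fun j _ => by rw [Int.toNat_natCast]

omit [DecidableEq I] in
/-- spaces of sections which are zero over `ℂ` are zero modulo `p` -/
theorem ev_V0L_zero (hS : S.Ok) (hN : 0 < Y.N) {v : I → ℤ} (h : ∀ f ∈ V0L Y S.L v, f = 0) :
    Ev Y.t Y.y0 fun R => ∀ f ∈ VRL Y S.yL R v, f = 0 := by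
  obtain ⟨s, w, hw, hspan, hev⟩ := exists_liftL hS hN v
  refine hev.mono fun R hR f hf => ?_
  have hs : s = 0 := by
    by_contra h0
    have h1 : w ⟨0, Nat.pos_of_ne_zero h0⟩ ∈ V0L Y S.L v := by
      rw [← hspan]
      exact Submodule.subset_span ⟨_, rfl⟩
    exact hw.ne_zero _ (h _ h1)
  subst hs
  have h2 := hR.2 f hf
  rw [Set.range_eq_empty, Submodule.span_empty, Submodule.mem_bot] at h2
  exact h2

theorem exists_linkL (hS : S.Ok) (hN : 0 < Y.N)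
    (h : ∀ P, Ev Y.t Y.y0 P → ∃ R, P R ∧ EqDataL Y S J R) (i : I) :
    ∃ j ∈ J, ∃ g, g ≠ 0 ∧ g ∈ V0L Y S.L (_root_.KM.e i 1 - _root_.KM.e j 1) ∧
      g⁻¹ ∈ V0L Y S.L (_root_.KM.e j 1 - _root_.KM.e i 1) := by
  have hY := hS.ok
  by_cases hcase : ∃ j ∈ J, (∃ g ∈ V0L Y S.L (_root_.KM.e i 1 - _root_.KM.e j 1), g ≠ 0) ∧
      ∃ g ∈ V0L Y S.L (_root_.KM.e j 1 - _root_.KM.e i 1), g ≠ 0
  · obtain ⟨j, hj, ⟨g₁, h1, h1'⟩, g₂, h2, h2'⟩ := hcase
    have h3 := V0L.mul hY h1 h2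
    rw [sub_add_sub_cancel, sub_self] at h3
    obtain ⟨c, hc⟩ := V0_zero hY hN h3.1
    have hc0 : algebraMap ℂ E c ≠ 0 := by
      rw [← hc]
      exact mul_ne_zero h1' h2'
    refine ⟨j, hj, g₁, h1', h1, ?_⟩
    have h4 : g₁⁻¹ = c⁻¹ • g₂ := by
      rw [Algebra.smul_def, map_inv₀, ← hc, mul_inv]
      field_simp
    rw [h4]
    exact Submodule.smul_mem _ _ h2
  · push Not at hcase
    have e1 : Ev Y.t Y.y0 fun R => ∀ j ∈ J,
        (∀ f ∈ VRL Y S.yL R (_root_.KM.e i 1 - _root_.KM.e j 1), f = 0) ∨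
        (∀ f ∈ VRL Y S.yL R (_root_.KM.e j 1 - _root_.KM.e i 1), f = 0) := by
      refine Ev.all_mem J fun j hj => ?_
      by_cases h1 : ∃ g ∈ V0L Y S.L (_root_.KM.e i 1 - _root_.KM.e j 1), g ≠ 0
      · exact (ev_V0L_zero hS hN (hcase j hj h1)).mono fun R hR => Or.inr hR
      · push Not at h1
        exact (ev_V0L_zero hS hN h1).mono fun R hR => Or.inl hR
    obtain ⟨R, hR, K, Z, hA, hd, h1, -, -⟩ := h _ e1
    obtain ⟨j, hj, g, hg, hg1, hg2⟩ := h1 i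
    exfalso
    rcases hR j hj with h2 | h2
    · exact hg (Subtype.ext (h2 g ⟨(mem_ZL_iff hA hd _ _).1 hg1, g.2⟩))
    · exact inv_ne_zero hg (Subtype.ext (h2 _ ⟨(mem_ZL_iff hA hd _ _).1 hg2, (g⁻¹).2⟩))

/-- **the equality data in characteristic zero** -/
theorem exists_eqCL (hS : S.Ok) (hN : 0 < Y.N)
    (h : ∀ P, Ev Y.t Y.y0 P → ∃ R, P R ∧ EqDataL Y S J R) : ∃ s₀ s₁, EqCL Y S.L J s₀ s₁ := by
  classical
  have h1 : ∀ j, ∃ s : E × E, j ∈ J → V0L Y S.L (_root_.KM.e j 1) = Submodule.span ℂ {s.1, s.2} ∧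
      s.1 ≠ 0 ∧ LinearIndependent ℂ ![s.1, s.2] := by
    intro j
    by_cases hj : j ∈ J
    · obtain ⟨s₀, s₁, h1⟩ := exists_twoL hS hN h hj
      exact ⟨(s₀, s₁), fun _ => h1⟩
    · exact ⟨(0, 0), fun h2 => absurd h2 hj⟩
  choose s hs using h1
  obtain ⟨s₀, s₁, hs⟩ : ∃ s₀ s₁ : I → E, ∀ j ∈ J,
      V0L Y S.L (_root_.KM.e j 1) = Submodule.span ℂ {s₀ j, s₁ j} ∧ s₀ j ≠ 0 ∧
        LinearIndependent ℂ ![s₀ j, s₁ j] := ⟨fun j => (s j).1, fun j => (s j).2, hs⟩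
  refine ⟨s₀, s₁, fun j hj => (hs j hj).2.1, fun j hj => ⟨?_, ?_⟩, ?_, ?_, ?_⟩
  · have h2 : s₀ j ∈ V0L Y S.L (_root_.KM.e j 1) := by
      rw [(hs j hj).1]
      exact Submodule.subset_span (by simp)
    exact h2.2
  · have h2 : s₁ j ∈ V0L Y S.L (_root_.KM.e j 1) := by
      rw [(hs j hj).1]
      exact Submodule.subset_span (by simp)
    exact h2.2
  · exact algInd_twoL hS hN h hs
  · exact fun u hu => V0L_eq_prod hS hN h hs hu
  · exact exists_linkL hS hN h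

/-- the set `J` can be chosen independently of the reduction -/
theorem exists_JL (h : ∀ P, Ev Y.t Y.y0 P → ∃ R, P R ∧
      ∃ J : Finset I, J.card = n ∧ EqDataL Y S J R) :
    ∃ J : Finset I, J.card = n ∧ ∀ P, Ev Y.t Y.y0 P → ∃ R, P R ∧ EqDataL Y S J R := by
  classical
  by_contra hcon
  push Not at hcon
  have h1 : ∀ J : Finset I, ∃ P : Red E Y.t Y.y0 → Prop, Ev Y.t Y.y0 P ∧
      (J.card = n → ∀ R, P R → ¬ EqDataL Y S J R) := by
    intro J
    by_cases hJ : J.card = n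
    · obtain ⟨P, hP, hP'⟩ := hcon J hJ
      exact ⟨P, hP, fun _ => hP'⟩
    · exact ⟨fun _ => True, (ev_mem (0 : E)).mono fun _ _ => trivial, fun h => absurd h hJ⟩
  choose P hP hP' using h1
  obtain ⟨R, hR, J, hJ, hE⟩ := h (fun R => ∀ J, P J R) (Ev.all hP)
  exact hP' J hJ R (hR J) hE

end Pool.Agent.KM
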