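import Pool.Agent.Lib.MP_732f67_ag.T2.Deg

/-!
The equality case over the subfield `L`: the sections in `L` modulo `p` are the reductions of the
sections in `L`.
-/

namespace Pool.Agent.KM

open Polynomial
open Pool.Agent.Lib.MP_732f67_ag
open Pool.Agent.Lib.MP_732f67_ag.KC (AJ)

variable {E : Type} [Field E] [Algebra ℂ E] {n : ℕ}

section lin

variable {t : Fin n → E} {y0 yL : E} {L : IntermediateField ℂ E}

/-- the elements of `E` are polynomials in `y0` over `L` -/
theorem exists_polyL (hp : Prim t y0) (hL : PrimL L t yL) [hfin : Module.Finite L E] (x : E) :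
    ∃ P : L[X], P.natDegree < (minpoly L y0).natDegree ∧ Polynomial.aeval y0 P = x := by
  have hint : IsIntegral L y0 := IsIntegral.of_finite L y0
  have hm := minpoly.monic hint
  have hpos := minpoly.natDegree_pos hint
  obtain ⟨q, g, hq, hg⟩ := hp.gen x
  have hq' := aeval_ne hp.basis hq
  have hmem : ∀ p : MvPolynomial (Fin n) ℂ, (MvPolynomial.aeval t p : E) ∈ L := by
    intro p
    have h5 : (MvPolynomial.aeval t p : E) ∈ Algebra.adjoin ℂ (Set.range t) := by
      rw [Algebra.adjoin_range_eq_range_aeval]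
      exact ⟨p, rfl⟩
    have h6 : Algebra.adjoin ℂ (Set.range t) ≤ L.toSubalgebra := by
      refine Algebra.adjoin_le ?_
      rintro _ ⟨i, rfl⟩
      exact hL.t_mem i
    exact h6 h5
  obtain ⟨P, hP⟩ : ∃ P : L[X], Polynomial.aeval y0 P = x := by
    let φ : MvPolynomial (Fin n) ℂ →+* L :=
      (MvPolynomial.aeval t : MvPolynomial (Fin n) ℂ →ₐ[ℂ] E).toRingHom.codRestrict L hmem
    refine ⟨Polynomial.C (⟨_, inv_mem (hmem q)⟩ : L) * g.map φ, ?_⟩
    rw [map_mul, Polynomial.aeval_C, Polynomial.aeval_def, Polynomial.eval₂_map]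
    show (MvPolynomial.aeval t q : E)⁻¹ * g.eval₂
      (MvPolynomial.aeval t : MvPolynomial (Fin n) ℂ →ₐ[ℂ] E).toRingHom y0 = x
    rw [← hg, inv_mul_cancel_left₀ hq']
  refine ⟨P %ₘ minpoly L y0, Polynomial.natDegree_modByMonic_lt _ hm ?_, ?_⟩
  · intro h1
    rw [h1, Polynomial.natDegree_one] at hpos
    exact lt_irrefl _ hpos
  · have h1 := congrArg (Polynomial.aeval y0) (Polynomial.modByMonic_add_div P (minpoly L y0))
    rw [map_add, map_mul, minpoly.aeval, zero_mul, add_zero] at h1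
    rw [h1, hP]

/-- **the reductions of the elements of a finite dimensional space which lie in `Lp`** -/
theorem ev_sub (hp : Prim t y0) (hL : PrimL L t yL) [hfin : Module.Finite L E] {s : ℕ}
    (W : Fin s → E) :
    ∃ (s' : ℕ) (w : Fin s' → E), LinearIndependent ℂ w ∧
      Submodule.span ℂ (Set.range w) =
        Submodule.span ℂ (Set.range W) ⊓ Subalgebra.toSubmodule L.toSubalgebra ∧
      Ev t y0 fun R => LinearIndependent (ZMod R.p) (fun i => R.r (w i)) ∧
        (∀ i, R.r (w i) ∈ Lp R yL) ∧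
        ∀ f ∈ Submodule.span (ZMod R.p) (Set.range fun i => R.r (W i)), f ∈ Lp R yL →
          f ∈ Submodule.span (ZMod R.p) (Set.range fun i => R.r (w i)) := by
  classical
  set V : Submodule ℂ E := Submodule.span ℂ (Set.range W) with hV
  set LL : Submodule ℂ E := Subalgebra.toSubmodule L.toSubalgebra with hLL
  have hVf : Module.Finite ℂ V := Module.Finite.iff_fg.2 (Submodule.fg_span (Set.finite_range W))
  set A : Submodule ℂ E := V ⊓ LL with hA
  have hAV : A ≤ V := inf_le_left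
  obtain ⟨D, hD⟩ := exists_isCompl A
  set C : Submodule ℂ E := D ⊓ V with hC
  have hAC : A ⊓ C = ⊥ := by
    rw [eq_bot_iff]
    intro x hx
    have h1 := hD.inf_eq_bot
    rw [eq_bot_iff] at h1
    exact h1 ⟨hx.1, hx.2.1⟩
  have hACV : A ⊔ C = V := by
    rw [hC, ← sup_inf_assoc_of_le D hAV, hD.sup_eq_top, top_inf_eq]
  have hAf : Module.Finite ℂ A := Submodule.finiteDimensional_of_le hAV
  have hCf : Module.Finite ℂ C := Submodule.finiteDimensional_of_le inf_le_right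
  have hspan : ∀ (M : Submodule ℂ E) [Module.Finite ℂ M], ∃ (r : ℕ) (w : Fin r → E),
      LinearIndependent ℂ w ∧ Submodule.span ℂ (Set.range w) = M := by
    intro M _
    refine ⟨_, fun i => ((Module.finBasis ℂ M i : M) : E), ?_, ?_⟩
    · exact (Module.finBasis ℂ M).linearIndependent.map' M.subtype (Submodule.ker_subtype M)
    · have h1 := congrArg (Submodule.map M.subtype) (Module.finBasis ℂ M).span_eq
      rw [Submodule.map_span, ← Set.range_comp, Submodule.map_subtype_top] at h1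
      exact h1
  obtain ⟨s', w, hw, hwA⟩ := hspan A
  obtain ⟨r, U, hU, hUC⟩ := hspan C
  refine ⟨s', w, hw, hwA, ?_⟩
  have hwL : ∀ k, w k ∈ L := fun k => by
    have h1 : w k ∈ A := by
      rw [← hwA]
      exact Submodule.subset_span ⟨k, rfl⟩
    exact h1.2
  have hUmem : ∀ i, U i ∈ C := fun i => by
    rw [← hUC]
    exact Submodule.subset_span ⟨i, rfl⟩
  -- the coordinates of the `U i`
  choose P hPd hP using fun i => exists_polyL hp hL (U i)
  set d := (minpoly L y0).natDegree with hd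
  have hint : IsIntegral L y0 := IsIntegral.of_finite L y0
  have hdpos : 0 < d := minpoly.natDegree_pos hint
  have hUsum : ∀ i, U i = ∑ j ∈ Finset.range d, ((P i).coeff j : E) * y0 ^ j := by
    intro i
    rw [← hP i, Polynomial.aeval_eq_sum_range' (hPd i)]
    exact Finset.sum_congr rfl fun j _ => rfl
  let U' : Fin r → E := fun i => U i - ((P i).coeff 0 : E)
  have hU' : LinearIndependent ℂ U' := by
    rw [Fintype.linearIndependent_iff]
    intro a ha
    have h1 : ∑ i, a i • U i = ∑ i, a i • ((P i).coeff 0 : E) := by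
      rw [← sub_eq_zero, ← Finset.sum_sub_distrib, ← ha]
      exact Finset.sum_congr rfl fun i _ => (smul_sub _ _ _).symm
    have h2 : ∑ i, a i • U i ∈ C := sum_mem fun i _ => C.smul_mem _ (hUmem i)
    have h3 : ∑ i, a i • U i ∈ LL := by
      rw [h1]
      exact sum_mem fun i _ => LL.smul_mem _ (show ((P i).coeff 0 : E) ∈ L from (_ : L).2)
    have h4 : ∑ i, a i • U i ∈ A ⊓ C := ⟨⟨h2.2, h3⟩, h2⟩
    rw [hAC, Submodule.mem_bot] at h4
    exact Fintype.linearIndependent_iff.1 hU a h4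
  -- the `W j`
  have hWsum : ∀ j, ∃ (a : Fin s' → ℂ) (b : Fin r → ℂ),
      W j = ∑ k, a k • w k + ∑ i, b i • U i := by
    intro j
    have h1 : W j ∈ A ⊔ C := by
      rw [hACV]
      exact Submodule.subset_span ⟨j, rfl⟩
    obtain ⟨x, hx, y, hy, hxy⟩ := Submodule.mem_sup.1 h1
    rw [← hwA] at hx
    rw [← hUC] at hy
    obtain ⟨a, rfl⟩ := (Submodule.mem_span_range_iff_exists_fun ℂ).1 hx
    obtain ⟨b, rfl⟩ := (Submodule.mem_span_range_iff_exists_fun ℂ).1 hy
    exact ⟨a, b, hxy.symm⟩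
  choose a b hab using hWsum
  have e1 := T.ev_lin hp hw
  have e2 := T.ev_lin hp hU'
  have e3 : Ev t y0 fun R => ∀ k, R.r (w k) ∈ Lp R yL :=
    Ev.all fun k => ev_memLp hp.basis hL (hwL k)
  have e4 : Ev t y0 fun R => ∀ i, ∀ j ∈ Finset.range d,
      R.r ((P i).coeff j : E) ∈ Lp R yL ∧ ((P i).coeff j : E) ∈ R.Λ :=
    Ev.all fun i => Ev.all_mem _ fun j _ =>
      (ev_memLp hp.basis hL ((P i).coeff j).2).and (ev_mem _)
  have e5 : Ev t y0 fun R => (∀ j k, algebraMap ℂ E (a j k) ∈ R.Λ) ∧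
      (∀ j i, algebraMap ℂ E (b j i) ∈ R.Λ) ∧ (∀ i, U i ∈ R.Λ) :=
    (Ev.all fun j => Ev.all fun k => ev_mem _).and ((Ev.all fun j => Ev.all fun i => ev_mem _).and
      (Ev.all fun i => ev_mem _))
  refine ((e1.and e2).and ((e3.and e4).and (e5.and (ev_degL hp hL)))).mono fun R hR => ?_
  obtain ⟨⟨⟨hwΛ, hwi⟩, -, hUi⟩, ⟨hwLp, hPLp⟩, ⟨haΛ, hbΛ, hUΛ⟩, -, hdeg, -⟩ := hR
  refine ⟨hwi, hwLp, fun f hf hfL => ?_⟩
  have hsm : ∀ (c : ℂ) (x : E), algebraMap ℂ E c ∈ R.Λ → x ∈ R.Λ →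
      c • x ∈ R.Λ ∧ ∃ c' : ZMod R.p, R.r (c • x) = c' • R.r x := by
    intro c x hc hx
    rw [Algebra.smul_def]
    refine ⟨R.Λ.mul_mem hc hx, R.ψ ⟨c, hc⟩, ?_⟩
    rw [R.r_mul hc hx, Algebra.smul_def, ← R.ψ_spec]
  have h1 : Submodule.span (ZMod R.p) (Set.range fun i => R.r (W i)) ≤
      Submodule.span (ZMod R.p) (Set.range fun i => R.r (w i)) ⊔
        Submodule.span (ZMod R.p) (Set.range fun i => R.r (U i)) := by
    rw [Submodule.span_le]
    rintro _ ⟨j, rfl⟩
    show R.r (W j) ∈ _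
    rw [hab j, R.r_add (R.Λ.sum_mem fun k _ => (hsm _ _ (haΛ j k) (hwΛ k)).1)
      (R.Λ.sum_mem fun i _ => (hsm _ _ (hbΛ j i) (hUΛ i)).1),
      R.r_sum _ _ fun k _ => (hsm _ _ (haΛ j k) (hwΛ k)).1,
      R.r_sum _ _ fun i _ => (hsm _ _ (hbΛ j i) (hUΛ i)).1]
    refine Submodule.add_mem_sup (sum_mem fun k _ => ?_) (sum_mem fun i _ => ?_)
    · obtain ⟨c, hc⟩ := (hsm _ _ (haΛ j k) (hwΛ k)).2
      rw [hc]
      exact Submodule.smul_mem _ _ (Submodule.subset_span ⟨k, rfl⟩)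
    · obtain ⟨c, hc⟩ := (hsm _ _ (hbΛ j i) (hUΛ i)).2
      rw [hc]
      exact Submodule.smul_mem _ _ (Submodule.subset_span ⟨i, rfl⟩)
  obtain ⟨f1, hf1, f2, hf2, rfl⟩ := Submodule.mem_sup.1 (h1 hf)
  obtain ⟨α, hα⟩ := (Submodule.mem_span_range_iff_exists_fun (ZMod R.p)).1 hf1
  obtain ⟨β, hβ⟩ := (Submodule.mem_span_range_iff_exists_fun (ZMod R.p)).1 hf2
  have hcL : ∀ (c : ZMod R.p) (x : R.F), x ∈ Lp R yL → c • x ∈ Lp R yL := by
    intro c x hx
    rw [Algebra.smul_def]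
    exact mul_mem (Subfield.subset_closure (Or.inl ⟨c, rfl⟩)) hx
  have hf1L : f1 ∈ Lp R yL := by
    rw [← hα]
    exact sum_mem fun k _ => hcL _ _ (hwLp k)
  have hf2L : f2 ∈ Lp R yL := by
    have h2 : f1 + f2 - f1 ∈ Lp R yL := (Lp R yL).sub_mem hfL hf1L
    rwa [add_sub_cancel_left] at h2
  have h0d : 0 ∈ Finset.range d := Finset.mem_range.2 hdpos
  have hyΛ : y0 ∈ R.Λ := R.y_mem
  -- the coordinates modulo `p`
  have hrU : ∀ i, R.r (U i) = ∑ j ∈ Finset.range d, R.r ((P i).coeff j : E) * R.r y0 ^ j := by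
    intro i
    conv_lhs => rw [hUsum i]
    rw [R.r_sum _ _ fun j hj => R.Λ.mul_mem (hPLp i j hj).2 (R.Λ.pow_mem hyΛ j)]
    refine Finset.sum_congr rfl fun j hj => ?_
    rw [R.r_mul (hPLp i j hj).2 (R.Λ.pow_mem hyΛ j), R.r_pow hyΛ]
  have hrU' : ∀ i, R.r (U' i) = R.r (U i) - R.r ((P i).coeff 0 : E) := fun i =>
    R.r_sub (hUΛ i) (hPLp i 0 h0d).2
  set g : R.F := ∑ i, β i • R.r (U' i) with hg
  have hgf : g = f2 - ∑ i, β i • R.r ((P i).coeff 0 : E) := by
    rw [hg, ← hβ, ← Finset.sum_sub_distrib]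
    refine Finset.sum_congr rfl fun i _ => ?_
    rw [hrU' i, smul_sub]
  have hgL : g ∈ Lp R yL := by
    rw [hgf]
    exact sub_mem hf2L (sum_mem fun i _ => hcL _ _ (hPLp i 0 h0d).1)
  have hγ : ∀ j ∈ Finset.range d, ∑ i, β i • R.r ((P i).coeff j : E) ∈ Lp R yL := fun j hj =>
    sum_mem fun i _ => hcL _ _ (hPLp i j hj).1
  set Q : (Lp R yL)[X] := ∑ j ∈ (Finset.range d).attach.filter (fun j => j.1 ≠ 0),
    Polynomial.monomial j.1 (⟨_, hγ j.1 j.2⟩ : Lp R yL) - Polynomial.C ⟨g, hgL⟩ with hQ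
  have hQd : Q.natDegree < (minpoly (Lp R yL) (R.r y0)).natDegree := by
    rw [hdeg, ← hd]
    have h2 : Q.natDegree ≤ d - 1 := by
      rw [hQ]
      refine (Polynomial.natDegree_sub_le _ _).trans (max_le ?_ ?_)
      · refine Polynomial.natDegree_sum_le_of_forall_le _ _ fun j _ => ?_
        refine (Polynomial.natDegree_monomial_le _).trans ?_
        have := Finset.mem_range.1 j.2
        omega
      · rw [Polynomial.natDegree_C]
        exact Nat.zero_le _
    omega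
  have hQ0 : Polynomial.aeval (R.r y0) Q = 0 := by
    rw [hQ, map_sub, map_sum, Polynomial.aeval_C]
    have h2 : ∑ j ∈ (Finset.range d).attach.filter (fun j => j.1 ≠ 0),
        Polynomial.aeval (R.r y0) (Polynomial.monomial j.1 (⟨_, hγ j.1 j.2⟩ : Lp R yL)) =
        ∑ j ∈ (Finset.range d).erase 0,
          (∑ i, β i • R.r ((P i).coeff j : E)) * R.r y0 ^ j := by
      refine Finset.sum_bij (fun j _ => j.1) ?_ ?_ ?_ ?_
      · intro j hj
        exact Finset.mem_erase.2 ⟨(Finset.mem_filter.1 hj).2, j.2⟩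
      · intro j _ j' _ h
        exact Subtype.ext h
      · intro j hj
        obtain ⟨h3, h4⟩ := Finset.mem_erase.1 hj
        exact ⟨⟨j, h4⟩, Finset.mem_filter.2 ⟨Finset.mem_attach _ _, h3⟩, rfl⟩
      · intro j hj
        rw [Polynomial.aeval_monomial]
        rfl
    rw [h2, sub_eq_zero]
    show _ = g
    have h3 : ∀ i, R.r (U' i) = ∑ j ∈ (Finset.range d).erase 0,
        R.r ((P i).coeff j : E) * R.r y0 ^ j := by
      intro i
      rw [hrU' i, hrU i, ← Finset.add_sum_erase _ _ h0d, pow_zero, mul_one, add_sub_cancel_left]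
    rw [hg]
    simp only [h3, Finset.smul_sum, Finset.sum_mul]
    rw [Finset.sum_comm]
    exact Finset.sum_congr rfl fun j _ => Finset.sum_congr rfl fun i _ => (smul_mul_assoc _ _ _)
  have hQz : Q = 0 := by
    by_contra hne
    have h2 := Polynomial.natDegree_le_of_dvd (minpoly.dvd (Lp R yL) _ hQ0) hne
    omega
  have hg0 : g = 0 := by
    have h2 := congrArg (fun q : (Lp R yL)[X] => q.coeff 0) hQz
    simp only [hQ, Polynomial.coeff_sub, Polynomial.finsetSum_coeff, Polynomial.coeff_C_zero,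
      Polynomial.coeff_zero] at h2
    rw [Finset.sum_eq_zero, zero_sub, neg_eq_zero] at h2
    · exact congrArg Subtype.val h2
    · intro j hj
      rw [Polynomial.coeff_monomial, if_neg (Finset.mem_filter.1 hj).2]
  have hβ0 := Fintype.linearIndependent_iff.1 hUi β hg0
  have hf20 : f2 = 0 := by
    rw [← hβ]
    exact Finset.sum_eq_zero fun i _ => by rw [hβ0 i, zero_smul]
  rw [hf20, add_zero]
  exact hf1

end lin

variable {I : Type} [Fintype I] {Y : AtD E n I} {S : AtL Y}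

/-- **lifting of sections in `L`** -/
theorem exists_liftL (hS : S.Ok) (hN : 0 < Y.N) (v : I → ℤ) :
    ∃ (s : ℕ) (w : Fin s → E), LinearIndependent ℂ w ∧
      Submodule.span ℂ (Set.range w) = V0L Y S.L v ∧
      Ev Y.t Y.y0 fun R => LinearIndependent (ZMod R.p) (fun i => R.r (w i)) ∧
        ∀ f ∈ VRL Y S.yL R v,
          f ∈ Submodule.span (ZMod R.p) (Set.range fun i => R.r (w i)) := by
  have := hS.fin
  obtain ⟨s, W, -, hWspan, hWev⟩ := exists_lift hS.ok hN v
  obtain ⟨s', w, hw, hwspan, hwev⟩ := ev_sub hS.ok.prim hS.prim W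
  refine ⟨s', w, hw, ?_, (hWev.and hwev).mono fun R hR => ⟨hR.2.1, fun f hf => ?_⟩⟩
  · rw [hwspan, hWspan]
    rfl
  · exact hR.2.2.2 f (hR.1.2 f hf.1) hf.2

end Pool.Agent.KM
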