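import Pool.Agent.Lib.MP_732f67_ag.G2.EqL

/-!
The equality case over the subfield `L`: conclusion.
-/

namespace Pool.Agent.KM

variable {E : Type} [Field E] [Algebra ℂ E] {n : ℕ}

section

variable {I : Type} [Fintype I] [DecidableEq I] {Y : AtD E n I} {L : IntermediateField ℂ E}
  {J : Finset I} {s₀ s₁ : I → E}

omit [DecidableEq I] in
theorem EqM_one : (1 : E) ∈ V0L Y L 0 := ⟨EqD_one, L.one_mem⟩

omit [DecidableEq I] in
theorem EqM_pow (hY : Y.Ok) {w : I → ℤ} {f : E} (hf : f ∈ V0L Y L w) (m : ℕ) :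
    f ^ m ∈ V0L Y L (m • w) :=
  ⟨EqD_pow hY hf.1 m, show f ^ m ∈ L from pow_mem (show f ∈ L from hf.2) m⟩

omit [DecidableEq I] in
theorem EqM_prod (hY : Y.Ok) {κ : Type} (s : Finset κ) (w : κ → I → ℤ) (f : κ → E)
    (hf : ∀ i ∈ s, f i ∈ V0L Y L (w i)) : ∏ i ∈ s, f i ∈ V0L Y L (∑ i ∈ s, w i) :=
  ⟨EqD_prod hY s w f fun i hi => (hf i hi).1,
    show ∏ i ∈ s, f i ∈ L from prod_mem fun i hi => show f i ∈ L from (hf i hi).2⟩

/-- the sections of an arbitrary nonnegative combination -/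
theorem EqCL.sec_all (h : EqCL Y L J s₀ s₁) (hY : Y.Ok) (v : I → ℕ) :
    ∃ (G : E) (u : I → ℕ), G ≠ 0 ∧ G ∈ L ∧ (∀ j ∈ J, v j ≤ u j) ∧
      V0L Y L (fun i => (v i : ℤ)) =
        Submodule.span ℂ {G} * ∏ j ∈ J, (Submodule.span ℂ {s₀ j, s₁ j}) ^ u j := by
  have hlink : ∀ i, ∃ j ∈ J, (i ∈ J → j = i) ∧ ∃ g : E, g ≠ 0 ∧
      g ∈ V0L Y L (_root_.KM.e i 1 - _root_.KM.e j 1) ∧
      g⁻¹ ∈ V0L Y L (_root_.KM.e j 1 - _root_.KM.e i 1) := by
    intro i
    by_cases hi : i ∈ J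
    · refine ⟨i, hi, fun _ => rfl, 1, one_ne_zero, ?_, ?_⟩
      · rw [sub_self]
        exact EqM_one
      · rw [sub_self, inv_one]
        exact EqM_one
    · obtain ⟨j, hj, g, hg⟩ := h.link i
      exact ⟨j, hj, fun h1 => absurd h1 hi, g, hg⟩
  choose j hjJ hjj g hg0 hg1 hg2 using hlink
  have hG1 : ∏ i, g i ^ v i ∈ V0L Y L (∑ i, v i • (_root_.KM.e i 1 - _root_.KM.e (j i) 1)) :=
    EqM_prod hY _ _ _ fun i _ => EqM_pow hY (hg1 i) _
  have hG2 : (∏ i, g i ^ v i)⁻¹ ∈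
      V0L Y L (∑ i, v i • (_root_.KM.e (j i) 1 - _root_.KM.e i 1)) := by
    rw [← Finset.prod_inv_distrib]
    refine EqM_prod hY _ _ _ fun i _ => ?_
    rw [← inv_pow]
    exact EqM_pow hY (hg2 i) _
  have hG0 : ∏ i, g i ^ v i ≠ 0 := Finset.prod_ne_zero_iff.2 fun i _ => pow_ne_zero _ (hg0 i)
  let u : I → ℕ := fun l => ∑ i, if j i = l then v i else 0
  have hsum : ∀ l, (∑ i, v i • (_root_.KM.e i 1 - _root_.KM.e (j i) 1) : I → ℤ) l =
      (v l : ℤ) - u l := by
    intro l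
    rw [Finset.sum_apply]
    have h1 : ∀ i, (v i • (_root_.KM.e i 1 - _root_.KM.e (j i) 1) : I → ℤ) l =
        (if i = l then (v i : ℤ) else 0) - (if j i = l then (v i : ℤ) else 0) := by
      intro i
      rw [Pi.smul_apply, Pi.sub_apply, _root_.KM.e, _root_.KM.e, Pi.single_apply,
        Pi.single_apply, nsmul_eq_mul, mul_sub]
      congr 1
      · by_cases h2 : i = l
        · rw [if_pos h2, if_pos h2.symm, mul_one]
        · rw [if_neg h2, if_neg (Ne.symm h2), mul_zero]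
      · by_cases h2 : j i = l
        · rw [if_pos h2, if_pos h2.symm, mul_one]
        · rw [if_neg h2, if_neg (Ne.symm h2), mul_zero]
    rw [Finset.sum_congr rfl fun i _ => h1 i, Finset.sum_sub_distrib, Finset.sum_ite_eq',
      if_pos (Finset.mem_univ l)]
    congr 1
    show _ = ((∑ i, if j i = l then v i else 0 : ℕ) : ℤ)
    push_cast
    rfl
  have hneg : (∑ i, v i • (_root_.KM.e (j i) 1 - _root_.KM.e i 1) : I → ℤ) =
      -∑ i, v i • (_root_.KM.e i 1 - _root_.KM.e (j i) 1) := by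
    rw [← Finset.sum_neg_distrib]
    refine Finset.sum_congr rfl fun i _ => ?_
    rw [← smul_neg, neg_sub]
  refine ⟨∏ i, g i ^ v i, u, hG0, hG1.2, ?_, ?_⟩
  · intro l hl
    show v l ≤ ∑ i, if j i = l then v i else 0
    have h1 := Finset.single_le_sum (f := fun i => if j i = l then v i else 0)
      (fun i _ => Nat.zero_le _) (Finset.mem_univ l)
    simp only [hjj l hl, if_true] at h1
    exact h1
  · rw [← h.sec u (fun i hi => ?_)]
    · ext f
      rw [Submodule.mem_span_singleton_mul]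
      constructor
      · intro hf
        refine ⟨f * (∏ i, g i ^ v i)⁻¹, ?_, by rw [mul_comm f, mul_inv_cancel_left₀ hG0]⟩
        have h1 := V0L.mul hY hf hG2
        have h2 : (fun i => (v i : ℤ)) + ∑ i, v i • (_root_.KM.e (j i) 1 - _root_.KM.e i 1) =
            fun i => (u i : ℤ) := by
          funext l
          rw [hneg, Pi.add_apply, Pi.neg_apply, hsum]
          ring
        rwa [h2] at h1
      · rintro ⟨z, hz, rfl⟩
        have h1 := V0L.mul hY hG1 hz
        have h2 : ∑ i, v i • (_root_.KM.e i 1 - _root_.KM.e (j i) 1) + (fun i => (u i : ℤ)) =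
            fun i => (v i : ℤ) := by
          funext l
          rw [Pi.add_apply, hsum]
          ring
        rwa [h2] at h1
    · refine Finset.sum_eq_zero fun i' _ => if_neg fun h1 => hi ?_
      rw [← h1]
      exact hjJ i'

end

variable {F : Type} [Field F] [Algebra ℂ F] {r m : ℕ} {X : Set (Subalgebra ℂ F)}
  {D : Fin n → Derivation ℂ F F} {κ : Subalgebra ℂ F → Fˣ} {M : Fin r → Subalgebra ℂ F → Fˣ}

/-- **the equality case**: the sections of the atlas in the subfield `L = i (F)` are the sections of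
the variety `X` with function field `F` -/
theorem isP1n_of_eqDataL (hX : KltFano X D m κ) {q' : ℕ} (hq : 1 ≤ q') {c : Fin r → ℕ}
    (hc : ∀ l, 0 < c l) {u : Fˣ} (hu : QDec X κ q' c u M) {Y : AtD E n (Fin r)} {S : AtL Y}
    (hS : S.Ok) (hN : 0 < Y.N) (i : F →ₐ[ℂ] E) (hi : S.L = i.fieldRange)
    (hsec : ∀ (v : Fin r → ℕ) (f : F),
      (∀ a, i f * ∏ l, Y.d a l ^ v l ∈ Y.A a) ↔ f ∈ Sec X (∏ l, M l ^ v l))
    {J : Finset (Fin r)} (hJ : J.card = n)
    (h : ∀ P, Ev Y.t Y.y0 P → ∃ R, P R ∧ EqDataL Y S J R) : IsP1n X n := by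
  obtain ⟨s₀, s₁, hE⟩ := exists_eqCL hS hN h
  obtain ⟨m₁, hm₁, hX1⟩ := exists_pts hX hq hu
  obtain ⟨G, u', hG, hGL, hu', heq⟩ := hE.sec_all hS.ok (fun l => m₁ * c l)
  have hmem : ∀ x ∈ S.L, ∃ y : F, i y = x := by
    intro x hx
    rw [hi] at hx
    exact hx
  obtain ⟨G', rfl⟩ := hmem G hGL
  choose σ₀ hσ₀ using fun j : J => hmem (s₀ j) (hE.mem j j.2).1
  choose σ₁ hσ₁ using fun j : J => hmem (s₁ j) (hE.mem j j.2).2
  have hG' : G' ≠ 0 := fun h1 => hG (by rw [h1, map_zero])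
  -- the sections
  have hsec' : Sec X (∏ l, M l ^ (m₁ * c l)) =
      Submodule.span ℂ {G'} * ∏ j : J, (Submodule.span ℂ {σ₀ j, σ₁ j}) ^ u' j := by
    have h1 : Submodule.map i.toLinearMap (Submodule.span ℂ {G'} *
        ∏ j : J, (Submodule.span ℂ {σ₀ j, σ₁ j}) ^ u' j) =
        V0L Y S.L (fun l => ((m₁ * c l : ℕ) : ℤ)) := by
      rw [heq, ← Finset.prod_coe_sort J fun j => (Submodule.span ℂ {s₀ j, s₁ j}) ^ u' j,
        ← Submodule.mapHom_apply, map_mul, map_prod]
      congr 1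
      · rw [Submodule.mapHom_apply, Submodule.map_span, Set.image_singleton]
        rfl
      · refine Finset.prod_congr rfl fun j _ => ?_
        rw [map_pow, Submodule.mapHom_apply, Submodule.map_span, Set.image_pair]
        rw [← hσ₀ j, ← hσ₁ j]
        rfl
    have h2 : Submodule.map i.toLinearMap (Sec X (∏ l, M l ^ (m₁ * c l))) =
        V0L Y S.L (fun l => ((m₁ * c l : ℕ) : ℤ)) := by
      ext x
      constructor
      · rintro ⟨f, hf, rfl⟩
        refine ⟨fun a => ?_, ?_⟩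
        · have h3 := (hsec (fun l => m₁ * c l) f).2 hf a
          simp only [zpow_natCast]
          exact h3
        · show i f ∈ S.L
          rw [hi]
          exact ⟨f, rfl⟩
      · rintro ⟨h3, h4⟩
        obtain ⟨f, rfl⟩ := hmem x h4
        refine ⟨f, (hsec (fun l => m₁ * c l) f).1 fun a => ?_, rfl⟩
        have h5 := h3 a
        simp only [zpow_natCast] at h5
        exact h5
    exact Submodule.map_injective_of_injective (f := i.toLinearMap) i.injective (h2.trans h1.symm)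
  rw [hsec', pts_smul hG'] at hX1
  refine isP1n_of hX.proj (ι := J) (by rw [Fintype.card_coe, hJ]) (s₀ := σ₀) (s₁ := σ₁)
    (fun j h1 => hE.ne j j.2 ?_) ?_
    (fun j => (Nat.one_le_iff_ne_zero.2 (Nat.mul_ne_zero (by omega) (hc j).ne')).trans
      (hu' j j.2)) hX1
  · rw [← hσ₀ j, h1, map_zero]
  · have h3 : (fun j : J => s₁ j / s₀ j) = i ∘ fun j : J => σ₁ j / σ₀ j := by
      funext j
      rw [Function.comp_apply, map_div₀, hσ₀, hσ₁]
    have h4 := hE.alg
    rw [h3] at h4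
    exact (AlgHom.algebraicIndependent_iff i i.injective).1 h4

end Pool.Agent.KM
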