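import Pool.Agent.Lib.MP_732f67_ag.G2.Defs
import Pool.Agent.Lib.MP_732f67_ag.N.MdE

/-!
# Project KM: primitive elements and charts of `F` as data in the extension `E`
-/

namespace Pool.Agent.KM

variable {F E : Type} [Field F] [Algebra ℂ F] [Field E] [Algebra ℂ E] {n : ℕ} (i : F →ₐ[ℂ] E)

/-- PROOF. `ev (i ∘ t) (i y) f = i (ev t y f)`. -/
theorem ev_map (t : Fin n → F) (y : F) (f : Polynomial (MvPolynomial (Fin n) ℂ)) :
    ev (fun k => i (t k)) (i y) f = i (ev t y f) := by
  unfold ev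
  have h := Polynomial.hom_eval₂ f
    (MvPolynomial.aeval t : MvPolynomial (Fin n) ℂ →ₐ[ℂ] F).toRingHom (i : F →+* E) y
  have h2 : (i : F →+* E).comp
      (MvPolynomial.aeval t : MvPolynomial (Fin n) ℂ →ₐ[ℂ] F).toRingHom =
      (MvPolynomial.aeval (fun k => i (t k)) : MvPolynomial (Fin n) ℂ →ₐ[ℂ] E).toRingHom := by
    have h3 : i.comp (MvPolynomial.aeval t) = MvPolynomial.aeval (fun k => i (t k)) := by
      refine MvPolynomial.algHom_ext fun k => ?_
      simp
    rw [← h3]
    rfl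
  rw [h2] at h
  exact h.symm

/-- PROOF. From `Prim` (G/RedEx) and `ev_map`. -/
theorem primL_of {t : Fin n → F} {y : F} (h : Prim t y) :
    PrimL i.fieldRange (fun k => i (t k)) (i y) := by
  refine ⟨fun k => ⟨t k, rfl⟩, ⟨y, rfl⟩, ?_, ?_⟩
  · obtain ⟨f, hf1, -, hf3, hf4, -⟩ := h.int
    refine ⟨f, hf1, ?_, fun g hg => hf4 g ?_⟩
    · rw [ev_map]
      show i (f.eval₂ _ y) = 0
      rw [hf3, map_zero]
    · rw [ev_map] at hg
      exact (map_eq_zero i).1 hg
  · rintro x ⟨x0, rfl⟩
    obtain ⟨q, g, hq, hg⟩ := h.gen x0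
    refine ⟨q, g, hq, ?_⟩
    rw [ev_map]
    have h2 : MvPolynomial.aeval (fun k => i (t k)) q = i (MvPolynomial.aeval t q) := by
      have h3 : i.comp (MvPolynomial.aeval t) = MvPolynomial.aeval (fun k => i (t k)) := by
        refine MvPolynomial.algHom_ext fun k => ?_
        simp
      rw [← h3]
      rfl
    rw [h2]
    show i (MvPolynomial.aeval t q) * i x0 = i (g.eval₂ _ y)
    rw [← map_mul, hg]

theorem map_adjoin_ch (x : Fin n → F) (y u : F) :
    (Algebra.adjoin ℂ (Set.range x ∪ {y, u})).map i =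
      Algebra.adjoin ℂ (Set.range (fun k => i (x k)) ∪ {i y, i u}) := by
  rw [AlgHom.map_adjoin, Set.image_union, Set.image_pair, ← Set.range_comp]
  rfl

theorem map_adjoin_ch' (x : Fin n → F) (y : F) :
    (Algebra.adjoin ℂ (Set.range x ∪ {y})).map i =
      Algebra.adjoin ℂ (Set.range (fun k => i (x k)) ∪ {i y}) := by
  rw [AlgHom.map_adjoin, Set.image_union, Set.image_singleton, ← Set.range_comp]
  rfl

/-- PROOF. From `IsCh` and `ev_map`, `map_adjoin_ch`. -/
theorem isChL_of {A : Subalgebra ℂ F} {x : Fin n → F} {y u : F} (h : IsCh A x y u) :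
    IsChL i.fieldRange (A.map i) (fun k => i (x k)) (i y) (i u) := by
  refine ⟨fun k => ⟨x k, rfl⟩, ⟨y, rfl⟩, ?_, ?_, ?_, ?_, ?_, ?_⟩
  · exact h.tb.1.map' i.injective
  · obtain ⟨f, hf1, hf2, hf3, hf4, hf5⟩ := h.pol
    refine ⟨f, hf1, hf2, ?_, ?_, ?_⟩
    · rw [ev_map, hf3, map_zero]
    · rw [ev_map]
      exact fun h0 => hf4 ((map_eq_zero i).1 h0)
    · rw [ev_map]
      exact ⟨_, hf5, map_inv₀ i _⟩
  · exact fun h0 => h.u_ne ((map_eq_zero i).1 h0)
  · rw [← map_adjoin_ch']
    exact ⟨_, h.u_inv, map_inv₀ i _⟩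
  · rw [← map_adjoin_ch, ← h.A_eq]
  · rintro a ⟨a0, rfl⟩
    obtain ⟨b, hb, c, hc, hc0, hbc⟩ := h.gen a0
    refine ⟨i b, ?_, i c, ?_, fun h0 => hc0 ((map_eq_zero i).1 h0), ?_⟩
    · rw [← map_adjoin_ch']
      exact ⟨b, hb, rfl⟩
    · rw [← map_adjoin_ch']
      exact ⟨c, hc, rfl⟩
    · show i a0 = i b / i c
      rw [hbc, map_div₀]

/-- derivations of `E` and `F` which are dual to the same transcendence basis

PROOF. `f ↦ D' k (i f) - i (D k f)` is a derivation from `F` to `E` (with the `F`-module structure given by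
`i`) which vanishes on the transcendence basis `t`, so it is zero, because `F` is separable algebraic
over `ℂ(t)` (`der_eq_zero`, G/EtE, is the version for `F → F`). -/
theorem der_map {t : Fin n → F} (ht : IsTranscendenceBasis ℂ t) {D : Fin n → Derivation ℂ F F}
    (hD : ∀ k l, D k (t l) = if k = l then 1 else 0) {D' : Fin n → Derivation ℂ E E}
    (hD' : ∀ k l, D' k (i (t l)) = if k = l then 1 else 0) (k : Fin n) (f : F) :
    D' k (i f) = i (D k f) := by
  let _ : Algebra F E := i.toRingHom.toAlgebra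
  have hst : IsScalarTower ℂ F E := IsScalarTower.of_algebraMap_eq fun c => (i.commutes c).symm
  obtain ⟨b, hb⟩ := exists_kbasis ht
  let d1 : Derivation ℂ F E := (D' k).compAlgebraMap F
  let d2 : Derivation ℂ F E := (Algebra.linearMap F E).compDer (D k)
  have e1 : ∀ x, d1 x = D' k (i x) := fun x => rfl
  have e2 : ∀ x, d2 x = i (D k x) := fun x => rfl
  have h1 : d1.liftKaehlerDifferential = d2.liftKaehlerDifferential := by
    refine b.ext fun l => ?_
    rw [hb, Derivation.liftKaehlerDifferential_comp_D, Derivation.liftKaehlerDifferential_comp_D,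
      e1, e2, hD, hD']
    split_ifs
    · rw [map_one]
    · rw [map_zero]
  have h2 := congrArg (fun g => g (KaehlerDifferential.D ℂ F f)) h1
  simpa only [Derivation.liftKaehlerDifferential_comp_D, e1, e2] using h2

/-- PROOF. `Matrix.det` commutes with ring homomorphisms; `der_map`. -/
theorem nj_map {t : Fin n → F} (ht : IsTranscendenceBasis ℂ t) {D : Fin n → Derivation ℂ F F}
    (hD : ∀ k l, D k (t l) = if k = l then 1 else 0) {D' : Fin n → Derivation ℂ E E}
    (hD' : ∀ k l, D' k (i (t l)) = if k = l then 1 else 0) (x : Fin n → F) :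
    nj D' (fun l => i (x l)) = i (nj D x) := by
  unfold nj
  rw [AlgHom.map_det]
  congr 1
  ext k l
  exact der_map i ht hD hD' k (x l)

end Pool.Agent.KM
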