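import Pool.Agent.Lib.MP_732f67_ag.N.MdE
import Pool.Agent.Lib.MP_732f67_ag.N.DmC
import Pool.Agent.Lib.MP_732f67_ag.G.Pre

/-!
# Project KM: the compositum of a chart of the Galois model and a chart of `X`
-/

namespace Pool.Agent.KM

variable {F F' : Type} [Field F] [Algebra ℂ F] [Field F'] [Algebra ℂ F'] {i : F →ₐ[ℂ] F'}
  {X : Set (Subalgebra ℂ F)} {Y' : Set (Subalgebra ℂ F')}

theorem sup_isLocalRing (h : Mor i X Y') {Q : Subalgebra ℂ F'} (hQ : Q ∈ Y') : IsLocalRing Q := by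
  obtain ⟨V, -, -, -, hV⟩ := h.proj'
  rw [hV] at hQ
  obtain ⟨v, hv, hv0, hl⟩ := hQ
  exact hl.isLocalRing

/-- the local ring of a chart `B` of `X` below a local ring which contains `B` -/
theorem sup_exists {B : Subalgebra ℂ F} (hB : ∀ Q, LocAt B Q ↔ Q ∈ X ∧ B ≤ Q)
    {Q : Subalgebra ℂ F'} (hl : IsLocalRing Q) (hBQ : B.map i ≤ Q) :
    ∃ C ∈ X, B ≤ C ∧ Dm i C Q := by
  have hBR : B ≤ Q.comap i := fun x hx => hBQ ⟨x, hx, rfl⟩
  obtain ⟨h1, h2⟩ := (hB _).1 (locAt_locOf hBR (DmC_local i hl))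
  have h3 := dom_locOf hBR
  refine ⟨_, h1, h2, fun x hx => h3.1 hx, fun x hx hx' => h3.2 x hx ?_⟩
  change i x⁻¹ ∈ Q
  rw [map_inv₀]
  exact hx'

/-- points over a chart `B` of `X`: if `B` is contained in a point `Q` then it is contained in the
center of `Q`

PROOF. `C' := locOf B (Q.comap i)` (`DmC_local`) is a local ring of `B`, so `C' ∈ X` (`hB`), and it is
dominated by `Q.comap i` (`dom_locOf`), so `Dm i C' Q`; `cen_eq_of`. -/
theorem chart_le_cen (h : Mor i X Y') {B : Subalgebra ℂ F}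
    (hB : ∀ Q, LocAt B Q ↔ Q ∈ X ∧ B ≤ Q) {Q : Subalgebra ℂ F'} (hQ : Q ∈ Y')
    (hBQ : B.map i ≤ Q) : B ≤ cen i X Q := by
  obtain ⟨C, hC, hBC, hd⟩ := sup_exists hB (sup_isLocalRing h hQ) hBQ
  rw [cen_eq_of h.proj hC hd]
  exact hBC

/-- an element of all the points over the charts `A` and `B` is in the compositum

PROOF. As `Pre.mem_sup` (G/Pre): `w ∈ A ⊔ B.map i` if it is in all its local rings `Q'`
(`mem_of_locAt`). `Q'` contains `A`; let `Q := locOf A Q'`: `Q ∈ Y'` (`hA`), dominated by `Q'`. Let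
`C = cen i X Q`, `Dm i C Q` and so `Dm i C Q'`. Also `C' := locOf B (Q'.comap i) ∈ X` (`hB`) has
`Dm i C' Q'`. So `C = C'` (`dm_unique`) and `B ≤ C`, `B.map i ≤ Q`. So `w ∈ Q ≤ Q'` by the hypothesis. -/
theorem mem_supX (h : Mor i X Y') {A : Subalgebra ℂ F'} (hAfg : A.FG)
    (hA : ∀ Q, LocAt A Q ↔ Q ∈ Y' ∧ A ≤ Q)
    {B : Subalgebra ℂ F} (hB : ∀ Q, LocAt B Q ↔ Q ∈ X ∧ B ≤ Q) {w : F'}
    (hw : ∀ Q ∈ Y', A ≤ Q → B.map i ≤ Q → w ∈ Q) : w ∈ A ⊔ B.map i := by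
  refine mem_of_locAt fun Q' hQ' => ?_
  have hl := hQ'.isLocalRing
  have hA' : A ≤ Q' := le_sup_left.trans hQ'.le
  have hB' : B.map i ≤ Q' := le_sup_right.trans hQ'.le
  obtain ⟨h1, h2⟩ := (hA _).1 (locAt_locOf hA' hl)
  have h3 := dom_locOf hA'
  obtain ⟨C', hC', hBC, hd⟩ := sup_exists hB hl hB'
  obtain ⟨C, hC, hdC⟩ := h.dom _ h1
  have h4 : Dm i C Q' := ⟨fun x hx => h3.1 (hdC.1 x hx), fun x hx hx' =>
    hdC.2 x hx (h3.2 _ (hdC.1 x hx) hx')⟩
  have h5 := dm_unique h.proj hC hC' h4 hd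
  refine h3.1 (hw _ h1 h2 ?_)
  rintro _ ⟨b, hb, rfl⟩
  refine hdC.1 b ?_
  rw [h5]
  exact hBC hb

/-- the links: if the chart `B` of `X` is contained in the point `P` of the chart `A`, then it is
contained in a localization `A[h⁻¹]` which is contained in `P`

PROOF. Finitely many generators `b` of `B` (`hBfg`); `i b ∈ P = A_𝔭` (`pt_locAt_iff`): `i b = a / h_b` with
`h_b ∈ A` a unit of `P`; `h := ∏ h_b`; the `f` with `f * h ^ N ∈ A` for some `N` form a subalgebra. -/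
theorem exists_linkX {A P : Subalgebra ℂ F'} (hAP : LocAt A P) {B : Subalgebra ℂ F} (hBfg : B.FG)
    (hBP : B.map i ≤ P) : ∃ h ∈ A, Un P h ∧ ∀ f ∈ B.map i, ∃ N : ℕ, f * h ^ N ∈ A := by
  classical
  obtain ⟨S, hS⟩ := hBfg
  obtain ⟨h1, -, h3⟩ := pt_locAt_iff.1 hAP
  have hSP : ∀ b ∈ S, i b ∈ P := fun b hb => hBP ⟨b, by
    rw [← hS]
    exact Algebra.subset_adjoin hb, rfl⟩
  choose! a ha c hc hc0 hci hac using fun b hb => h3 (i b) (hSP b hb)
  have hcA : (∏ b ∈ S, c b) ∈ A := prod_mem fun b hb => hc b hb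
  refine ⟨∏ b ∈ S, c b, hcA,
    ⟨Finset.prod_ne_zero_iff.2 fun b hb => hc0 b hb, h1 hcA, ?_⟩, ?_⟩
  · rw [← Finset.prod_inv_distrib]
    exact prod_mem fun b hb => hci b hb
  · let T : Subalgebra ℂ F' :=
      { carrier := {f | ∃ N : ℕ, f * (∏ b ∈ S, c b) ^ N ∈ A}
        mul_mem' := by
          rintro f g ⟨N, hN⟩ ⟨N', hN'⟩
          refine ⟨N + N', ?_⟩
          have e : f * g * (∏ b ∈ S, c b) ^ (N + N') =
              f * (∏ b ∈ S, c b) ^ N * (g * (∏ b ∈ S, c b) ^ N') := by ring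
          rw [e]
          exact A.mul_mem hN hN'
        add_mem' := by
          rintro f g ⟨N, hN⟩ ⟨N', hN'⟩
          refine ⟨N + N', ?_⟩
          have e : (f + g) * (∏ b ∈ S, c b) ^ (N + N') =
              f * (∏ b ∈ S, c b) ^ N * (∏ b ∈ S, c b) ^ N' +
              g * (∏ b ∈ S, c b) ^ N' * (∏ b ∈ S, c b) ^ N := by ring
          rw [e]
          exact A.add_mem (A.mul_mem hN (A.pow_mem hcA _)) (A.mul_mem hN' (A.pow_mem hcA _))
        algebraMap_mem' := fun r => ⟨0, by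
          rw [pow_zero, mul_one]
          exact A.algebraMap_mem r⟩ }
    have hBT : B ≤ T.comap i := by
      rw [← hS]
      refine Algebra.adjoin_le fun b hb => ?_
      refine ⟨1, ?_⟩
      have hb' : b ∈ S := hb
      change i b * (∏ b ∈ S, c b) ^ 1 ∈ A
      rw [pow_one, ← Finset.mul_prod_erase S c hb', hac b hb', ← mul_assoc,
        div_mul_cancel₀ _ (hc0 b hb')]
      exact A.mul_mem (ha b hb') (prod_mem fun b' hb'' => hc b' (Finset.mem_of_mem_erase hb''))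
    rintro _ ⟨b, hb, rfl⟩
    exact hBT hb

end Pool.Agent.KM
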