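import Pool.Agent.Lib.MP_732f67_ag.G2.AtE
import Pool.Agent.Lib.MP_732f67_ag.G2.DvC
import Pool.Agent.Lib.MP_732f67_ag.G2.CodE
import Pool.Agent.Lib.MP_732f67_ag.G2.Sup
import Pool.Agent.Lib.MP_732f67_ag.N.LbL
import Pool.Agent.Lib.MP_732f67_ag.G2.PrL
import Pool.Agent.Lib.MP_732f67_ag.X.RxM

/-!
# Project KM: the atlas of a Galois model of a klt Fano variety, with the charts of the variety
-/

namespace Pool.Agent.KM

variable {L : Type} [Field L] [Algebra ℂ L] {n r : ℕ}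

/-- `E` is finite over the image of `L` -/
theorem fin_range {E : Type} [Field E] [Algebra ℂ E] (i : L →ₐ[ℂ] E) (h : (i : L →+* E).Finite) :
    Module.Finite i.fieldRange E := by
  letI : Algebra L E := (i : L →+* E).toAlgebra
  letI : Algebra L i.fieldRange :=
    ((i : L →+* E).codRestrict i.fieldRange
      (fun x => show i x ∈ i.fieldRange from ⟨x, rfl⟩)).toAlgebra
  haveI : IsScalarTower L i.fieldRange E := IsScalarTower.of_algebraMap_eq fun x => rfl
  haveI : Module.Finite L E := h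
  exact Module.Finite.of_restrictScalars_finite L i.fieldRange E

/-- the atlas, in dimension `0` -/
theorem exists_atL0 {X : Set (Subalgebra ℂ L)} {D : Fin 0 → Derivation ℂ L L} {m : ℕ}
    {κ : Subalgebra ℂ L → Lˣ} {Φ : Finset L} (M : GMod 0 X ⊥ D Φ κ⁻¹)
    {N : Fin r → Subalgebra ℂ L → Lˣ} {q' : ℕ} {c : Fin r → ℕ} {u : Lˣ}
    {Z : AtD M.F' 0 (Fin r)} {e : Fin Z.s ≃ M.J} {t : Fin 0 → L} {y : L}
    (hZ : AtM M N (m * q') c u Z e t y) : ∃ S : AtL Z, S.Ok ∧ S.L = M.i.fieldRange := by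
  classical
  have hJ : IsEmpty M.J := by
    refine ⟨fun j => ?_⟩
    have h1 := (M.bd.mem j).2
    obtain ⟨d, hd⟩ := lbL_dim (d := 0) M.base.dim h1
    omega
  have hs : IsEmpty (Fin Z.s) := ⟨fun j => hJ.elim (e j)⟩
  have htt : Z.t = fun k => M.i (t k) := funext hZ.t_eq
  let S : AtL Z :=
    { L := M.i.fieldRange
      yL := M.i y
      k' := 0
      x' := fun b => b.elim0
      y' := fun b => b.elim0
      u' := fun b => b.elim0
      d' := fun b => b.elim0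
      H := fun _ => ∅ }
  have hmem : ∀ x : L, M.i x ∈ S.L := fun x => ⟨x, rfl⟩
  refine ⟨S, ?_, rfl⟩
  refine
    { ok := hZ.ok
      fin := fin_range M.i M.fin
      prim := ?_
      ω_mem := ?_
      d_mem := ?_
      S_mem := ?_
      S'_mem := ?_
      ch := fun b => b.elim0
      d'_ne := fun b => b.elim0
      d'_mem := fun b => b.elim0
      can := fun b => b.elim0
      H_mem := fun a e he => absurd he (Finset.notMem_empty _)
      H_le := fun a e he => absurd he (Finset.notMem_empty _)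
      d'_trans := fun _ b => b.elim0
      cod := ?_ }
  · rw [htt]
    exact primL_of M.i hZ.prim
  · rw [hZ.ω_eq]
    exact hmem _
  · intro a i
    obtain ⟨O, -, h⟩ := hZ.d_eq a i
    rw [h]
    exact hmem _
  · intro i f hf
    obtain ⟨g, -, rfl⟩ := hZ.S_eq i f hf
    exact hmem _
  · intro i f hf
    obtain ⟨g, -, rfl⟩ := hZ.S'_eq i f hf
    exact hmem _
  · intro a r' _
    refine ⟨1, one_ne_zero, 1, one_mem _, fun _ => 0, fun _ => zero_mem _, ?_⟩
    have : ∏ j, Z.ε a j = 1 := Finset.prod_of_isEmpty _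
    rw [this, map_one, mul_one, Finset.sum_eq_zero (fun e _ => mul_zero _), add_zero]

/-- the atlas, in positive dimension -/
theorem exists_atL1 {X : Set (Subalgebra ℂ L)} {D : Fin (n + 1) → Derivation ℂ L L} {m : ℕ}
    {κ : Subalgebra ℂ L → Lˣ} (hX : KltFano X D m κ) {Φ : Finset L}
    (M : GMod (n + 1) X ⊥ D Φ κ⁻¹) {N : Fin r → Subalgebra ℂ L → Lˣ} (hN : ∀ i, IsCar X (N i))
    {q' : ℕ} {c : Fin r → ℕ} {u : Lˣ} (hu : QDec X κ q' c u N)
    {Z : AtD M.F' (n + 1) (Fin r)} {e : Fin Z.s ≃ M.J} {t : Fin (n + 1) → L} {y : L}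
    (hZ : AtM M N (m * q') c u Z e t y) : ∃ S : AtL Z, S.Ok ∧ S.L = M.i.fieldRange := by
  classical
  have hmor : Mor M.i X M.Y' := M.mor hX.proj
  have hW : IsProj M.Y' := M.base.proj
  have hcen : ∀ Q ∈ M.Y', cen M.i X Q ∈ X ∧ Dm M.i (cen M.i X Q) Q := fun Q hQ =>
    cen_spec (hmor.dom Q hQ)
  have hok := hZ.ok
  have htt : Z.t = fun k => M.i (t k) := funext hZ.t_eq
  -- the charts of `X`
  let Js := {j : M.J // PrimDiv (cen M.i X (M.P j))}
  have hPj : ∀ b : Js, cen M.i X (M.P b.1) ∈ X := fun b => (hcen _ (M.bd.mem b.1).1).1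
  choose B x yb v δ hch hBO hBfg hBloc hδ0 hδ hcan using fun b : Js =>
    exists_dvk hX.proj hX.dim hX.frame hX.can hN hu (hPj b) b.2
  -- the links
  have hlk : ∀ (a : Fin Z.k) (b : Js), Z.A a ≤ M.P b.1 → ∃ h ∈ Z.A a, Un (M.P b.1) h ∧
      ∀ f ∈ (B b).map M.i, ∃ N : ℕ, f * h ^ N ∈ Z.A a := by
    intro a b hab
    refine exists_linkX ((hZ.loc a _).2 ⟨(M.bd.mem b.1).1, hab⟩) (hBfg b) ?_
    rintro _ ⟨f, hf, rfl⟩
    exact (hcen _ (M.bd.mem b.1).1).2.1 f (hBO b hf)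
  choose h hhA hhU hhN using hlk
  let ee : Fin (Fintype.card Js) ≃ Js := (Fintype.equivFin Js).symm
  let h' : Fin Z.k → Fin (Fintype.card Js) → M.F' := fun a b =>
    if hab : Z.A a ≤ M.P (ee b).1 then h a (ee b) hab else 1
  let S : AtL Z :=
    { L := M.i.fieldRange
      yL := M.i y
      k' := Fintype.card Js
      x' := fun b l => M.i (x (ee b) l)
      y' := fun b => M.i (yb (ee b))
      u' := fun b => M.i (v (ee b))
      d' := fun b i => M.i (δ (ee b) i)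
      H := fun a => (Finset.univ.filter fun b : Fin (Fintype.card Js) => Z.A a ≤ M.P (ee b).1).image
        fun b => (h' a b, b) }
  have hmem : ∀ x : L, M.i x ∈ S.L := fun x => ⟨x, rfl⟩
  have hA' : ∀ b, S.A' b = (B (ee b)).map M.i := by
    intro b
    rw [(hch (ee b)).A_eq, map_adjoin_ch]
    rfl
  have hHm : ∀ a, ∀ e ∈ S.H a, ∃ hab : Z.A a ≤ M.P (ee e.2).1, e.1 = h a (ee e.2) hab := by
    intro a e he
    obtain ⟨b, hb, rfl⟩ := Finset.mem_image.1 he
    have hb' := (Finset.mem_filter.1 hb).2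
    exact ⟨hb', dif_pos hb'⟩
  -- local equations
  have hdQ : ∀ a b i, ∀ Q ∈ M.Y', Z.A a ≤ Q → (B (ee b)).map M.i ≤ Q →
      Un Q (S.d' b i / Z.d a i) := by
    intro a b i Q hQ haQ hbQ
    have h1 := hZ.d_un a i Q hQ haQ
    have h2 : B (ee b) ≤ cen M.i X Q := chart_le_cen hmor (hBloc (ee b)) hQ hbQ
    have h3 := (hcen Q hQ).2.un (hδ (ee b) i _ (hcen Q hQ).1 h2)
    have h4 := h1.mul h3.inv
    have h5 : M.i ((N i (cen M.i X Q) : L)) ≠ 0 := (map_ne_zero M.i).2 (Units.ne_zero _)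
    have h6 : M.i (δ (ee b) i) ≠ 0 := (map_ne_zero M.i).2 (hδ0 (ee b) i)
    have h7 : Z.d a i ≠ 0 := hok.d_ne a i
    convert h4 using 1
    show M.i (δ (ee b) i) / Z.d a i = (pb M.i X (N i) Q : M.F') / Z.d a i *
      (M.i ((N i (cen M.i X Q) : L) / δ (ee b) i))⁻¹
    rw [pb_val, map_div₀]
    field_simp
  refine ⟨S, ?_, rfl⟩
  refine
    { ok := hok
      fin := fin_range M.i M.fin
      prim := ?_
      ω_mem := ?_
      d_mem := ?_
      S_mem := ?_
      S'_mem := ?_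
      ch := ?_
      d'_ne := fun b i => (map_ne_zero M.i).2 (hδ0 (ee b) i)
      d'_mem := fun b i => hmem _
      can := ?_
      H_mem := ?_
      H_le := ?_
      d'_trans := ?_
      cod := ?_ }
  · rw [htt]
    exact primL_of M.i hZ.prim
  · rw [hZ.ω_eq]
    exact hmem _
  · intro a i
    obtain ⟨O, -, h⟩ := hZ.d_eq a i
    rw [h]
    exact hmem _
  · intro i f hf
    obtain ⟨g, -, rfl⟩ := hZ.S_eq i f hf
    exact hmem _
  · intro i f hf
    obtain ⟨g, -, rfl⟩ := hZ.S'_eq i f hf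
    exact hmem _
  · intro b
    rw [hA']
    exact isChL_of M.i (hch (ee b))
  · intro b
    rw [hA']
    obtain ⟨dd, hdd⟩ := exists_der hZ.prim.basis
    have hD' : ∀ k l, Z.D k (M.i (t l)) = if k = l then 1 else 0 := by
      intro k l
      rw [← hZ.t_eq l]
      exact hok.Dt k l
    have h1 : S.jac' b = M.i (nj dd (x (ee b))) := nj_map M.i hZ.prim.basis hdd hD' (x (ee b))
    have h2 : nj D (x (ee b)) = nj D t * nj dd (x (ee b)) := det_frame hZ.prim.basis hdd (x (ee b))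
    have h3 := hcan (ee b)
    have h4 : Un ((B (ee b)).map M.i) (M.i ((u : L) * (nj D (x (ee b)) ^ (m * q'))⁻¹ *
        ∏ i, δ (ee b) i ^ c i)) := by
      refine ⟨(map_ne_zero M.i).2 h3.1, ⟨_, h3.2.1, rfl⟩, ⟨_, h3.2.2, ?_⟩⟩
      exact map_inv₀ M.i _
    convert h4 using 1
    rw [h1, hZ.ω_eq, hZ.q_eq, hZ.c_eq, h2]
    simp only [map_mul, map_inv₀, map_pow, map_prod, mul_pow, mul_inv]
    show _ * ∏ i, M.i (δ (ee b) i) ^ c i = _
    ring
  · intro a e he
    obtain ⟨hab, h1⟩ := hHm a e he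
    rw [h1]
    exact ⟨(hhU a _ hab).1, hhA a _ hab⟩
  · intro a e he f hf
    obtain ⟨hab, h1⟩ := hHm a e he
    rw [h1]
    rw [hA'] at hf
    exact hhN a _ hab f hf
  · intro a b i
    rw [hA']
    have hAfg : (Z.A a).FG := by
      rw [(hok.ch a).A_eq]
      exact Subalgebra.fg_def.2 ⟨_, (Set.finite_range _).union (Set.toFinite _), rfl⟩
    refine ⟨mem_supX hmor hAfg (hZ.loc a) (hBloc (ee b)) fun Q hQ h1 h2 =>
      (hdQ a b i Q hQ h1 h2).2.1, mem_supX hmor hAfg (hZ.loc a) (hBloc (ee b))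
      fun Q hQ h1 h2 => ?_⟩
    have h3 := (hdQ a b i Q hQ h1 h2).2.2
    rwa [inv_div] at h3
  · intro a r' hr'
    have hAfg : (Z.A a).FG := by
      rw [(hok.ch a).A_eq]
      exact Subalgebra.fg_def.2 ⟨_, (Set.finite_range _).union (Set.toFinite _), rfl⟩
    have hε : ∀ a j, Z.ε a j ∈ Z.A a := by
      intro a j
      show eps (Z.x a) (Z.co a j) ∈ Z.A a
      rcases h : Z.co a j with _ | l
      · exact one_mem _
      · rw [(hok.ch a).A_eq]
        exact Algebra.subset_adjoin (Or.inl ⟨l, rfl⟩)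
    have key := codE M hX.proj hX.normal hX.dim hAfg (hZ.loc a) (ε := fun j => Z.ε a (e.symm j))
      (fun j => hε a _) (fun j Q hQ haQ => by
        have h1 := hZ.eqn a (e.symm j) Q hQ haQ
        rwa [e.apply_symm_apply] at h1) (S.H a) (fun e' he' => by
        obtain ⟨hab, h1⟩ := hHm a e' he'
        rw [h1]
        exact hhA a _ hab) (fun j hj hp => by
        refine ⟨(h' a (ee.symm ⟨j, hp⟩), ee.symm ⟨j, hp⟩), Finset.mem_image.2 ⟨ee.symm ⟨j, hp⟩,
          Finset.mem_filter.2 ⟨Finset.mem_univ _, ?_⟩, rfl⟩, ?_⟩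
        · rw [ee.apply_symm_apply]
          exact hj
        · have h1 : Z.A a ≤ M.P (ee (ee.symm ⟨j, hp⟩)).1 := by
            rw [ee.apply_symm_apply]
            exact hj
          have h2 : h' a (ee.symm ⟨j, hp⟩) = h a (ee (ee.symm ⟨j, hp⟩)) h1 := dif_pos h1
          have h3 := hhU a (ee (ee.symm ⟨j, hp⟩)) h1
          show Un (M.P j) (h' a (ee.symm ⟨j, hp⟩))
          rw [h2]
          have h4 : (ee (ee.symm (⟨j, hp⟩ : Js))).1 = j := by rw [ee.apply_symm_apply]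
          have h5 : ∀ w, Un (M.P (ee (ee.symm (⟨j, hp⟩ : Js))).1) w → Un (M.P j) w := by
            intro w hw
            rwa [h4] at hw
          exact h5 _ h3) (r := r') ?_ ?_
    · obtain ⟨P, hP, w₀, hw₀, w, hw, h1⟩ := key
      refine ⟨P, hP, w₀, hw₀, w, hw, ?_⟩
      rw [h1]
      congr 2
      exact Equiv.prod_comp e.symm fun j => Z.ε a j
    · intro k
      obtain ⟨i', f, hf, g, hg, hu', hr⟩ := hr' k
      have h1 := (Z.A a).mul_mem (hok.S_sec i' f hf a) hu'.2.2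
      have h2 : g ≠ 0 := fun h0 => hu'.1 (by rw [h0, zero_mul])
      have h3 : Z.d a i' ^ Z.m ≠ 0 := pow_ne_zero _ (hok.d_ne a i')
      rw [hr]
      convert h1 using 1
      field_simp
    · intro k
      obtain ⟨i', f, hf, g, hg, hu', hr⟩ := hr' k
      obtain ⟨f₀, hf₀, rfl⟩ := hZ.S_eq i' f hf
      obtain ⟨g₀, hg₀, rfl⟩ := hZ.S_eq i' g hg
      refine ⟨f₀ / g₀, by rw [hr, map_div₀], fun Q hQ haQ => ?_⟩
      have h1 := hcen Q hQ
      have h2 : (N i' (cen M.i X Q) : L) ≠ 0 := Units.ne_zero _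
      have h3 : Un Q (M.i (g₀ * (N i' (cen M.i X Q) : L) ^ Z.m)) := by
        have h4 := (hZ.d_un a i' Q hQ haQ).pow Z.m
        have h5 : Un Q (M.i g₀ * Z.d a i' ^ Z.m) := ⟨hu'.1, haQ hu'.2.1, haQ hu'.2.2⟩
        have h6 := h5.mul h4
        have h7 : Z.d a i' ≠ 0 := hok.d_ne a i'
        convert h6 using 1
        rw [pb_val, map_mul, map_pow, div_pow]
        have h8 : Z.d a i' ^ Z.m ≠ 0 := pow_ne_zero _ h7
        field_simp
      have h4 : Un (cen M.i X Q) (g₀ * (N i' (cen M.i X Q) : L) ^ Z.m) := by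
        refine (h1.2.un_iff ?_).1 h3
        have := hg₀ _ h1.1
        rwa [Pi.pow_apply, Units.val_pow_eq_pow_val] at this
      have h5 : f₀ * (N i' (cen M.i X Q) : L) ^ Z.m ∈ cen M.i X Q := by
        have := hf₀ _ h1.1
        rwa [Pi.pow_apply, Units.val_pow_eq_pow_val] at this
      have h6 := (cen M.i X Q).mul_mem h5 h4.2.2
      have h7 : g₀ ≠ 0 := fun h0 => h4.1 (by rw [h0, zero_mul])
      convert h6 using 1
      field_simp

/-- **the atlas of a klt Fano variety**, for a decomposition of `- q' κ`, with the charts of the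
variety -/
theorem exists_atL {X : Set (Subalgebra ℂ L)} {D : Fin n → Derivation ℂ L L} {m : ℕ}
    {κ : Subalgebra ℂ L → Lˣ} (hX : KltFano X D m κ) {N : Fin r → Subalgebra ℂ L → Lˣ}
    (hN : ∀ i, IsCar X (N i)) (hs : ∀ i, Semi X (N i)) (ht : ∀ i, ¬ Triv X (N i)) {q' : ℕ}
    (hq : 1 ≤ q') {c : Fin r → ℕ} (hc : ∀ i, 0 < c i) {u : Lˣ} (hu : QDec X κ q' c u N) :
    ∃ (E : Type) (_ : Field E) (_ : Algebra ℂ E) (i : L →ₐ[ℂ] E) (Y : AtD E n (Fin r))
      (S : AtL Y), S.Ok ∧ 0 < Y.N ∧ Y.q = m * q' ∧ Y.c = c ∧ S.L = i.fieldRange ∧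
      ∀ (v : Fin r → ℕ) (f : L), (∀ a, i f * ∏ j, Y.d a j ^ v j ∈ Y.A a) ↔
        f ∈ Sec X (∏ j, N j ^ v j) := by
  classical
  obtain ⟨Φ, hΦ0, hΦ⟩ : ∃ Φ : Finset L, (∀ φ ∈ Φ, φ ≠ 0) ∧
      ∀ O ∈ X, ∃ t ∈ Φ, Un O (((κ⁻¹ O : Lˣ) : L) / t) := car_fin hX.proj (car_inv hX.can.1)
  obtain ⟨M⟩ := rx n L X ⊥ D Φ κ⁻¹ hX.base hΦ0 (gc_bot (car_inv hX.can.1)) hX.amp
  obtain ⟨Z, e, t, y, hZ⟩ := exists_atM hX M hΦ hN hs ht hq hc hu
  obtain ⟨S, hS, hL⟩ : ∃ S : AtL Z, S.Ok ∧ S.L = M.i.fieldRange := by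
    rcases n with _ | n
    · exact exists_atL0 M hZ
    · exact exists_atL1 hX M hN hu hZ
  exact ⟨M.F', M.fld, M.alg, M.i, Z, S, hS, hZ.N_pos, hZ.q_eq, hZ.c_eq, hL, hZ.sec⟩

end Pool.Agent.KM
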