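import Pool.Agent.Lib.MP_732f67_ag.G2.AtE
import Pool.Agent.Lib.MP_732f67_ag.N.SnL
import Pool.Agent.Lib.MP_732f67_ag.N.PrC

/-!
The certificates of the atlas of a Galois model: the boundary divisors which are not contracted are
covered by charts of `L`, the others and the points of codimension two are contracted to
codimension at least two.
-/

set_option autoImplicit false

namespace Pool.Agent.KM

section

variable {k L : Type*} [Field k] [Field L] [Algebra k L]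

/-- a local ring with `n - 1` elements whose residues are algebraically independent has at most one
prime ideal which is not zero -/
theorem cert_dim {n : ℕ} (hn : Algebra.trdeg k L = n) {O : Subalgebra k L} [IsLocalRing O]
    (r : Fin (n - 1) → L) (hr : ∀ i, r i ∈ O)
    (hi : ∀ Q : MvPolynomial (Fin (n - 1)) k, Q ≠ 0 → Un O (MvPolynomial.aeval r Q))
    (q : Ideal O) (hq0 : q ≠ ⊥) (hq : q.IsPrime) : q = IsLocalRing.maximalIdeal O := by
  have hs : ∀ Q : MvPolynomial (Fin (n - 1)) k, Q ≠ 0 →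
      MvPolynomial.aeval (fun i => (⟨r i, hr i⟩ : O)) Q ∉ IsLocalRing.maximalIdeal O := by
    intro Q hQ
    have h3 := MvPolynomial.aeval_algebraMap_apply L (fun i => (⟨r i, hr i⟩ : O)) Q
    have h4 : ((MvPolynomial.aeval (fun i => (⟨r i, hr i⟩ : O)) Q : O) : L) =
        MvPolynomial.aeval r Q := h3.symm
    rw [IsLocalRing.mem_maximalIdeal, mem_nonunits_iff, not_not]
    have h5 := hi Q hQ
    rw [← h4] at h5
    exact IsUnit.of_mul_eq_one (⟨_, h5.2.2⟩ : O) (Subtype.ext (mul_inv_cancel₀ h5.1))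
  by_contra hne
  have hle := IsLocalRing.le_maximalIdeal hq.ne_top
  obtain ⟨d, hdm, hdq⟩ := SetLike.exists_of_lt (lt_of_le_of_ne hle hne)
  obtain ⟨c, hc, hc0⟩ := Submodule.exists_mem_ne_zero_of_ne_bot hq0
  have h1 := ordB_step _ q _ hle hs d hdm hdq
  have h2 := ordB_step _ ⊥ q bot_le h1 c hc (by
    rw [Ideal.mem_bot]
    exact hc0)
  have h3 := ordB_trdeg hn _ h2
  omega

/-- a prime divisor which contains such a local ring dominates it -/
theorem cert_dom {n : ℕ} (hn : Algebra.trdeg k L = n) {O P : Subalgebra k L}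
    (hlr : IsLocalRing O) (hfr : FracEq O) (hP : PrimDiv P) (hle : O ≤ P)
    (r : Fin (n - 1) → L) (hr : ∀ i, r i ∈ O)
    (hi : ∀ Q : MvPolynomial (Fin (n - 1)) k, Q ≠ 0 → Un O (MvPolynomial.aeval r Q)) :
    Dom O P := by
  have := hP.1
  set φ : O →+* P := (Subalgebra.inclusion hle : O →ₐ[k] P).toRingHom with hφ
  set q : Ideal O := (IsLocalRing.maximalIdeal P).comap φ with hq
  have hqp : q.IsPrime := Ideal.IsPrime.comap φ
  have hq0 : q ≠ ⊥ := by
    obtain ⟨π, hπ⟩ := hP.exists_unif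
    obtain ⟨a, b, hb, hab⟩ := hfr π
    intro h0
    have ha : a ∈ q := by
      rw [hq, Ideal.mem_comap, IsLocalRing.mem_maximalIdeal, mem_nonunits_iff, pt_isUnit_iff]
      rintro ⟨h1, h2⟩
      have h3 : π⁻¹ = ((a : L))⁻¹ * b := by
        rw [hab, inv_div, div_eq_mul_inv, mul_comm]
      apply hπ.2.1
      rw [h3]
      exact P.mul_mem h2 (hle b.2)
    rw [h0, Ideal.mem_bot] at ha
    apply hπ.ne_zero
    rw [hab, ha]
    show ((0 : O) : L) / b = 0
    rw [ZeroMemClass.coe_zero, zero_div]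
  have hqm := cert_dim hn r hr hi q hq0 hqp
  refine ⟨hle, fun x hx hx' => ?_⟩
  rcases eq_or_ne x 0 with rfl | hx0
  · rw [inv_zero]
    exact O.zero_mem
  by_contra hcon
  have h1 : (⟨x, hx⟩ : O) ∈ q := by
    rw [hqm, IsLocalRing.mem_maximalIdeal, mem_nonunits_iff, pt_isUnit_iff]
    exact fun h => hcon h.2
  rw [hq, Ideal.mem_comap, IsLocalRing.mem_maximalIdeal, mem_nonunits_iff, pt_isUnit_iff] at h1
  exact h1 ⟨hx0, hx'⟩

/-- if the residues of the `r i` modulo all the prime ideals which contain `I` are algebraically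
dependent, then they are algebraically dependent modulo `I` -/
theorem cert_rad {B : Type*} [CommRing B] [Algebra k B] {m : ℕ} (ρ : Fin m → B) (I : Ideal B)
    (h : ∀ Q : Ideal B, Q.IsPrime → I ≤ Q → ∃ P : MvPolynomial (Fin m) k, P ≠ 0 ∧
      MvPolynomial.aeval ρ P ∈ Q) :
    ∃ P : MvPolynomial (Fin m) k, P ≠ 0 ∧ MvPolynomial.aeval ρ P ∈ I := by
  by_contra hcon
  push Not at hcon
  set S : Submonoid B := (nonZeroDivisors (MvPolynomial (Fin m) k)).map
    (MvPolynomial.aeval ρ : MvPolynomial (Fin m) k →ₐ[k] B) with hS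
  have hd : Disjoint (I : Set B) (S : Set B) := by
    rw [Set.disjoint_left]
    rintro x hx ⟨P, hP, rfl⟩
    exact hcon P (nonZeroDivisors.ne_zero hP) hx
  obtain ⟨Q, hQ, hIQ, hQS⟩ := Ideal.exists_le_prime_disjoint I S hd
  obtain ⟨P, hP, hPQ⟩ := h Q hQ hIQ
  exact (Set.disjoint_left.1 hQS) hPQ ⟨P, mem_nonZeroDivisors_of_ne_zero hP, rfl⟩

/-- common denominators of a finitely generated subring of a local ring of `A` -/
theorem cert_den {A O B : Subalgebra k L} (hO : LocAt A O) (hB : B.FG) (hBO : B ≤ O) :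
    ∃ h ∈ A, Un O h ∧ ∀ f ∈ B, ∃ N : ℕ, f * h ^ N ∈ A := by
  classical
  obtain ⟨T, hT⟩ := hB
  have hloc := (pt_locAt_iff.1 hO).2.2
  have h1 : ∀ t ∈ T, ∃ b ∈ A, Un O b ∧ t * b ∈ A := by
    intro t ht
    obtain ⟨a, ha, b, hb, hb0, hb1, hab⟩ := hloc t (hBO (hT ▸ Algebra.subset_adjoin ht))
    refine ⟨b, hb, ⟨hb0, hO.le hb, hb1⟩, ?_⟩
    rw [hab, div_mul_cancel₀ _ hb0]
    exact ha
  have h1' : ∀ t : L, ∃ b ∈ A, Un O b ∧ (t ∈ T → t * b ∈ A) := by
    intro t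
    by_cases ht : t ∈ T
    · obtain ⟨b, hb, hb1, hb2⟩ := h1 t ht
      exact ⟨b, hb, hb1, fun _ => hb2⟩
    · exact ⟨1, A.one_mem, Un.one O, fun h => absurd h ht⟩
  choose b hbA hbO hb using h1'
  refine ⟨∏ t ∈ T, b t, A.prod_mem fun t _ => hbA t, Un.prod _ fun t _ => hbO t, fun f hf => ?_⟩
  set h := ∏ t ∈ T, b t with hh
  have hhA : h ∈ A := A.prod_mem fun t _ => hbA t
  rw [← hT] at hf
  induction hf using Algebra.adjoin_induction with
  | mem x hx =>
    refine ⟨1, ?_⟩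
    rw [pow_one, hh, ← Finset.mul_prod_erase T b hx, ← mul_assoc]
    exact A.mul_mem (hb x hx) (A.prod_mem fun t _ => hbA t)
  | algebraMap c =>
    refine ⟨0, ?_⟩
    rw [pow_zero, mul_one]
    exact A.algebraMap_mem c
  | add x y _ _ hx hy =>
    obtain ⟨N, hN⟩ := hx
    obtain ⟨M, hM⟩ := hy
    refine ⟨N + M, ?_⟩
    have e : (x + y) * h ^ (N + M) = x * h ^ N * h ^ M + y * h ^ M * h ^ N := by ring
    rw [e]
    exact A.add_mem (A.mul_mem hN (A.pow_mem hhA M)) (A.mul_mem hM (A.pow_mem hhA N))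
  | mul x y _ _ hx hy =>
    obtain ⟨N, hN⟩ := hx
    obtain ⟨M, hM⟩ := hy
    refine ⟨N + M, ?_⟩
    have e : x * y * h ^ (N + M) = x * h ^ N * (y * h ^ M) := by ring
    rw [e]
    exact A.mul_mem hN hM

end

variable {L : Type} [Field L] [Algebra ℂ L] {n r : ℕ} {X : Set (Subalgebra ℂ L)}
  {D : Fin n → Derivation ℂ L L} {m : ℕ} {κ : Subalgebra ℂ L → Lˣ} {Φ : Finset L}
  {H₀ : Subalgebra ℂ L → Lˣ} {N : Fin r → Subalgebra ℂ L → Lˣ} {q : ℕ} {c : Fin r → ℕ} {u : Lˣ}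
  {t : Fin n → L} {y : L}

/-- the exceptional boundary divisors are contracted to codimension at least two -/
theorem AtM.exc (hX : KltFano X D m κ) {M : GMod n X ⊥ D Φ H₀} {Z : AtD M.F' n (Fin r)}
    {e : Fin Z.s ≃ M.J} (hZ : AtM M N q c u Z e t y) {a : Fin Z.k} {j : M.J}
    (ha : Z.A a ≤ M.P j) (hj : (M.P j).comap M.i ∉ X) (ρ : Fin (n - 1) → M.F')
    (hρ : ∀ i, ∃ i' : Fin r, ∃ f ∈ Z.S i', ∃ g ∈ Z.S i', Un (Z.A a) (g * Z.d a i' ^ Z.m) ∧
      ρ i = f / g) :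
    ∃ Q : MvPolynomial (Fin (n - 1)) ℂ, Q ≠ 0 ∧ ¬ Un (M.P j) (MvPolynomial.aeval ρ Q) := by
  by_contra hcon
  push Not at hcon
  obtain ⟨hPY, hPp⟩ := M.bd.mem j
  have hmor := M.mor hX.proj
  obtain ⟨hO, hdm⟩ := cen_spec (hmor.dom _ hPY)
  set O := cen M.i X (M.P j) with hOdef
  have h1 : ∀ i, ∃ ρ' ∈ O, M.i ρ' = ρ i := by
    intro i
    obtain ⟨i', f, hf, g, hg, hu, hi⟩ := hρ i
    obtain ⟨f', hf', rfl⟩ := hZ.S_eq i' f hf
    obtain ⟨g', hg', rfl⟩ := hZ.S_eq i' g hg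
    have hf1 := hf' O hO
    have hg1 := hg' O hO
    rw [Pi.pow_apply, Units.val_pow_eq_pow_val] at hf1 hg1
    have hd0 := hZ.ok.d_ne a i'
    have h1 : Un (M.P j) (M.i (g' * (N i' O : L) ^ Z.m)) := by
      have h2 := (hu.mono ha).mul ((hZ.d_un a i' _ hPY ha).pow Z.m)
      have h3 : M.i g' * Z.d a i' ^ Z.m *
          ((pb M.i X (N i') (M.P j) : M.F') / Z.d a i') ^ Z.m =
          M.i (g' * (N i' O : L) ^ Z.m) := by
        rw [map_mul, map_pow, pb_val, div_pow]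
        field_simp
        rfl
      rwa [h3] at h2
    have h2 : Un O (g' * (N i' O : L) ^ Z.m) := (hdm.un_iff hg1).1 h1
    refine ⟨f' / g', ?_, by rw [map_div₀, hi]⟩
    have h3 : f' * (N i' O : L) ^ Z.m * (g' * (N i' O : L) ^ Z.m)⁻¹ = f' / g' := by
      rw [← div_eq_mul_inv, mul_div_mul_right _ _ (pow_ne_zero _ (N i' O).ne_zero)]
    rw [← h3]
    exact O.mul_mem hf1 h2.2.2
  choose ρ' hρO hρ' using h1
  have h2 : ∀ Q : MvPolynomial (Fin (n - 1)) ℂ, MvPolynomial.aeval ρ' Q ∈ O ∧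
      M.i (MvPolynomial.aeval ρ' Q) = MvPolynomial.aeval ρ Q := by
    intro Q
    constructor
    · have h1 : MvPolynomial.aeval ρ' Q ∈ Algebra.adjoin ℂ (Set.range ρ') := by
        rw [Algebra.adjoin_range_eq_range_aeval]
        exact ⟨Q, rfl⟩
      refine (Algebra.adjoin_le ?_ : Algebra.adjoin ℂ (Set.range ρ') ≤ O) h1
      rintro _ ⟨i, rfl⟩
      exact hρO i
    · have h3 := MvPolynomial.comp_aeval_apply (R := ℂ) M.i (f := ρ') Q
      rw [h3]
      exact congrArg (fun z => MvPolynomial.aeval z Q) (funext hρ')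
  obtain ⟨A', hA', hfA', hl', -⟩ := hX.proj.exists_chart hO
  have hvc : PrimDiv ((M.P j).comap M.i) := prim_comap M.fin ⟨A', hA', hfA'⟩ hPp
  have hfin : (M.P j).comap M.i = O := eq_of_dom_of_indep hX.dim hA' hl' (hX.proj.fracEq hO)
    (hX.normal _ hO) hvc hdm.le_comap ρ' hρO fun Q hQ => by
      refine (hdm.un_iff (h2 Q).1).1 ?_
      rw [(h2 Q).2]
      exact hcon Q hQ
  exact hj (hfin ▸ hO)

/-- the residues of the ratios of the sections modulo a prime ideal which contains the boundary and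
the equations of the complements of the charts of `L` are algebraically dependent -/
theorem AtM.cert_prime (hX : KltFano X D m κ) {M : GMod n X ⊥ D Φ H₀} {Z : AtD M.F' n (Fin r)}
    {e : Fin Z.s ≃ M.J} (hZ : AtM M N q c u Z e t y) (a : Fin Z.k) (Q : Ideal (Z.A a))
    (hQ : Q.IsPrime) (hε : ∃ j, ∃ h : Z.ε a j ∈ Z.A a, (⟨_, h⟩ : Z.A a) ∈ Q)
    (hh : ∀ j : M.J, (M.P j).comap M.i ∈ X → Z.A a ≤ M.P j → ∃ x ∈ Q, Un (M.P j) (x : M.F'))
    (ρ : Fin (n - 1) → Z.A a)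
    (hρ : ∀ i, ∃ i' : Fin r, ∃ f ∈ Z.S i', ∃ g ∈ Z.S i', Un (Z.A a) (g * Z.d a i' ^ Z.m) ∧
      (ρ i : M.F') = f / g) :
    ∃ P : MvPolynomial (Fin (n - 1)) ℂ, P ≠ 0 ∧ MvPolynomial.aeval ρ P ∈ Q := by
  by_contra hcon
  push Not at hcon
  set O := ordLoc (Z.A a) Q with hOdef
  have hloc : LocAt (Z.A a) O := locAt_ordLoc (Z.A a) Q
  obtain ⟨hO, hAO⟩ := (hZ.loc a O).1 hloc
  have hnu : ∀ x ∈ Q, ¬ Un O (x : M.F') := by
    rintro x hx ⟨hx0, -, hx1⟩
    obtain ⟨b, s, hs, hbs⟩ := (mem_ordLoc Q _).1 hx1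
    have hs0 : (s : M.F') ≠ 0 := by
      intro h0
      apply hs
      have : s = 0 := Subtype.ext h0
      rw [this]
      exact Q.zero_mem
    apply hs
    have h1 : s = b * x := by
      apply Subtype.ext
      show (s : M.F') = b * x
      have h2 : (x : M.F')⁻¹ * x = b / s * x := by rw [hbs]
      rw [inv_mul_cancel₀ hx0] at h2
      field_simp at h2
      exact h2
    rw [h1]
    exact Q.mul_mem_left _ hx
  have hnu' : ∀ x : Z.A a, x ∉ Q → Un O (x : M.F') := by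
    intro x hx
    have hx0 : (x : M.F') ≠ 0 := by
      intro h0
      apply hx
      have : x = 0 := Subtype.ext h0
      rw [this]
      exact Q.zero_mem
    exact ⟨hx0, hAO x.2, (mem_ordLoc Q _).2 ⟨1, x, hx, by
      rw [OneMemClass.coe_one, one_div]⟩⟩
  obtain ⟨j, hj, hjQ⟩ := hε
  have hε0 := hnu _ hjQ
  have hB : ¬ Un O (M.B (e j) O : M.F') := by
    intro h1
    apply hε0
    have h2 := h1.div (hZ.eqn a j O hO hAO)
    rwa [div_div_cancel₀ (M.B (e j) O).ne_zero] at h2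
  have hle : O ≤ M.P (e j) := ((bd_le M.bd M.snc hO (e j)).1).1 hB
  obtain ⟨hPY, hPp⟩ := M.bd.mem (e j)
  have hval : ∀ P : MvPolynomial (Fin (n - 1)) ℂ,
      ((MvPolynomial.aeval ρ P : Z.A a) : M.F') =
        MvPolynomial.aeval (fun i => (ρ i : M.F')) P := fun P =>
    (MvPolynomial.aeval_algebraMap_apply M.F' ρ P).symm
  have hun : ∀ P : MvPolynomial (Fin (n - 1)) ℂ, P ≠ 0 →
      Un O (MvPolynomial.aeval (fun i => (ρ i : M.F')) P) := fun P hP => by
    rw [← hval]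
    exact hnu' _ (hcon P hP)
  have hdom : Dom O (M.P (e j)) := cert_dom M.base.dim hloc.isLocalRing
    (M.base.proj.fracEq hO) hPp hle (fun i => (ρ i : M.F')) (fun i => hAO (ρ i).2) hun
  obtain ⟨A', hA', -, hl', -⟩ := M.base.proj.exists_chart hO
  have hfin : M.P (e j) = O := eq_of_dom_of_indep M.base.dim hA' hl' (M.base.proj.fracEq hO)
    (M.base.normal _ hO) hPp hdom (fun i => (ρ i : M.F')) (fun i => hAO (ρ i).2) hun
  by_cases hexc : (M.P (e j)).comap M.i ∈ X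
  · obtain ⟨x, hx, hxu⟩ := hh (e j) hexc (hAO.trans hle)
    rw [hfin] at hxu
    exact hnu x hx hxu
  · obtain ⟨P, hP, hPu⟩ := hZ.exc hX (hAO.trans hle) hexc (fun i => (ρ i : M.F')) hρ
    exact hPu ((hun P hP).mono hle)

/-- **the certificates** -/
theorem AtM.exists_links (hX : KltFano X D m κ) {M : GMod n X ⊥ D Φ H₀}
    {Z : AtD M.F' n (Fin r)} {e : Fin Z.s ≃ M.J} (hZ : AtM M N q c u Z e t y) {k' : ℕ}
    (A' : Fin k' → Subalgebra ℂ M.F') (hfg : ∀ b, (A' b).FG)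
    (hb : ∀ j, (M.P j).comap M.i ∈ X → ∃ b, A' b ≤ M.P j) :
    ∃ H : Fin Z.k → Finset (M.F' × Fin k'),
      (∀ a, ∀ e ∈ H a, e.1 ≠ 0 ∧ e.1 ∈ Z.A a) ∧
      (∀ a, ∀ e ∈ H a, ∀ f ∈ A' e.2, ∃ N : ℕ, f * e.1 ^ N ∈ Z.A a) ∧
      ∀ a, ∀ r : Fin (n - 1) → M.F',
        (∀ i, ∃ i', ∃ f ∈ Z.S i', ∃ g ∈ Z.S i', Un (Z.A a) (g * Z.d a i' ^ Z.m) ∧
          r i = f / g) →
        ∃ P : MvPolynomial (Fin (n - 1)) ℂ, P ≠ 0 ∧ ∃ w₀ ∈ Z.A a, ∃ w : M.F' × Fin k' → M.F',
          (∀ e, w e ∈ Z.A a) ∧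
          MvPolynomial.aeval r P = (∏ j, Z.ε a j) * w₀ + ∑ e ∈ H a, e.1 * w e := by
  classical
  have h1 : ∀ a, ∀ j : {j : M.J // (M.P j).comap M.i ∈ X ∧ Z.A a ≤ M.P j},
      ∃ e : M.F' × Fin k', e.1 ∈ Z.A a ∧ Un (M.P j) e.1 ∧
        ∀ f ∈ A' e.2, ∃ N : ℕ, f * e.1 ^ N ∈ Z.A a := by
    rintro a ⟨j, hj, ha⟩
    obtain ⟨b, hb'⟩ := hb j hj
    obtain ⟨h, hh, hu, hN⟩ := cert_den ((hZ.loc a _).2 ⟨(M.bd.mem j).1, ha⟩) (hfg b) hb'
    exact ⟨(h, b), hh, hu, hN⟩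
  choose E hEA hEu hEN using h1
  have hεA : ∀ a j, Z.ε a j ∈ Z.A a := by
    intro a j
    show eps (Z.x a) (Z.co a j) ∈ _
    rcases Z.co a j with - | l
    · exact (Z.A a).one_mem
    · show Z.x a l ∈ Z.A a
      rw [(hZ.ok.ch a).A_eq]
      exact Algebra.subset_adjoin (Or.inl ⟨l, rfl⟩)
  refine ⟨fun a => Finset.univ.image (E a), fun a e he => ?_, fun a e he f hf => ?_,
    fun a r hr => ?_⟩
  · obtain ⟨j, -, rfl⟩ := Finset.mem_image.1 he
    exact ⟨(hEu a j).1, hEA a j⟩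
  · obtain ⟨j, -, rfl⟩ := Finset.mem_image.1 he
    exact hEN a j f hf
  · have hrA : ∀ i, r i ∈ Z.A a := by
      intro i
      obtain ⟨i', f, hf, g, hg, hu, hi⟩ := hr i
      have h1 := hZ.ok.S_sec i' f hf a
      have h2 := (Z.A a).mul_mem h1 hu.2.2
      have h3 : f * Z.d a i' ^ Z.m * (g * Z.d a i' ^ Z.m)⁻¹ = r i := by
        rw [hi, ← div_eq_mul_inv, mul_div_mul_right _ _ (pow_ne_zero _ (hZ.ok.d_ne a i'))]
      rwa [h3] at h2
    set H := Finset.univ.image (E a) with hH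
    have hHA : ∀ e ∈ H, e.1 ∈ Z.A a := by
      intro e he
      obtain ⟨j, -, rfl⟩ := Finset.mem_image.1 he
      exact hEA a j
    let v : Option {e // e ∈ H} → Z.A a := fun o =>
      o.elim ⟨∏ j, Z.ε a j, (Z.A a).prod_mem fun j _ => hεA a j⟩ fun e => ⟨e.1.1, hHA e.1 e.2⟩
    obtain ⟨P, hP, hPI⟩ := cert_rad (k := ℂ) (fun i => (⟨r i, hrA i⟩ : Z.A a))
      (Ideal.span (Set.range v)) fun Q hQ hIQ => by
        have hv : ∀ o, v o ∈ Q := fun o => hIQ (Ideal.subset_span ⟨o, rfl⟩)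
        refine hZ.cert_prime hX a Q hQ ?_ ?_ _ hr
        · have h1 := hv none
          have h2 : v none = ∏ j, (⟨Z.ε a j, hεA a j⟩ : Z.A a) := by
            apply Subtype.ext
            show (∏ j, Z.ε a j) = _
            push_cast
            rfl
          rw [h2] at h1
          obtain ⟨j, -, hj⟩ := (hQ.prod_mem_iff).1 h1
          exact ⟨j, hεA a j, hj⟩
        · intro j hj ha
          have h1 : E a ⟨j, hj, ha⟩ ∈ H := Finset.mem_image_of_mem _ (Finset.mem_univ _)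
          exact ⟨v (some ⟨_, h1⟩), hv _, hEu a ⟨j, hj, ha⟩⟩
    obtain ⟨w, hw⟩ := Ideal.mem_span_range_iff_exists_fun.1 hPI
    refine ⟨P, hP, w none, (w none).2,
      fun e => if he : e ∈ H then (w (some ⟨e, he⟩) : M.F') else 0, fun e => ?_, ?_⟩
    · dsimp only
      split_ifs with he
      · exact (w _).2
      · exact (Z.A a).zero_mem
    · have h1 : ((MvPolynomial.aeval (fun i => (⟨r i, hrA i⟩ : Z.A a)) P : Z.A a) : M.F') =
          MvPolynomial.aeval r P :=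
        (MvPolynomial.aeval_algebraMap_apply M.F' (fun i => (⟨r i, hrA i⟩ : Z.A a)) P).symm
      rw [← h1, ← hw, Fintype.sum_option, ← Finset.sum_coe_sort H]
      push_cast
      rw [mul_comm]
      congr 1
      refine Finset.sum_congr rfl fun e _ => ?_
      rw [dif_pos e.2, mul_comm]
      rfl

end Pool.Agent.KM
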