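import Pool.Agent.Lib.MP_732f67_ag.G2.EqM
import Pool.Agent.Lib.MP_732f67_ag.G.MainThm
import Pool.Agent.Lib.MP_732f67_ag.NE.Fin

/-!
The main theorem without a log resolution, from the theorem on the atlas and the existence of
the atlas.
-/

namespace Pool.Agent.KM

/-- the existence of the atlas of a Galois model, with the charts of the function field of `X` -/
def ExL : Prop :=
  ∀ (F : Type) [Field F] [Algebra ℂ F] (n m : ℕ) (X : Set (Subalgebra ℂ F))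
    (D : Fin n → Derivation ℂ F F) (κ : Subalgebra ℂ F → Fˣ), KltFano X D m κ →
    ∀ (r : ℕ) (M : Fin r → Subalgebra ℂ F → Fˣ), (∀ l, IsCar X (M l)) → (∀ l, Semi X (M l)) →
    (∀ l, ¬ Triv X (M l)) → ∀ (q' : ℕ) (c : Fin r → ℕ) (u : Fˣ), 1 ≤ q' → (∀ l, 0 < c l) →
    QDec X κ q' c u M →
    ∃ (E : Type) (_ : Field E) (_ : Algebra ℂ E) (Y : AtD E n (Fin r)) (S : AtL Y)
      (i : F →ₐ[ℂ] E), S.Ok ∧ 0 < Y.N ∧ Y.q = m * q' ∧ Y.c = c ∧ S.L = i.fieldRange ∧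
        ∀ (v : Fin r → ℕ) (f : F), (∀ a, i f * ∏ l, Y.d a l ^ v l ∈ Y.A a) ↔
          f ∈ Sec X (∏ l, M l ^ v l)

theorem mainS_of (hT : TThmL) (hE : ExL) : MainS := by
  intro F _ _ n X D m κ hX r a M hM
  have key : ∀ (q' : ℕ) (c : Fin r → ℕ) (u : Fˣ), 1 ≤ q' → (∀ i, 0 < c i) → QDec X κ q' c u M →
      ∑ i, (c i : ℝ) / (m * q') ≤ (2 * n : ℕ) ∧
        (∑ i, (c i : ℝ) / (m * q') = (2 * n : ℕ) → IsP1n X n) := by
    intro q' c u hq hc hu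
    obtain ⟨E, iF, iA, Y, S, i, hS, hN, hYq, hYc, hi, hsec⟩ :=
      hE F n m X D κ hX r M hM.car hM.semi hM.ne q' c u hq hc hu
    obtain ⟨h1, h2⟩ := hT E n r Y S hS hN
    have h3 : ∑ i, (Y.c i : ℝ) / Y.q = ∑ i, (c i : ℝ) / (m * q') := by
      rw [hYq, hYc]
      push_cast
      rfl
    have h4 : ((2 * n : ℕ) : ℝ) = 2 * n := by push_cast; ring
    rw [h4, ← h3]
    refine ⟨h1, fun h5 => ?_⟩
    obtain ⟨J, hJ, h6⟩ := exists_JL (h2 h5)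
    exact isP1n_of_eqDataL hX hq hc hu hS hN i hi hsec hJ h6
  obtain ⟨h1, h2⟩ := sum_le_of_qdec hX.proj hX.normal hX.can.1 hX.pos hM.car hM.pos hM.equiv (2 * n)
    fun q' c u hq hc hu => (key q' c u hq hc hu).1
  have h4 : ((2 * n : ℕ) : ℝ) = 2 * n := by push_cast; ring
  rw [h4] at h1 h2
  refine ⟨h1, fun h3 => ?_⟩
  obtain ⟨q', c, u, hq, hc, hu, h5⟩ := h2 h3
  exact (key q' c u hq hc hu).2 (by rw [h4]; exact h5)

end Pool.Agent.KM
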