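import Pool.Agent.Lib.MP_732f67_ag.N.CarF
import Pool.Agent.Lib.MP_732f67_ag.N.DmS
import Pool.Agent.Lib.MP_732f67_ag.G.Nbh

/-!
Good neighbourhoods of the points of a smooth model, and of divisors `N i` on it.
-/

namespace Pool.Agent.KM

open scoped KaehlerDifferential

variable {E : Type} [Field E] [Algebra ℂ E] {n r : ℕ} {J : Type}

/-- `A` is a good chart of `W`: it is standard étale with coordinates `x`, the components of the
boundary are given by some of the coordinates, `d i` is a local equation of `N i`, and one of the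
elements of `T i`, `T' i` generates `m N i`, `(m + 1) N i` -/
structure NbE (W : Set (Subalgebra ℂ E)) (B : J → Subalgebra ℂ E → Eˣ)
    (Δ : Fin n → Derivation ℂ E E) (κ : Subalgebra ℂ E → Eˣ) (N : Fin r → Subalgebra ℂ E → Eˣ)
    (m : ℕ) (T T' : Fin r → Finset E) (A : Subalgebra ℂ E) (x : Fin n → E) (y u : E)
    (co : J → Option (Fin n)) (d : Fin r → E) : Prop where
  ch : IsCh A x y u
  eqn : ∀ j, ∀ Q ∈ W, A ≤ Q → Un Q ((B j Q : E) / eps x (co j))
  inj : ∀ j j' l, co j = some l → co j' = some l → j = j'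
  can : ∀ Q ∈ W, A ≤ Q → Un Q ((κ Q : E) * nj Δ x)
  d_eq : ∀ i, ∃ O ∈ W, d i = N i O
  d_un : ∀ i, ∀ Q ∈ W, A ≤ Q → Un Q ((N i Q : E) / d i)
  gen : ∀ i, ∃ f ∈ T i, ∀ Q ∈ W, A ≤ Q → Un Q (f * (N i Q : E) ^ m)
  gen' : ∀ i, ∃ f ∈ T' i, ∀ Q ∈ W, A ≤ Q → Un Q (f * (N i Q : E) ^ (m + 1))

theorem NbE.d_ne {W : Set (Subalgebra ℂ E)} {B : J → Subalgebra ℂ E → Eˣ}
    {Δ : Fin n → Derivation ℂ E E} {κ : Subalgebra ℂ E → Eˣ} {N : Fin r → Subalgebra ℂ E → Eˣ}
    {m : ℕ} {T T' : Fin r → Finset E} {A : Subalgebra ℂ E} {x : Fin n → E} {y u : E}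
    {co : J → Option (Fin n)} {d : Fin r → E} (h : NbE W B Δ κ N m T T' A x y u co d) (i : Fin r) :
    d i ≠ 0 := by
  obtain ⟨O, -, h1⟩ := h.d_eq i
  rw [h1]
  exact (N i O).ne_zero

/-- a generator at `O` is a generator at the neighbouring points -/
theorem nbE_gen {O Q : Subalgebra ℂ E} {D : Subalgebra ℂ E → Eˣ} {f : E} (k : ℕ)
    (h : Un Q (f * (D O : E) ^ k)) (hD : Un Q ((D O / D Q : Eˣ) : E)) :
    Un Q (f * (D Q : E) ^ k) := by
  have h1 := h.mul (hD.pow k).inv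
  have h2 : f * (D O : E) ^ k * (((D O / D Q : Eˣ) : E) ^ k)⁻¹ = f * (D Q : E) ^ k := by
    have h3 := (D O).ne_zero
    have h4 := (D Q).ne_zero
    rw [Units.val_div_eq_div_val, div_pow]
    field_simp
  rwa [h2] at h1

/-- Every point of the model has a good basic open neighbourhood.

PROOF. As `exists_nb`: `A0 = cht V v`, `LocAt A0 O`; `exists_isCh` gives `A1 = A0[h⁻¹]` standard étale;
`Bn.shrink` for the finite sets of `IsCar`, and the units which occur and their inverses. -/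
theorem exists_nbE [Fintype J] {W : Set (Subalgebra ℂ E)} {B : J → Subalgebra ℂ E → Eˣ}
    {Δ : Fin n → Derivation ℂ E E} {κ : Subalgebra ℂ E → Eˣ} (hW : Snc n W B Δ κ)
    {N : Fin r → Subalgebra ℂ E → Eˣ} (hN : ∀ i, IsCar W (N i)) {m : ℕ}
    {T T' : Fin r → Finset E} (hT : ∀ i, ∀ O ∈ W, ∃ f ∈ T i, Un O (f * (N i O : E) ^ m))
    (hT' : ∀ i, ∀ O ∈ W, ∃ f ∈ T' i, Un O (f * (N i O : E) ^ (m + 1))) {V : Submodule ℂ E}
    (hV : Module.Finite ℂ V) (hWV : W = Pts V) {O : Subalgebra ℂ E} (hO : O ∈ W) :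
    ∃ (d : ℕ) (g : E), 1 ≤ d ∧ g ∈ V ^ d ∧ g ≠ 0 ∧ cht (V ^ d) g ≤ O ∧
      ∃ (x : Fin n → E) (y u : E) (co : J → Option (Fin n)) (δ : Fin r → E),
        NbE W B Δ κ N m T T' (cht (V ^ d) g) x y u co δ := by
  classical
  have hO' : O ∈ Pts V := hWV ▸ hO
  obtain ⟨v, A0, hv, hv0, hA0, hBn0, hloc0⟩ := exists_bn hO'
  have hA0fg : A0.FG := hA0 ▸ cht_fg hV v
  have hfr0 : FracEq A0 := nb_frac hloc0 (hW.proj.fracEq hO)
  obtain ⟨x, co, ⟨bb, hb⟩, hinj, hco1, hκx⟩ := hW.snc O hO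
  obtain ⟨h, hh, hh0, hhO, y, u, hch⟩ := exists_isCh hA0fg hfr0 hloc0 (hW.smooth O hO) x bb hb
  have hBn1 := hBn0.away hh hh0 hhO
  set A1 : Subalgebra ℂ E := Algebra.adjoin ℂ ((A0 : Set E) ∪ {h⁻¹}) with hA1
  set xx : Fin n → E := fun i => (x i : E) with hxx
  choose S hS1 hS2 using fun j => hW.car j O hO
  obtain ⟨Sκ, hκ1, hκ2⟩ := hW.kcar O hO
  choose SN hN1 hN2 using fun i => hN i O hO
  choose f hf hf1 using fun i => hT i O hO
  choose f' hf' hf'1 using fun i => hT' i O hO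
  -- the units
  set TU : Finset E := insert ((κ O : E) * nj Δ xx)
    ((Finset.univ.image fun j => (B j O : E) / eps xx (co j)) ∪
    ((Finset.univ.image fun i => f i * (N i O : E) ^ m) ∪
    (Finset.univ.image fun i => f' i * (N i O : E) ^ (m + 1)))) with hTU
  have hTU1 : ∀ t ∈ TU, Un O t := by
    intro t ht
    simp only [hTU, Finset.mem_insert, Finset.mem_union, Finset.mem_image, Finset.mem_univ,
      true_and] at ht
    rcases ht with rfl | ⟨j, rfl⟩ | ⟨i, rfl⟩ | ⟨i, rfl⟩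
    · exact hκx
    · exact hco1 j
    · exact hf1 i
    · exact hf'1 i
  set TA : Finset E := (Finset.univ.biUnion S) ∪ (Sκ ∪ ((Finset.univ.biUnion SN) ∪
    (TU ∪ TU.image fun t => t⁻¹))) with hTA
  have hTA1 : ∀ t ∈ TA, t ∈ O := by
    intro t ht
    simp only [hTA, Finset.mem_union, Finset.mem_biUnion, Finset.mem_image, Finset.mem_univ,
      true_and] at ht
    rcases ht with ⟨j, hj⟩ | h1 | ⟨i, hi⟩ | h1 | ⟨s, h1, rfl⟩
    · exact hS1 j t hj
    · exact hκ1 t h1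
    · exact hN1 i t hi
    · exact (hTU1 t h1).2.1
    · exact (hTU1 s h1).2.2
  obtain ⟨q, hq1, hq0, hqO, hqT⟩ := hBn1.shrink hO' TA hTA1
  have hBn2 := hBn1.away hq1 hq0 hqO
  obtain ⟨u', hch'⟩ := hch.away hq1 hq0
  set A : Subalgebra ℂ E := Algebra.adjoin ℂ ((A1 : Set E) ∪ {q⁻¹}) with hA
  obtain ⟨d, g, hd, hg, hg0, hAg, hAO⟩ := hBn2
  have hun : ∀ t ∈ TU, ∀ Q, A ≤ Q → Un Q t := by
    intro t ht Q hQ
    refine ⟨(hTU1 t ht).1, hQ (hqT t ?_), hQ (hqT _ ?_)⟩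
    · simp only [hTA, Finset.mem_union]
      exact Or.inr (Or.inr (Or.inr (Or.inl ht)))
    · simp only [hTA, Finset.mem_union]
      exact Or.inr (Or.inr (Or.inr (Or.inr (Finset.mem_image_of_mem _ ht))))
  have hBQ : ∀ j, ∀ Q ∈ W, A ≤ Q → Un Q ((B j O / B j Q : Eˣ) : E) := by
    intro j Q hQ hAQ
    refine hS2 j Q hQ fun t ht => hAQ (hqT t ?_)
    simp only [hTA, Finset.mem_union, Finset.mem_biUnion]
    exact Or.inl ⟨j, Finset.mem_univ j, ht⟩
  have hκQ : ∀ Q ∈ W, A ≤ Q → Un Q ((κ O / κ Q : Eˣ) : E) := by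
    intro Q hQ hAQ
    refine hκ2 Q hQ fun t ht => hAQ (hqT t ?_)
    simp only [hTA, Finset.mem_union]
    exact Or.inr (Or.inl ht)
  have hNQ : ∀ i, ∀ Q ∈ W, A ≤ Q → Un Q ((N i O / N i Q : Eˣ) : E) := by
    intro i Q hQ hAQ
    refine hN2 i Q hQ fun t ht => hAQ (hqT t ?_)
    simp only [hTA, Finset.mem_union, Finset.mem_biUnion]
    exact Or.inr (Or.inr (Or.inl ⟨i, Finset.mem_univ i, ht⟩))
  refine ⟨d, g, hd, hg, hg0, hAg ▸ hAO, xx, y, u', co, fun i => (N i O : E), ?_⟩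
  rw [← hAg]
  refine ⟨hch', ?_, hinj, ?_, fun i => ⟨O, hO, rfl⟩, ?_, ?_, ?_⟩
  · intro j Q hQ hAQ
    have h1 : Un Q ((B j O : E) / eps xx (co j)) := by
      refine hun _ ?_ Q hAQ
      simp only [hTU, Finset.mem_insert, Finset.mem_union, Finset.mem_image, Finset.mem_univ,
        true_and]
      exact Or.inr (Or.inl ⟨j, rfl⟩)
    have h2 := h1.div (hBQ j Q hQ hAQ)
    have h4 : (B j O : E) / eps xx (co j) / ((B j O / B j Q : Eˣ) : E) =
        (B j Q : E) / eps xx (co j) := by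
      have h5 : (B j O : E) ≠ 0 := Units.ne_zero _
      have h6 : (B j Q : E) ≠ 0 := Units.ne_zero _
      rw [Units.val_div_eq_div_val]
      field_simp
    rwa [h4] at h2
  · intro Q hQ hAQ
    have h1 : Un Q ((κ O : E) * nj Δ xx) := by
      refine hun _ ?_ Q hAQ
      simp only [hTU, Finset.mem_insert]
      exact Or.inl trivial
    have h2 := h1.div (hκQ Q hQ hAQ)
    have h4 : (κ O : E) * nj Δ xx / ((κ O / κ Q : Eˣ) : E) = (κ Q : E) * nj Δ xx := by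
      have h5 : (κ O : E) ≠ 0 := Units.ne_zero _
      have h6 : (κ Q : E) ≠ 0 := Units.ne_zero _
      rw [Units.val_div_eq_div_val]
      field_simp
    rwa [h4] at h2
  · intro i Q hQ hAQ
    have h1 := (hNQ i Q hQ hAQ).inv
    rwa [Units.val_div_eq_div_val, inv_div] at h1
  · intro i
    refine ⟨f i, hf i, fun Q hQ hAQ => nbE_gen m ?_ (hNQ i Q hQ hAQ)⟩
    refine hun _ ?_ Q hAQ
    simp only [hTU, Finset.mem_insert, Finset.mem_union, Finset.mem_image, Finset.mem_univ,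
      true_and]
    exact Or.inr (Or.inr (Or.inl ⟨i, rfl⟩))
  · intro i
    refine ⟨f' i, hf' i, fun Q hQ hAQ => nbE_gen (m + 1) ?_ (hNQ i Q hQ hAQ)⟩
    refine hun _ ?_ Q hAQ
    simp only [hTU, Finset.mem_insert, Finset.mem_union, Finset.mem_image, Finset.mem_univ,
      true_and]
    exact Or.inr (Or.inr (Or.inr ⟨i, rfl⟩))

end Pool.Agent.KM
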