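import Pool.Agent.Lib.MP_732f67_ag.N.FrD
import Pool.Agent.Lib.MP_732f67_ag.G.EtB

/-!
Prime divisors are smooth: a discrete valuation ring which is a local ring of a finitely generated
algebra over `ℂ` is formally smooth, the differentials of a uniformizer `π` and of the lifts `t` of a
transcendence basis of the residue field form a basis of its differentials.
-/

namespace Pool.Agent.KM

open IsLocalRing TensorProduct
open scoped KaehlerDifferential

/-- an extension of discrete valuation rings with ramification index one and separable residue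
field extension is formally étale -/
theorem etale_of_dvr {R S P : Type*} [CommRing R] [IsDomain R] [IsDiscreteValuationRing R]
    [CommRing S] [IsDomain S] [IsLocalRing S] [Algebra R S] [IsLocalHom (algebraMap R S)]
    (hinj : Function.Injective (algebraMap R S))
    (hm : (maximalIdeal R).map (algebraMap R S) = maximalIdeal S)
    [Algebra.IsSeparable (ResidueField R) (ResidueField S)]
    [CommRing P] [Algebra R P] [Algebra P S] [IsScalarTower R P S] (M : Submonoid P)
    [IsLocalization M S] [Algebra.FinitePresentation R P] : Algebra.FormallyEtale R S := by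
  have hflat : Module.Flat R S := by
    have : FaithfulSMul R S := (faithfulSMul_iff_algebraMap_injective R S).2 hinj
    have : Module.IsTorsionFree R S := inferInstance
    infer_instance
  have hes1 : Algebra.EssFiniteType R P := inferInstance
  have hes2 : Algebra.EssFiniteType P S := .of_isLocalization _ M
  have hes : Algebra.EssFiniteType R S := .comp R P S
  have hun : Algebra.FormallyUnramified R S := Algebra.FormallyUnramified.of_map_maximalIdeal hm
  have hun' : Algebra.FormallyUnramified (ResidueField R) (ResidueField R ⊗[R] S) := inferInstance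
  have hes' : Algebra.EssFiniteType (ResidueField R) (ResidueField R ⊗[R] S) := inferInstance
  have het : Algebra.FormallyEtale (ResidueField R) (ResidueField R ⊗[R] S) :=
    Algebra.FormallyEtale.of_formallyUnramified_of_field _ _
  have hsm : Algebra.FormallySmooth R S :=
    Algebra.FormallySmooth.of_formallySmooth_residueField_tensor M
  exact Algebra.FormallyEtale.of_formallyUnramified_and_formallySmooth

/-- the local ring of a principal prime ideal of a noetherian domain is a discrete valuation ring -/
theorem dvr_of_principal {R S : Type*} [CommRing R] [IsDomain R] [IsNoetherianRing R] {x : R}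
    (hx0 : x ≠ 0) [hx : (Ideal.span {x}).IsPrime] [CommRing S] [IsDomain S] [Algebra R S]
    [IsLocalization.AtPrime S (Ideal.span {x})] [IsLocalRing S] : IsDiscreteValuationRing S := by
  have hno : IsNoetherianRing S :=
    IsLocalization.isNoetherianRing (Ideal.span {x}).primeCompl S inferInstance
  have hmax : maximalIdeal S = Ideal.span {algebraMap R S x} := by
    rw [← IsLocalization.AtPrime.map_eq_maximalIdeal (Ideal.span {x}) S, Ideal.map_span,
      Set.image_singleton]
  have hinj : Function.Injective (algebraMap R S) :=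
    IsLocalization.injective S (Ideal.span {x}).primeCompl_le_nonZeroDivisors
  have hne : ¬ IsField S := by
    rw [isField_iff_maximalIdeal_eq, hmax, Ideal.span_singleton_eq_bot]
    exact fun h => hx0 (hinj (by rw [h, map_zero]))
  have h := ((IsDiscreteValuationRing.TFAE S hne).out 0 4 :
    IsDiscreteValuationRing S ↔ (maximalIdeal S).IsPrincipal)
  exact h.2 ⟨⟨algebraMap R S x, hmax⟩⟩

variable {F : Type} [Field F] [Algebra ℂ F] {O : Subalgebra ℂ F} {n : ℕ}

/-- a prime divisor is formally étale over the affine space -/
theorem prim_smooth (hd : Algebra.trdeg ℂ F = (n + 1 : ℕ)) (hO : PrimDiv O) {π : F}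
    (hπ : Unif O π) {t : Fin n → F} (ht : RI O t) :
    Algebra.FormallySmooth ℂ O ∧ ∃ x : Fin (n + 1) → O,
      (∀ i, (x i : F) = (Fin.cons π t : Fin (n + 1) → F) i) ∧
      ∃ b : Module.Basis (Fin (n + 1)) O Ω[O⁄ℂ], ∀ i, b i = KaehlerDifferential.D ℂ O (x i) := by
  classical
  obtain ⟨hdvr, hfr, A, hA, hAO⟩ := hO
  have hle := hAO.le
  have hw : ∀ j, (Fin.cons π t : Fin (n + 1) → F) j ∈ O := by
    intro j
    refine Fin.cases ?_ (fun l => ?_) j
    · exact hπ.1
    · exact ht.mem l
  set z : Fin (n + 1) → O := fun j => ⟨(Fin.cons π t : Fin (n + 1) → F) j, hw j⟩ with hz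
  let _ : Algebra (MvPolynomial (Fin (n + 1)) ℂ) O :=
    (MvPolynomial.aeval z : MvPolynomial (Fin (n + 1)) ℂ →ₐ[ℂ] O).toRingHom.toAlgebra
  have htow : IsScalarTower ℂ (MvPolynomial (Fin (n + 1)) ℂ) O :=
    IsScalarTower.of_algebraMap_eq' (MvPolynomial.aeval z).comp_algebraMap.symm
  have hval : ∀ p : MvPolynomial (Fin (n + 1)) ℂ,
      ((algebraMap (MvPolynomial (Fin (n + 1)) ℂ) O p : O) : F) =
        MvPolynomial.aeval (Fin.cons π t : Fin (n + 1) → F) p := fun p =>
    (MvPolynomial.aeval_algebraMap_apply F z p).symm
  have het : Algebra.FormallyEtale (MvPolynomial (Fin (n + 1)) ℂ) O := by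
    have hp : (Ideal.span {(MvPolynomial.X 0 : MvPolynomial (Fin (n + 1)) ℂ)}).IsPrime :=
      (Ideal.span_singleton_prime (MvPolynomial.X_ne_zero 0)).2 MvPolynomial.X_prime
    set q : Ideal (MvPolynomial (Fin (n + 1)) ℂ) := Ideal.span {MvPolynomial.X 0} with hq
    let R := Localization.AtPrime q
    have hdvrR : IsDiscreteValuationRing R :=
      dvr_of_principal (R := MvPolynomial (Fin (n + 1)) ℂ) (S := R)
        (MvPolynomial.X_ne_zero (0 : Fin (n + 1)))
    have hun : ∀ x : O, Un O (x : F) → IsUnit x := by
      intro x hx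
      exact IsUnit.of_mul_eq_one ⟨_, hx.2.2⟩ (Subtype.ext (mul_inv_cancel₀ hx.1))
    have hun' : ∀ x : O, IsUnit x → Un O (x : F) := by
      intro x hx
      obtain ⟨y, hy⟩ := hx.exists_right_inv
      have h1 : (x : F) * y = 1 := congrArg (fun v : O => (v : F)) hy
      have h0 : (x : F) ≠ 0 := left_ne_zero_of_mul_eq_one h1
      refine ⟨h0, x.2, ?_⟩
      rw [← eq_inv_of_mul_eq_one_right h1]
      exact y.2
    have hunit : ∀ y : q.primeCompl, IsUnit (algebraMap (MvPolynomial (Fin (n + 1)) ℂ) O y) := by
      intro y
      refine hun _ ?_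
      rw [hval]
      exact prD_un hπ ht fun h => y.2 (Ideal.mem_span_singleton.2 h)
    let φ : R →+* O := IsLocalization.lift (M := q.primeCompl) hunit
    let _ : Algebra R O := φ.toAlgebra
    have htow2 : IsScalarTower (MvPolynomial (Fin (n + 1)) ℂ) R O :=
      IsScalarTower.of_algebraMap_eq fun p => (IsLocalization.lift_eq hunit p).symm
    have hPO : ∀ p : MvPolynomial (Fin (n + 1)) ℂ, algebraMap R O (algebraMap _ R p) =
        algebraMap (MvPolynomial (Fin (n + 1)) ℂ) O p := fun p => IsLocalization.lift_eq hunit p
    have hinj : Function.Injective (algebraMap R O) := by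
      rw [injective_iff_map_eq_zero]
      intro x hx
      obtain ⟨a, s, rfl⟩ := IsLocalization.exists_mk'_eq q.primeCompl x
      have h1 : IsLocalization.mk' R a s * algebraMap (MvPolynomial (Fin (n + 1)) ℂ) R s =
          algebraMap _ R a := IsLocalization.mk'_spec R a s
      have h2 : algebraMap (MvPolynomial (Fin (n + 1)) ℂ) O a = 0 := by
        rw [← hPO, ← h1, map_mul, hx, zero_mul]
      have h3 : MvPolynomial.aeval (Fin.cons π t : Fin (n + 1) → F) a = 0 := by
        rw [← hval, h2]
        rfl
      have h4 : a = 0 := (injective_iff_map_eq_zero _).1 (frC_ai hπ ht) a h3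
      rw [h4, IsLocalization.mk'_zero]
    have hmaxO : maximalIdeal O = Ideal.span {z 0} := by
      ext x
      rw [mem_maximalIdeal, mem_nonunits_iff, Ideal.mem_span_singleton]
      constructor
      · intro hx
        by_cases hx0 : x = 0
        · rw [hx0]
          exact dvd_zero _
        · have h1 := (hπ.2.2 x x.2).resolve_left fun h =>
            hx (hun x ⟨fun h0 => hx0 (Subtype.ext h0), x.2, h⟩)
          refine ⟨⟨_, h1⟩, Subtype.ext ?_⟩
          show (x : F) = π * (x / π)
          rw [mul_div_cancel₀ _ hπ.ne_zero]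
      · rintro ⟨c, rfl⟩ hx
        have h1 := hun' _ (isUnit_of_mul_isUnit_left hx)
        exact hπ.2.1 h1.2.2
    have hm : (maximalIdeal R).map (algebraMap R O) = maximalIdeal O := by
      rw [← IsLocalization.AtPrime.map_eq_maximalIdeal q R, Ideal.map_map]
      refine (congrArg (Ideal.map ((algebraMap R O).comp (algebraMap _ R))) hq).trans ?_
      rw [Ideal.map_span, Set.image_singleton, hmaxO, RingHom.comp_apply, hPO]
      congr 2
      exact MvPolynomial.aeval_X z 0
    have hloc : IsLocalHom (algebraMap R O) := by
      refine ⟨fun x hx => ?_⟩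
      by_contra hcon
      have h1 : x ∈ maximalIdeal R := hcon
      have h2 : algebraMap R O x ∈ maximalIdeal O := hm ▸ Ideal.mem_map_of_mem _ h1
      exact h2 hx
    have hsep : Algebra.IsSeparable (ResidueField R) (ResidueField O) := by
      have hc0 : CharZero (ResidueField R) := charZero_of_injective_algebraMap
        (algebraMap ℂ (ResidueField R)).injective
      have halg : Algebra.IsAlgebraic (ResidueField R) (ResidueField O) := by
        refine ⟨fun v => ?_⟩
        obtain ⟨x, rfl⟩ := residue_surjective v
        obtain ⟨f, hf0, hf⟩ := frD_alg hd hπ (t := t) (x : F)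
        let ρ : MvPolynomial (Fin n) ℂ →+* R := (algebraMap (MvPolynomial (Fin (n + 1)) ℂ) R).comp
          (MvPolynomial.rename Fin.succ : MvPolynomial (Fin n) ℂ →ₐ[ℂ] _).toRingHom
        have hρ : ∀ c : MvPolynomial (Fin n) ℂ, ((algebraMap R O (ρ c) : O) : F) =
            MvPolynomial.aeval t c := by
          intro c
          show ((algebraMap R O (algebraMap _ R (MvPolynomial.rename Fin.succ c)) : O) : F) = _
          rw [hPO, hval, MvPolynomial.aeval_rename]
          rfl
        let ψ : MvPolynomial (Fin n) ℂ →+* ResidueField R := (residue R).comp ρ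
        have hψ : Function.Injective ψ := by
          rw [injective_iff_map_eq_zero]
          intro c hc
          by_contra hc0
          have h1 : ρ c ∈ maximalIdeal R := (residue_eq_zero_iff _).1 hc
          have h2 : algebraMap R O (ρ c) ∈ maximalIdeal O := hm ▸ Ideal.mem_map_of_mem _ h1
          refine h2 (hun _ ?_)
          rw [hρ]
          exact ht c hc0
        refine ⟨f.map ψ, (Polynomial.map_ne_zero_iff hψ).2 hf0, ?_⟩
        rw [Polynomial.aeval_def, Polynomial.eval₂_map]
        have h1 : (algebraMap (ResidueField R) (ResidueField O)).comp ψ =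
            (residue O).comp ((algebraMap R O).comp ρ) := by
          ext1 <;> rfl
        rw [h1, ← Polynomial.hom_eval₂, residue_eq_zero_iff]
        intro h2
        apply hf
        have h3 := hun' _ h2
        have h4 : ((Polynomial.eval₂ ((algebraMap R O).comp ρ) x f : O) : F) = ev t x f := by
          rw [← Subalgebra.coe_val, ← AlgHom.coe_toRingHom, Polynomial.hom_eval₂]
          unfold ev
          congr 1
          exact RingHom.ext fun c => hρ c
        rwa [h4] at h3
      infer_instance
    -- the finitely generated algebra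
    obtain ⟨G, hG⟩ := hA
    have hGO : ∀ g ∈ G, g ∈ O := fun g hg => hle (hG ▸ Algebra.subset_adjoin hg)
    let P : Subalgebra R O := Algebra.adjoin R (Set.range fun g : G => (⟨g, hGO g g.2⟩ : O))
    have hPfg : P.FG := Subalgebra.fg_def.2 ⟨_, Set.finite_range _, rfl⟩
    have hPft : Algebra.FiniteType R P := (Subalgebra.fg_iff_finiteType _).1 hPfg
    have hPfp : Algebra.FinitePresentation R P :=
      (Algebra.FinitePresentation.of_finiteType (R := R) (A := P)).1 hPft
    have hAP : ∀ a (ha : a ∈ A), (⟨a, hle ha⟩ : O) ∈ P := by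
      intro a ha
      have h1 : ∀ a ∈ Algebra.adjoin ℂ (G : Set F), ∃ v : P, ((v : O) : F) = a := by
        intro a ha
        induction ha using Algebra.adjoin_induction with
        | mem x hx => exact ⟨⟨⟨x, hGO x hx⟩, Algebra.subset_adjoin ⟨⟨x, hx⟩, rfl⟩⟩, rfl⟩
        | algebraMap c =>
          refine ⟨⟨algebraMap ℂ O c, ?_⟩, rfl⟩
          have h2 : algebraMap ℂ O c = algebraMap R O
              (algebraMap (MvPolynomial (Fin (n + 1)) ℂ) R (MvPolynomial.C c)) := by
            rw [hPO]
            exact (MvPolynomial.aeval_C z c).symm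
          rw [h2]
          exact P.algebraMap_mem _
        | add x y _ _ h1 h2 =>
          obtain ⟨v, rfl⟩ := h1
          obtain ⟨w, rfl⟩ := h2
          exact ⟨v + w, rfl⟩
        | mul x y _ _ h1 h2 =>
          obtain ⟨v, rfl⟩ := h1
          obtain ⟨w, rfl⟩ := h2
          exact ⟨v * w, rfl⟩
      obtain ⟨v, hv⟩ := h1 a (hG ▸ ha)
      have h2 : (⟨a, hle ha⟩ : O) = v := Subtype.ext hv.symm
      rw [h2]
      exact v.2
    let Mon : Submonoid P :=
      { carrier := {y | IsUnit (y : O)}
        mul_mem' := fun h h' => IsUnit.mul h h'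
        one_mem' := isUnit_one }
    have hPloc : IsLocalization Mon O := by
      obtain ⟨p₀, hp₀, hx⟩ := hAO
      refine ⟨fun y => y.2, fun x => ?_, fun {x y} hxy => ⟨1, ?_⟩⟩
      · obtain ⟨a, b, hb, he⟩ := (hx x).1 x.2
        have hb0 : (b : F) ≠ 0 := by
          intro h0
          apply hb
          have h1 : b = 0 := Subtype.ext h0
          rw [h1]
          exact p₀.zero_mem
        have hbu : Un O (b : F) := ⟨hb0, hle b.2, (hx _).2 ⟨1, b, hb, by simp⟩⟩
        refine ⟨(⟨_, hAP a a.2⟩, ⟨⟨_, hAP b b.2⟩, hun _ hbu⟩), Subtype.ext ?_⟩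
        show (x : F) * b = a
        rw [he, div_mul_cancel₀ _ hb0]
      · have h1 : (x : O) = y := hxy
        rw [Subtype.ext h1]
    have hRO : Algebra.FormallyEtale R O := etale_of_dvr (P := P) hinj hm Mon
    have hPR : Algebra.FormallyEtale (MvPolynomial (Fin (n + 1)) ℂ) R :=
      .of_isLocalization q.primeCompl
    exact Algebra.FormallyEtale.comp (MvPolynomial (Fin (n + 1)) ℂ) R O
  refine ⟨Algebra.FormallySmooth.comp ℂ (MvPolynomial (Fin (n + 1)) ℂ) O, z, fun i => rfl,
    ((KaehlerDifferential.mvPolynomialBasis ℂ (Fin (n + 1))).baseChange O).map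
      (KaehlerDifferential.tensorKaehlerEquivOfFormallyEtale ℂ (MvPolynomial (Fin (n + 1)) ℂ) O),
    fun i => ?_⟩
  simp only [Module.Basis.map_apply, Module.Basis.baseChange_apply,
    KaehlerDifferential.mvPolynomialBasis_apply,
    KaehlerDifferential.tensorKaehlerEquivOfFormallyEtale_apply,
    KaehlerDifferential.mapBaseChange_tmul, one_smul, KaehlerDifferential.map_D]
  congr 1
  exact MvPolynomial.aeval_X z i

end Pool.Agent.KM
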