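import Pool.Agent.Lib.MP_732f67_ag.G2.NbE
import Pool.Agent.Lib.MP_732f67_ag.G.AtEx

/-!
The preliminary atlas of a smooth model: finitely many good charts `z (σ a) ≠ 0`.
-/

namespace Pool.Agent.KM

variable {E : Type} [Field E] [Algebra ℂ E] {n r : ℕ} {J : Type}

/-- finitely many good charts; `z` is a very ample system of sections of the divisor `DD` -/
structure PreE (W : Set (Subalgebra ℂ E)) (B : J → Subalgebra ℂ E → Eˣ)
    (Δ : Fin n → Derivation ℂ E E) (κ : Subalgebra ℂ E → Eˣ) (N : Fin r → Subalgebra ℂ E → Eˣ)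
    (m : ℕ) (T T' : Fin r → Finset E) (DD : Subalgebra ℂ E → Eˣ) where
  NN : ℕ
  k : ℕ
  z : Fin NN → E
  σ : Fin k → Fin NN
  x : Fin k → Fin n → E
  y : Fin k → E
  u : Fin k → E
  co : Fin k → J → Option (Fin n)
  d : Fin k → Fin r → E
  z_ne : ∀ j, z j ≠ 0
  cov : ∃ M : ℕ, ∀ j, z j ^ (M + 1) ∈
    Submodule.span ℂ (Set.range fun a => z (σ a)) * (Submodule.span ℂ (Set.range z)) ^ M
  va : VA W DD (Submodule.span ℂ (Set.range z))
  nb : ∀ a, NbE W B Δ κ N m T T' (chA z (σ a)) (x a) (y a) (u a) (co a) (d a)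

/-- PROOF. As `exists_pre`, from `exists_nbE` and `exists_cover`. -/
theorem exists_preE [Fintype J] {W : Set (Subalgebra ℂ E)} {B : J → Subalgebra ℂ E → Eˣ}
    {Δ : Fin n → Derivation ℂ E E} {κ : Subalgebra ℂ E → Eˣ} (hW : Snc n W B Δ κ)
    {N : Fin r → Subalgebra ℂ E → Eˣ} (hN : ∀ i, IsCar W (N i)) {m : ℕ}
    {T T' : Fin r → Finset E} (hT : ∀ i, ∀ O ∈ W, ∃ f ∈ T i, Un O (f * (N i O : E) ^ m))
    (hT' : ∀ i, ∀ O ∈ W, ∃ f ∈ T' i, Un O (f * (N i O : E) ^ (m + 1))) {V : Submodule ℂ E}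
    {DD : Subalgebra ℂ E → Eˣ} (hV : VA W DD V) :
    ∃ d : ℕ, 1 ≤ d ∧ Nonempty (PreE W B Δ κ N m T T' (DD ^ d)) := by
  classical
  have hVf := hV.fin
  have hspan : Submodule.span ℂ (Set.range fun i => ((Module.finBasis ℂ V i : V) : E)) = V := by
    have h1 := congrArg (Submodule.map V.subtype) (Module.finBasis ℂ V).span_eq
    rw [Submodule.map_span, ← Set.range_comp, Submodule.map_subtype_top] at h1
    exact h1
  have hz : ∀ i, ((Module.finBasis ℂ V i : V) : E) ≠ 0 := fun i h0 =>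
    (Module.finBasis ℂ V).ne_zero i (Subtype.ext h0)
  rcases Nat.eq_zero_or_pos (Module.finrank ℂ V) with hN0 | hN0
  · exfalso
    have hV0 : V = ⊥ := Submodule.finrank_eq_zero.1 hN0
    obtain ⟨O, hO⟩ := hW.proj.nonempty
    rw [hV.eq] at hO
    obtain ⟨v, hv, hv0, -⟩ := hO
    rw [hV0, Submodule.mem_bot] at hv
    exact hv0 hv
  obtain ⟨d, N', K, z, σ, hd, hz0, hs, hM, hP⟩ := exists_cover (k := ℂ) hN0
    (fun i => ((Module.finBasis ℂ V i : V) : E)) hz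
    (fun e g => ∃ (x : Fin n → E) (y u : E) (co : J → Option (Fin n)) (δ : Fin r → E),
      NbE W B Δ κ N m T T' (cht (V ^ e) g) x y u co δ) (by
      rw [hspan]
      intro O hO
      exact exists_nbE hW hN hT hT' hV.fin hV.eq (by
        rw [hV.eq]
        exact hO))
  rw [hspan] at hs hP
  have hnb : ∀ a, ∃ (x : Fin n → E) (y u : E) (co : J → Option (Fin n)) (δ : Fin r → E),
      NbE W B Δ κ N m T T' (chA z (σ a)) x y u co δ := by
    intro a
    obtain ⟨e, r', g, hr, he, hder, hzg, hg, hnb⟩ := hP a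
    have hg0 : g ≠ 0 := by
      rintro rfl
      rw [zero_pow (by omega)] at hzg
      exact hz0 _ hzg
    have h1 : chA z (σ a) = cht (V ^ e) g := by
      rw [← cht_pow hr hg hg0, ← hder, ← hzg, ← hs, cht_span]
      rfl
    rw [h1]
    exact hnb
  choose x y u co δ hnb using hnb
  exact ⟨d, hd, ⟨{
      NN := N'
      k := K
      z := z
      σ := σ
      x := x
      y := y
      u := u
      co := co
      d := δ
      z_ne := hz0
      cov := hM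
      va := by
        rw [hs]
        exact VA.pow hW.proj hV hd
      nb := hnb }⟩⟩

namespace PreE

variable {W : Set (Subalgebra ℂ E)} {B : J → Subalgebra ℂ E → Eˣ}
  {Δ : Fin n → Derivation ℂ E E} {κ : Subalgebra ℂ E → Eˣ} {N : Fin r → Subalgebra ℂ E → Eˣ}
  {m : ℕ} {T T' : Fin r → Finset E} {DD : Subalgebra ℂ E → Eˣ}
  (Y : PreE W B Δ κ N m T T' DD)

/-- the ring of the chart -/
def A (a : Fin Y.k) : Subalgebra ℂ E := chA Y.z (Y.σ a)

/-- the same atlas, without divisors -/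
def pre : Pre (s := 0) (r := 0) n W W id Fin.elim0 Fin.elim0 0 DD where
  N := Y.NN
  k := Y.k
  z := Y.z
  σ := Y.σ
  x := Y.x
  y := Y.y
  u := Y.u
  co := fun _ j => j.elim0
  d := fun _ j => j.elim0
  f := fun _ j => j.elim0
  f' := fun _ j => j.elim0
  z_ne := Y.z_ne
  cov := Y.cov
  va := Y.va
  nb := fun a => ⟨(Y.nb a).ch, fun j => j.elim0, fun j => j.elim0, fun j => j.elim0,
    fun j => j.elim0, fun j => j.elim0, fun j => j.elim0, fun j => j.elim0, fun j => j.elim0⟩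

theorem pre_A (a : Fin Y.k) : Y.pre.A a = Y.A a := rfl

theorem locAt_iff (hW : IsProj W) (a : Fin Y.k) (Q : Subalgebra ℂ E) :
    LocAt (Y.A a) Q ↔ Q ∈ W ∧ Y.A a ≤ Q := Y.pre.locAt_iff hW a Q

theorem exists_le (hW : IsProj W) {Q : Subalgebra ℂ E} (hQ : Q ∈ W) : ∃ a, Y.A a ≤ Q :=
  Y.pre.exists_le hW hQ

theorem mem_sup (hW : IsProj W) (a b : Fin Y.k) {w : E}
    (h : ∀ Q ∈ W, Y.A a ≤ Q → Y.A b ≤ Q → w ∈ Q) : w ∈ Y.A a ⊔ Y.A b := Y.pre.mem_sup hW a b h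

theorem mem_A (hW : IsProj W) (a : Fin Y.k) {w : E} (h : ∀ Q ∈ W, Y.A a ≤ Q → w ∈ Q) :
    w ∈ Y.A a := Y.pre.mem_A hW a h

theorem exists_pt (hW : IsProj W) (a : Fin Y.k) : ∃ Q ∈ W, Y.A a ≤ Q := Y.pre.exists_pt hW a

theorem un_of_pt (hW : IsProj W) (a : Fin Y.k) {w : E} (h : ∀ Q ∈ W, Y.A a ≤ Q → Un Q w) :
    Un (Y.A a) w := Y.pre.un_of_pt hW a h

theorem A_fg (a : Fin Y.k) : (Y.A a).FG := Y.pre.A_fg a

theorem isCh (a : Fin Y.k) : IsCh (Y.A a) (Y.x a) (Y.y a) (Y.u a) := (Y.nb a).ch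

theorem un_A (hW : IsProj W) (a : Fin Y.k) {w : E} (hw : w ≠ 0)
    (h : ∀ Q ∈ W, PrimDiv Q → Y.A a ≤ Q → Un Q w) : Un (Y.A a) w := Y.pre.un_A hW a hw h

theorem NN_pos (hW : IsProj W) : 0 < Y.NN := by
  rcases Nat.eq_zero_or_pos Y.NN with h | h
  · exfalso
    obtain ⟨O, hO⟩ := hW.nonempty
    rw [Y.va.eq] at hO
    obtain ⟨v, hv, hv0, -⟩ := hO
    have : IsEmpty (Fin Y.NN) := by
      rw [h]
      infer_instance
    rw [Set.range_eq_empty, Submodule.span_empty, Submodule.mem_bot] at hv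
    exact hv0 hv
  · exact h

theorem eps_ne (hW : IsProj W) (a : Fin Y.k) (j : J) : eps (Y.x a) (Y.co a j) ≠ 0 := by
  obtain ⟨Q, hQ, hQ'⟩ := Y.exists_pt hW a
  intro h
  have h1 := ((Y.nb a).eqn j Q hQ hQ').1
  rw [h, div_zero] at h1
  exact h1 rfl

/-- the transition functions of the boundary divisors -/
theorem ε_trans (hW : IsProj W) (a b : Fin Y.k) (j : J) :
    eps (Y.x a) (Y.co a j) / eps (Y.x b) (Y.co b j) ∈ Y.A a ⊔ Y.A b := by
  refine Y.mem_sup hW a b fun Q hQ ha hb => ?_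
  have h3 := ((Y.nb b).eqn j Q hQ hb).div ((Y.nb a).eqn j Q hQ ha)
  rw [div_div_div_cancel_left' _ _ (B j Q).ne_zero] at h3
  exact h3.2.1

/-- the transition functions of the divisors `N i` -/
theorem d_trans (hW : IsProj W) (a b : Fin Y.k) (i : Fin r) :
    Y.d a i / Y.d b i ∈ Y.A a ⊔ Y.A b := by
  refine Y.mem_sup hW a b fun Q hQ ha hb => ?_
  have h3 := ((Y.nb b).d_un i Q hQ hb).div ((Y.nb a).d_un i Q hQ ha)
  rw [div_div_div_cancel_left' _ _ (N i Q).ne_zero] at h3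
  exact h3.2.1

theorem d_ne (a : Fin Y.k) (i : Fin r) : Y.d a i ≠ 0 := (Y.nb a).d_ne i

/-- the elements `z (σ a)` generate `DD` on the chart `a` -/
theorem z_un (a : Fin Y.k) {Q : Subalgebra ℂ E} (hQ : Q ∈ W) (h : Y.A a ≤ Q) :
    Un Q (Y.z (Y.σ a) * DD Q) := Y.pre.z_un a hQ h

/-- products with powers of the local equations -/
theorem mul_d_pow {a : Fin Y.k} (i : Fin r) {Q : Subalgebra ℂ E} (hQ : Q ∈ W)
    (ha : Y.A a ≤ Q) (f : E) (e : ℕ) : ∃ v, Un Q v ∧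
      f * Y.d a i ^ e = f * (N i Q : E) ^ e * v := by
  refine ⟨(((N i Q : E) / Y.d a i) ^ e)⁻¹, (((Y.nb a).d_un i Q hQ ha).pow e).inv, ?_⟩
  have h1 := (N i Q).ne_zero
  have h2 := Y.d_ne a i
  rw [div_pow]
  field_simp

/-- global sections on the charts -/
theorem sec_mem (hW : IsProj W) {i : Fin r} {e : ℕ} {f : E} (hf : f ∈ Sec W (N i ^ e))
    (a : Fin Y.k) : f * Y.d a i ^ e ∈ Y.A a := by
  refine Y.mem_A hW a fun Q hQ ha => ?_
  obtain ⟨v, hv, h⟩ := Y.mul_d_pow i hQ ha f e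
  have h1 := hf Q hQ
  rw [Pi.pow_apply, Units.val_pow_eq_pow_val] at h1
  rw [h]
  exact Q.mul_mem h1 hv.2.1

/-- one of the sections generates on the chart `a` -/
theorem gen_un (hW : IsProj W) (a : Fin Y.k) (i : Fin r) :
    ∃ f ∈ T i, Un (Y.A a) (f * Y.d a i ^ m) := by
  obtain ⟨f, hf, h1⟩ := (Y.nb a).gen i
  refine ⟨f, hf, Y.un_of_pt hW a fun Q hQ ha => ?_⟩
  obtain ⟨v, hv, h⟩ := Y.mul_d_pow i hQ ha f m
  rw [h]
  exact (h1 Q hQ ha).mul hv

theorem gen_un' (hW : IsProj W) (a : Fin Y.k) (i : Fin r) :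
    ∃ f ∈ T' i, Un (Y.A a) (f * Y.d a i ^ (m + 1)) := by
  obtain ⟨f, hf, h1⟩ := (Y.nb a).gen' i
  refine ⟨f, hf, Y.un_of_pt hW a fun Q hQ ha => ?_⟩
  obtain ⟨v, hv, h⟩ := Y.mul_d_pow i hQ ha f (m + 1)
  rw [h]
  exact (h1 Q hQ ha).mul hv

/-- sections of combinations of the divisors in terms of the charts -/
theorem sec_iff (hW : IsProj W) (v : Fin r → ℕ) (f : E) :
    (∀ a, f * ∏ i, Y.d a i ^ v i ∈ Y.A a) ↔ f ∈ Sec W (∏ i, N i ^ v i) := by
  have hco : ∀ O, (((∏ i, N i ^ v i) O : Eˣ) : E) = ∏ i, (N i O : E) ^ v i := by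
    intro O
    rw [Finset.prod_apply, Units.coe_prod]
    refine Finset.prod_congr rfl fun i _ => ?_
    rw [Pi.pow_apply, Units.val_pow_eq_pow_val]
  have hkey : ∀ a, ∀ Q ∈ W, Y.A a ≤ Q →
      Un Q ((∏ i, (N i Q : E) ^ v i) / ∏ i, Y.d a i ^ v i) := by
    intro a Q hQ ha
    rw [← Finset.prod_div_distrib]
    refine Un.prod _ fun i _ => ?_
    rw [← div_pow]
    exact ((Y.nb a).d_un i Q hQ ha).pow _
  constructor
  · intro h O hO
    rw [hco]
    obtain ⟨a, ha⟩ := Y.exists_le hW hO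
    have h1 := O.mul_mem (ha (h a)) (hkey a O hO ha).2.1
    have h2 : ∏ i, Y.d a i ^ v i ≠ 0 :=
      Finset.prod_ne_zero_iff.2 fun i _ => pow_ne_zero _ (Y.d_ne a i)
    have h3 : f * (∏ i, Y.d a i ^ v i) * ((∏ i, (N i O : E) ^ v i) / ∏ i, Y.d a i ^ v i) =
        f * ∏ i, (N i O : E) ^ v i := by
      field_simp
    rwa [h3] at h1
  · intro h a
    refine Y.mem_A hW a fun Q hQ ha => ?_
    have h1 := h Q hQ
    rw [hco] at h1
    have h4 := Q.mul_mem h1 (hkey a Q hQ ha).2.2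
    have h2 : ∏ i, Y.d a i ^ v i ≠ 0 :=
      Finset.prod_ne_zero_iff.2 fun i _ => pow_ne_zero _ (Y.d_ne a i)
    have h2' : ∏ i, (N i Q : E) ^ v i ≠ 0 :=
      Finset.prod_ne_zero_iff.2 fun i _ => pow_ne_zero _ (N i Q).ne_zero
    have h3 : f * (∏ i, (N i Q : E) ^ v i) *
        ((∏ i, (N i Q : E) ^ v i) / ∏ i, Y.d a i ^ v i)⁻¹ = f * ∏ i, Y.d a i ^ v i := by
      field_simp
    rwa [h3] at h4

end PreE

end Pool.Agent.KM
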