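import Pool.Agent.Lib.MP_732f67_ag.N.FrO
import Pool.Agent.Lib.MP_732f67_ag.N.PrC
import Pool.Agent.Lib.MP_732f67_ag.N.MdE

/-!
# Project KM: residually independent elements and prime divisors
-/

namespace Pool.Agent.KM

variable {F : Type} [Field F] [Algebra ℂ F] {n : ℕ}

/-- a unit of a local ring plus a multiple of a non-unit is a unit -/
theorem riL_add {Q : Subalgebra ℂ F} (hQ : IsLocalRing Q) {a b : F} (ha : Un Q a) (hb : b ∈ Q)
    (hb' : b⁻¹ ∉ Q ∨ b = 0) : Un Q (a + b) := by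
  have hau : IsUnit (⟨a, ha.2.1⟩ : Q) := (pt_isUnit_iff _).2 ⟨ha.1, ha.2.2⟩
  have hbn : ¬ IsUnit (⟨b, hb⟩ : Q) := by
    intro h
    obtain ⟨h1, h2⟩ := (pt_isUnit_iff _).1 h
    rcases hb' with h3 | h3
    · exact h3 h2
    · exact h1 h3
  have hsum : IsUnit ((⟨a, ha.2.1⟩ : Q) + ⟨b, hb⟩) := by
    by_contra hcon
    have h1 : (⟨a, ha.2.1⟩ : Q) ∈ IsLocalRing.maximalIdeal Q := by
      have h2 : (⟨a, ha.2.1⟩ : Q) = ((⟨a, ha.2.1⟩ : Q) + ⟨b, hb⟩) - ⟨b, hb⟩ := by ring
      rw [h2]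
      exact Ideal.sub_mem _ ((IsLocalRing.mem_maximalIdeal _).2 hcon)
        ((IsLocalRing.mem_maximalIdeal _).2 hbn)
    exact (IsLocalRing.mem_maximalIdeal _).1 h1 hau
  obtain ⟨h1, h2⟩ := (pt_isUnit_iff _).1 hsum
  exact ⟨h1, Q.add_mem ha.2.1 hb, h2⟩

/-- polynomials in `x` with coefficients in `ℂ(t)` are units of `V` -/
theorem riL_un {Q V : Subalgebra ℂ F} (hQ : IsLocalRing Q) (hle : Q ≤ V) {t : Fin n → F}
    (ht : RI Q t) {x : F} (hx : x ∈ Q) (hxQ : x⁻¹ ∉ Q) (hxV : Un V x) (N : ℕ) :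
    ∀ f : Polynomial (MvPolynomial (Fin n) ℂ), f.natDegree ≤ N → f ≠ 0 →
      Un V (f.eval₂ (MvPolynomial.aeval t : MvPolynomial (Fin n) ℂ →ₐ[ℂ] F).toRingHom x) := by
  have key : ∀ f : Polynomial (MvPolynomial (Fin n) ℂ), f.coeff 0 ≠ 0 →
      Un V (f.eval₂ (MvPolynomial.aeval t : MvPolynomial (Fin n) ℂ →ₐ[ℂ] F).toRingHom x) := by
    intro f hf
    have h1 := Polynomial.divX_mul_X_add f
    rw [← h1, Polynomial.eval₂_add, Polynomial.eval₂_mul, Polynomial.eval₂_X,
      Polynomial.eval₂_C]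
    have h2 : Un Q (MvPolynomial.aeval t (f.coeff 0)) := ht _ hf
    have h3 := frC_eval_mem hx ht f.divX
    obtain ⟨a, ha⟩ : ∃ a, a = Polynomial.eval₂
      (MvPolynomial.aeval t : MvPolynomial (Fin n) ℂ →ₐ[ℂ] F).toRingHom x f.divX := ⟨_, rfl⟩
    rw [← ha] at h3 ⊢
    have h4 : Un Q (MvPolynomial.aeval t (f.coeff 0) + a * x) := by
      refine riL_add hQ h2 (Q.mul_mem h3 hx) ?_
      by_cases ha0 : a = 0
      · exact Or.inr (by rw [ha0, zero_mul])
      · refine Or.inl fun h5 => hxQ ?_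
        have h6 : x⁻¹ = a * (a * x)⁻¹ := by
          rw [mul_inv, mul_inv_cancel_left₀ ha0]
        rw [h6]
        exact Q.mul_mem h3 h5
    rw [add_comm]
    exact ⟨h4.1, hle h4.2.1, hle h4.2.2⟩
  induction N with
  | zero =>
    intro f hf hf0
    refine key f fun h => hf0 ?_
    rw [Polynomial.eq_C_of_natDegree_le_zero hf, h, Polynomial.C_0]
  | succ N ih =>
    intro f hf hf0
    by_cases h : f.coeff 0 = 0
    · have h1 := Polynomial.divX_mul_X_add f
      rw [h, Polynomial.C_0, add_zero] at h1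
      have h2 : f.divX ≠ 0 := fun h => hf0 (by rw [← h1, h, zero_mul])
      rw [← h1, Polynomial.eval₂_mul, Polynomial.eval₂_X]
      refine Un.mul (ih _ ?_ h2) hxV
      rw [Polynomial.natDegree_divX_eq_natDegree_tsub_one]
      omega
    · exact key f h

/-- a point with `n` residually independent functions, which lies on a prime divisor `V` of a variety of
dimension `n + 1`, is the generic point of `V`

PROOF. Suppose `Q ≠ V`. `V` is the localization of `Q` at a prime ideal `𝔭`; if all non-units of `Q` were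
non-units of `V`, then `Q = V` (an element of `V` is `a / b` with `a, b ∈ Q`, `b` a unit of `V`, so a unit of
`Q`). So there is `x ∈ Q` with `x⁻¹ ∉ Q` and `x⁻¹ ∈ V`, `x ≠ 0`. The `n + 1` elements `(t, x)` are not residually
independent in `V` (`Fin.snoc` or `Fin.cons`; otherwise `frC_ai` for a uniformizer of `V` gives `n + 2`
algebraically independent elements, against `hd`): there is a polynomial
`P = ∑ a_i X ^ i ≠ 0`, `a_i ∈ ℂ[T]`, such that `P(t, x)` is not a unit of `V`. Divide by the power of `X`: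
as `x` is a unit of `V` we may assume `a_0 ≠ 0`. Then `a_0(t)` is a unit of `Q`, and `P(t, x) - a_0(t)`
is a multiple of the non-unit `x` of the local ring `Q`, so `P(t, x)` is a unit of `Q`, so of `V`.
Contradiction. -/
theorem ri_loc {Q V : Subalgebra ℂ F} (hd : Algebra.trdeg ℂ F = (n + 1 : ℕ)) (hQ : IsLocalRing Q)
    (hQV : LocAt Q V) (hV : PrimDiv V) {t : Fin n → F} (ht : RI Q t) : Q = V := by
  obtain ⟨hle, -, hfr⟩ := pt_locAt_iff.1 hQV
  by_contra hne
  have hex : ∃ x ∈ Q, x ≠ 0 ∧ x⁻¹ ∈ V ∧ x⁻¹ ∉ Q := by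
    by_contra hcon
    push Not at hcon
    refine hne (le_antisymm hle fun y hy => ?_)
    obtain ⟨a, ha, b, hb, hb0, hbV, rfl⟩ := hfr y hy
    rw [div_eq_mul_inv]
    exact Q.mul_mem ha (hcon b hb hb0 hbV)
  obtain ⟨x, hx, hx0, hxV, hxQ⟩ := hex
  obtain ⟨π, hπ⟩ := hV.exists_unif
  have hri : RI V (Fin.cons x t : Fin (n + 1) → F) := by
    intro P hP
    rw [frC_aeval]
    exact riL_un hQ hle ht hx hxQ ⟨hx0, hle hx, hxV⟩ _ _ le_rfl
      (by rwa [ne_eq, EmbeddingLike.map_eq_zero_iff])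
  have h2 := (frC_ai hπ hri).lift_cardinalMk_le_trdeg
  rw [hd] at h2
  simp at h2

variable {F' : Type} [Field F'] [Algebra ℂ F'] {i : F →ₐ[ℂ] F'} {X : Set (Subalgebra ℂ F)}
  {Y' : Set (Subalgebra ℂ F')}

/-- if the center `C` of the prime divisor `P` on the normal variety `X` has `n` residually independent
functions, then it is a prime divisor

PROOF. `V := P.comap i` is a prime divisor of `F` (`prim_comap`), and `C` is dominated by it
(`Dm.le_comap`). `eq_of_dom_of_indep` (G/Ord) with `n + 1` for `n` gives `V = C`: the hypothesis is that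
`aeval ρ Q` is a unit of `C`; `i (aeval ρ Q) = aeval (i ∘ ρ) Q` is a unit of `P`, and `Dm.un_iff`. -/
theorem cen_prim (h : Mor i X Y') (hn : Normal X) (hd : Algebra.trdeg ℂ F = (n + 1 : ℕ))
    {P : Subalgebra ℂ F'} (hP : P ∈ Y') (hp : PrimDiv P) {ρ : Fin n → F}
    (hρ : ∀ k, ρ k ∈ cen i X P) (hr : RI P fun k => i (ρ k)) : PrimDiv (cen i X P) := by
  obtain ⟨hC, hdm⟩ := cen_spec (h.dom P hP)
  obtain ⟨A, hA, hfrA, hl, -⟩ := h.proj.exists_chart hC
  have hV : PrimDiv (P.comap i) := prim_comap h.fin ⟨A, hA, hfrA⟩ hp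
  have h1 : P.comap i = cen i X P := by
    refine eq_of_dom_of_indep (n := n + 1) hd hA hl (h.proj.fracEq hC) (hn _ hC) hV hdm.le_comap
      ρ hρ fun Q hQ => ?_
    have h2 : MvPolynomial.aeval ρ Q ∈ cen i X P := by
      have h3 : MvPolynomial.aeval ρ Q ∈ Algebra.adjoin ℂ (Set.range ρ) := by
        rw [Algebra.adjoin_range_eq_range_aeval]
        exact ⟨Q, rfl⟩
      refine (Algebra.adjoin_le ?_ : Algebra.adjoin ℂ (Set.range ρ) ≤ cen i X P) h3
      rintro _ ⟨k, rfl⟩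
      exact hρ k
    rw [← hdm.un_iff h2]
    have h4 : i (MvPolynomial.aeval ρ Q) = MvPolynomial.aeval (fun k => i (ρ k)) Q := by
      exact MvPolynomial.comp_aeval_apply ρ i Q
    rw [h4]
    exact hr Q hQ
  rw [← h1]
  exact hV

end Pool.Agent.KM
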